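import Mathlib

/-!
# Additive valuations on a Dedekind domain and S-units
-/

set_option autoImplicit false

namespace Pool.Agent.Lib.QCFT

open IsDedekindDomain WithZero

section ord

variable {R : Type*} [CommRing R] [IsDedekindDomain R] {K : Type*} [Field K] [Algebra R K]
  [IsFractionRing R K]

/-- additive valuation on `Kˣ` -/
noncomputable def o (v : HeightOneSpectrum R) (x : Kˣ) : ℤ :=
  -Multiplicative.toAdd (v.valuationOfNeZero x)

variable (v : HeightOneSpectrum R)

lemma o_one : o v (1 : Kˣ) = 0 := by simp [o]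

lemma o_mul (x y : Kˣ) : o v (x * y) = o v x + o v y := by
  simp [o]; ring

lemma o_inv (x : Kˣ) : o v x⁻¹ = -o v x := by simp [o]

lemma o_div (x y : Kˣ) : o v (x / y) = o v x - o v y := by
  rw [div_eq_mul_inv, o_mul, o_inv]; ring

lemma o_pow (x : Kˣ) (n : ℕ) : o v (x ^ n) = n * o v x := by
  induction n with
  | zero => simp [o_one]
  | succ n ih => rw [pow_succ, o_mul, ih]; push_cast; ring

lemma o_zpow (x : Kˣ) (n : ℤ) : o v (x ^ n) = n * o v x := by
  cases n with
  | ofNat n => rw [Int.ofNat_eq_natCast, zpow_natCast, o_pow]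
  | negSucc n => rw [zpow_negSucc, o_inv, o_pow]; push_cast [Int.negSucc_eq]; ring

lemma o_prod {ι : Type*} (s : Finset ι) (f : ι → Kˣ) : o v (∏ i ∈ s, f i) = ∑ i ∈ s, o v (f i) := by
  classical
  induction s using Finset.induction_on with
  | empty => simp [o_one]
  | insert a s ha ih => rw [Finset.prod_insert ha, Finset.sum_insert ha, o_mul, ih]

/-- the additive valuation as a homomorphism -/
noncomputable def oHom : Kˣ →* Multiplicative ℤ where
  toFun x := Multiplicative.ofAdd (o v x)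
  map_one' := by rw [o_one]; rfl
  map_mul' x y := by rw [o_mul]; rfl

lemma val_eq (x : Kˣ) : v.valuation K (x : K) = exp (-o v x) := by
  rw [← v.valuationOfNeZero_eq, o, neg_neg]
  rfl

lemma o_eq_iff {x : Kˣ} {n : ℤ} : o v x = n ↔ v.valuation K (x : K) = exp (-n) := by
  rw [val_eq, exp_inj, neg_inj]

lemma o_nonneg_iff {x : Kˣ} : 0 ≤ o v x ↔ v.valuation K (x : K) ≤ 1 := by
  rw [val_eq, ← exp_zero, exp_le_exp]
  constructor <;> intro h <;> linarith

lemma o_eq_zero_iff {x : Kˣ} : o v x = 0 ↔ v.valuation K (x : K) = 1 := by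
  rw [o_eq_iff]; simp

lemma le_o_iff {x : Kˣ} {n : ℤ} : n ≤ o v x ↔ v.valuation K (x : K) ≤ exp (-n) := by
  rw [val_eq, exp_le_exp, neg_le_neg_iff]

lemma o_unit (x : Rˣ) : o v (Units.map (algebraMap R K).toMonoidHom x) = 0 := by
  have h : v.valuationOfNeZero (Units.map (algebraMap R K).toMonoidHom x) = 1 :=
    HeightOneSpectrum.valuation_of_unit_eq v x
  rw [o, h]; rfl

lemma o_neg (x : Kˣ) : o v (-x) = o v x := by
  rw [o_eq_iff, Units.val_neg, Valuation.map_neg, val_eq]

lemma finite_o_ne (x : Kˣ) : {v : HeightOneSpectrum R | o v x ≠ 0}.Finite := by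
  have h1 := HeightOneSpectrum.Support.finite (R := R) (x : K)
  have h2 := HeightOneSpectrum.Support.finite (R := R) ((x⁻¹ : Kˣ) : K)
  refine (h1.union h2).subset ?_
  intro v hv
  by_contra hcon
  simp only [Set.mem_union, HeightOneSpectrum.Support, Set.mem_ofPred_eq, not_or, not_lt] at hcon
  rw [← o_nonneg_iff, ← o_nonneg_iff, o_inv] at hcon
  apply hv
  omega

lemma exists_unif : ∃ p : Kˣ, o v p = 1 := by
  obtain ⟨p, hp⟩ := v.valuation_exists_uniformizer K
  have h0 : p ≠ 0 := by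
    rintro rfl
    rw [map_zero] at hp
    exact exp_ne_zero hp.symm
  refine ⟨Units.mk0 p h0, ?_⟩
  rw [o_eq_iff]
  simpa using hp

/-- `S`-units -/
def SU (S : Set (HeightOneSpectrum R)) (K : Type*) [Field K] [Algebra R K] [IsFractionRing R K] :
    Subgroup Kˣ where
  carrier := {x | ∀ v, v ∉ S → o v x = 0}
  one_mem' := fun v _ => o_one v
  mul_mem' := by
    intro a b ha hb v hv
    rw [o_mul, ha v hv, hb v hv, add_zero]
  inv_mem' := by
    intro a ha v hv
    rw [o_inv, ha v hv, neg_zero]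

lemma mem_SU {S : Set (HeightOneSpectrum R)} {x : Kˣ} : x ∈ SU S K ↔ ∀ v, v ∉ S → o v x = 0 :=
  Iff.rfl

lemma SU_mono {S S' : Set (HeightOneSpectrum R)} (h : S ⊆ S') : SU S K ≤ SU S' K :=
  fun _ hx v hv => hx v fun hs => hv (h hs)

lemma mem_SU_empty {x : Kˣ} :
    x ∈ SU (∅ : Set (HeightOneSpectrum R)) K ↔
      x ∈ (Units.map (algebraMap R K).toMonoidHom : Rˣ →* Kˣ).range := by
  constructor
  · intro hx
    have h1 : ∀ v : HeightOneSpectrum R, v.valuation K (x : K) ≤ 1 := fun v => by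
      rw [← o_nonneg_iff, hx v (by simp)]
    have h2 : ∀ v : HeightOneSpectrum R, v.valuation K ((x⁻¹ : Kˣ) : K) ≤ 1 := fun v => by
      rw [← o_nonneg_iff, o_inv, hx v (by simp)]; simp
    obtain ⟨a, ha⟩ := HeightOneSpectrum.mem_integers_of_valuation_le_one K _ h1
    obtain ⟨b, hb⟩ := HeightOneSpectrum.mem_integers_of_valuation_le_one K _ h2
    have hab : a * b = 1 := by
      apply FaithfulSMul.algebraMap_injective R K
      rw [map_mul, ha, hb, map_one]
      simp
    refine ⟨⟨a, b, hab, by rw [mul_comm]; exact hab⟩, ?_⟩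
    ext
    exact ha
  · rintro ⟨u, rfl⟩ v _
    exact o_unit v u

/-- The class group is killed outside `S`, prime by prime. -/
def ClTriv (S : Set (HeightOneSpectrum R)) (K : Type*) [Field K] [Algebra R K]
    [IsFractionRing R K] : Prop :=
  ∀ v, v ∉ S → ∃ x : Kˣ, o v x = 1 ∧ ∀ v', v' ∉ S → v' ≠ v → o v' x = 0

lemma ClTriv.mono {S S' : Set (HeightOneSpectrum R)} (h : S ⊆ S') (hS : ClTriv S K) :
    ClTriv S' K := by
  intro v hv
  obtain ⟨x, h1, h2⟩ := hS v fun hs => hv (h hs)
  exact ⟨x, h1, fun v' hv' hne => h2 v' (fun hs => hv' (h hs)) hne⟩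

/-- Any finitely supported exponent vector outside `S` is realized. -/
lemma ClTriv.exists_of_finite {S : Set (HeightOneSpectrum R)} (hS : ClTriv S K)
    (n : HeightOneSpectrum R → ℤ) (hn : {v | v ∉ S ∧ n v ≠ 0}.Finite) :
    ∃ x : Kˣ, ∀ v, v ∉ S → o v x = n v := by
  classical
  choose! p hp1 hp2 using hS
  refine ⟨∏ v ∈ hn.toFinset, p v ^ n v, fun v hv => ?_⟩
  rw [o_prod]
  have h : ∀ w ∈ hn.toFinset, o v (p w ^ n w) = if w = v then n v else 0 := by
    intro w hw
    have hw' : w ∉ S := ((Set.Finite.mem_toFinset hn).mp hw).1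
    rw [o_zpow]
    by_cases h : w = v
    · subst h; rw [hp1 w hw']; simp
    · rw [hp2 w hw' v hv (fun h' => h h'.symm)]; simp [h]
  rw [Finset.sum_congr rfl h, Finset.sum_ite_eq']
  split_ifs with h1
  · rfl
  · by_contra hne
    exact h1 ((Set.Finite.mem_toFinset hn).mpr ⟨hv, fun h => hne h.symm⟩)

end ord

end Pool.Agent.Lib.QCFT
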