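import Mathlib
import Pool.Agent.Lib.QCFT.Ord

/-!
# Formal Euler products in `ℝ≥0∞`
-/

set_option autoImplicit false
set_option linter.unusedSectionVars false

namespace Pool.Agent.Lib.QCFT

open scoped ENNReal
open IsDedekindDomain NumberField

section abstract

variable {ι κ : Type*}

/-- sum over all exponent vectors -/
noncomputable def ES (q : ι → ℝ≥0∞) : ℝ≥0∞ := ∑' n : ι →₀ ℕ, n.prod (fun i k => q i ^ k)

lemma ES_comp_le (f : ι → κ) (hf : Function.Injective f) (q : κ → ℝ≥0∞) :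
    ES (q ∘ f) ≤ ES q := by
  unfold ES
  have h1 : ∀ n : ι →₀ ℕ, n.prod (fun i k => (q ∘ f) i ^ k) =
      (fun m : κ →₀ ℕ => m.prod (fun i k => q i ^ k)) (n.mapDomain f) := by
    intro n
    simp only []
    rw [Finsupp.prod_mapDomain_index_inj hf]
    rfl
  rw [tsum_congr h1]
  exact ENNReal.tsum_comp_le_tsum_of_injective (Finsupp.mapDomain_injective hf) _

lemma ES_equiv (e : ι ≃ κ) (q : κ → ℝ≥0∞) : ES (q ∘ e) = ES q := by
  apply le_antisymm (ES_comp_le e e.injective q)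
  have h := ES_comp_le e.symm e.symm.injective (q ∘ e)
  have h2 : (q ∘ e) ∘ e.symm = q := by
    funext x
    simp
  rwa [h2] at h

lemma ES_sum (q : ι ⊕ κ → ℝ≥0∞) : ES q = ES (q ∘ Sum.inl) * ES (q ∘ Sum.inr) := by
  unfold ES
  rw [← (Finsupp.sumFinsuppEquivProdFinsupp (α := ι) (β := κ) (γ := ℕ)).symm.tsum_eq,
    ENNReal.tsum_prod', ← ENNReal.tsum_mul_right]
  apply tsum_congr
  intro a
  rw [← ENNReal.tsum_mul_left]
  apply tsum_congr
  intro b
  rw [Finsupp.sumFinsuppEquivProdFinsupp_symm_apply, Finsupp.prod_sumElim]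
  rfl

lemma ES_unit_le (q : Unit → ℝ≥0∞) (hq : q () ≤ 2⁻¹) : ES q ≤ 2 := by
  unfold ES
  rw [← (Finsupp.uniqueEquiv (M := ℕ) ()).symm.tsum_eq]
  have h1 : ∀ k : ℕ, ((Finsupp.uniqueEquiv (M := ℕ) ()).symm k).prod (fun i k => q i ^ k) =
      q () ^ k := by
    intro k
    rw [Finsupp.uniqueEquiv_symm_apply]
    simp
  rw [tsum_congr h1, ENNReal.tsum_geometric]
  have h2 : (2 : ℝ≥0∞)⁻¹ ≤ 1 - q () := by
    rw [← ENNReal.one_sub_inv_two]
    exact tsub_le_tsub_left hq 1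
  calc (1 - q ())⁻¹ ≤ ((2 : ℝ≥0∞)⁻¹)⁻¹ := ENNReal.inv_le_inv.mpr h2
    _ = 2 := inv_inv _

lemma ES_finite_ne_top (ι : Type*) [Finite ι] :
    ∃ C : ℝ≥0∞, C ≠ ∞ ∧ ∀ q : ι → ℝ≥0∞, (∀ i, q i ≤ 2⁻¹) → ES q ≤ C := by
  induction ι using Finite.induction_empty_option with
  | of_equiv e ih =>
    obtain ⟨C, hC, h⟩ := ih
    refine ⟨C, hC, fun q hq => ?_⟩
    rw [← ES_equiv e q]
    exact h _ fun i => hq _
  | h_empty =>
    refine ⟨1, ENNReal.one_ne_top, fun q _ => ?_⟩
    unfold ES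
    rw [tsum_eq_single (0 : PEmpty →₀ ℕ) (fun b hb => absurd (Subsingleton.elim b 0) hb)]
    simp
  | h_option ih =>
    obtain ⟨C, hC, h⟩ := ih
    refine ⟨C * 2, ENNReal.mul_ne_top hC (by norm_num), fun q hq => ?_⟩
    rw [← ES_equiv (Equiv.optionEquivSumPUnit _).symm q, ES_sum]
    refine mul_le_mul' (h _ fun i => hq _) (ES_unit_le _ (hq _))

end abstract

section ideals

variable (K : Type*) [Field K] [NumberField K]

/-- the ideal with given exponents -/
noncomputable def Gid (n : HeightOneSpectrum (𝓞 K) →₀ ℕ) : Ideal (𝓞 K) :=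
  n.prod (fun v k => v.asIdeal ^ k)

lemma Gid_ne_zero (n : HeightOneSpectrum (𝓞 K) →₀ ℕ) : Gid K n ≠ 0 := by
  rw [Gid, Finsupp.prod, Finset.prod_ne_zero_iff]
  intro v _
  exact pow_ne_zero _ v.ne_bot

lemma count_Gid (n : HeightOneSpectrum (𝓞 K) →₀ ℕ) (v : HeightOneSpectrum (𝓞 K)) :
    FractionalIdeal.count K v (Gid K n : FractionalIdeal (nonZeroDivisors (𝓞 K)) K) = n v := by
  classical
  have h1 : (Gid K n : FractionalIdeal (nonZeroDivisors (𝓞 K)) K) =
      ∏ w ∈ n.support, (w.asIdeal : FractionalIdeal (nonZeroDivisors (𝓞 K)) K) ^ (n w) := by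
    rw [Gid, Finsupp.prod]
    have h2 := map_prod (FractionalIdeal.coeIdealHom (nonZeroDivisors (𝓞 K)) K)
      (fun w => w.asIdeal ^ n w) n.support
    simp only [map_pow] at h2
    exact h2
  rw [h1, FractionalIdeal.count_prod]
  · simp only [FractionalIdeal.count_pow, FractionalIdeal.count_maximal, mul_ite, mul_one, mul_zero]
    rw [Finset.sum_ite_eq']
    split_ifs with h
    · rfl
    · rw [Finsupp.notMem_support_iff] at h
      rw [h]; rfl
  · exact fun w _ ↦ pow_ne_zero _ (FractionalIdeal.coeIdeal_ne_zero.mpr w.ne_bot)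

lemma Gid_injective : Function.Injective (Gid K) := by
  intro n m h
  ext v
  have h1 := count_Gid K n v
  rw [h, count_Gid] at h1
  exact_mod_cast h1.symm

lemma Gid_surjective (I : Ideal (𝓞 K)) (hI : I ≠ 0) : ∃ n, Gid K n = I := by
  classical
  induction I using UniqueFactorizationMonoid.induction_on_prime with
  | h₁ => exact absurd rfl hI
  | h₂ x hx =>
    refine ⟨0, ?_⟩
    rw [Ideal.isUnit_iff] at hx
    rw [hx, Gid, Finsupp.prod_zero_index, Ideal.one_eq_top]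
  | h₃ a p ha hp ih =>
    obtain ⟨n, hn⟩ := ih ha
    have hp' : p.IsPrime := Ideal.isPrime_of_prime hp
    refine ⟨Finsupp.single ⟨p, hp', hp.ne_zero⟩ 1 + n, ?_⟩
    rw [Gid, Finsupp.prod_add_index', Finsupp.prod_single_index]
    · rw [pow_one]
      congr 1
    · rw [pow_zero]
    · intro; rw [pow_zero]
    · intro _ _ _; rw [pow_add]

end ideals

end Pool.Agent.Lib.QCFT
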