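import Mathlib
import Pool.Agent.Lib.QCFT.Ord

/-!
# Primes and valuations in an extension of number fields
-/

set_option autoImplicit false
set_option linter.unusedSectionVars false

namespace Pool.Agent.Lib.QCFT

open IsDedekindDomain NumberField WithZero

section

variable {k F : Type*} [Field k] [NumberField k] [Field F] [NumberField F] [Algebra k F]

/-- the prime below -/
def und (k : Type*) {F : Type*} [Field k] [NumberField k] [Field F] [NumberField F] [Algebra k F]
    (w : HeightOneSpectrum (𝓞 F)) : HeightOneSpectrum (𝓞 k) where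
  asIdeal := w.asIdeal.under (𝓞 k)
  isPrime := inferInstance
  ne_bot := by
    intro h
    exact w.ne_bot (Ideal.eq_bot_of_comap_eq_bot h)

instance liesOver_und (w : HeightOneSpectrum (𝓞 F)) :
    w.asIdeal.LiesOver (und k w).asIdeal := ⟨rfl⟩

/-- ramification index over `k` -/
noncomputable def ee (k : Type*) {F : Type*} [Field k] [NumberField k] [Field F] [NumberField F]
    [Algebra k F] (w : HeightOneSpectrum (𝓞 F)) : ℕ := w.asIdeal.ramificationIdx (𝓞 k)

/-- residue degree over `k` -/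
noncomputable def ff (k : Type*) {F : Type*} [Field k] [NumberField k] [Field F] [NumberField F]
    [Algebra k F] (w : HeightOneSpectrum (𝓞 F)) : ℕ := w.asIdeal.inertiaDeg (𝓞 k)

lemma ee_pos (w : HeightOneSpectrum (𝓞 F)) : 0 < ee k w := Ideal.ramificationIdx_pos _ _

lemma ff_pos (w : HeightOneSpectrum (𝓞 F)) : 0 < ff k w := Ideal.inertiaDeg_pos _ _

lemma val_algebraMap (w : HeightOneSpectrum (𝓞 F)) (x : k) :
    w.valuation F (algebraMap k F x) = (und k w).valuation k x ^ ee k w := by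
  rw [← HeightOneSpectrum.valuation_liesOver F (und k w) w x,
    Ideal.ramificationIdx'_eq_ramificationIdx _ _ (und k w).ne_bot]
  rfl

lemma o_algebraMap (w : HeightOneSpectrum (𝓞 F)) (x : kˣ) :
    o w (Units.map (algebraMap k F).toMonoidHom x) = ee k w * o (und k w) x := by
  rw [o_eq_iff]
  change w.valuation F (algebraMap k F (x : k)) = _
  rw [val_algebraMap, val_eq, ← exp_nsmul]
  congr 1
  simp

lemma exists_und_eq (F : Type*) [Field F] [NumberField F] [Algebra k F]
    (v : HeightOneSpectrum (𝓞 k)) : ∃ w : HeightOneSpectrum (𝓞 F), und k w = v := by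
  obtain ⟨P, hP, hPv⟩ := Ideal.exists_ideal_over_prime_of_isIntegral_of_isDomain
    (S := 𝓞 F) v.asIdeal (by
      rw [(RingHom.injective_iff_ker_eq_bot _).mp (FaithfulSMul.algebraMap_injective (𝓞 k) (𝓞 F))]
      exact bot_le)
  have hP0 : P ≠ ⊥ := by
    rintro rfl
    rw [Ideal.comap_bot_of_injective _ (FaithfulSMul.algebraMap_injective (𝓞 k) (𝓞 F))] at hPv
    exact v.ne_bot hPv.symm
  exact ⟨⟨P, hP, hP0⟩, HeightOneSpectrum.ext hPv⟩

/-- the primes above `v` are finite in number and satisfy `∑ e f = [F : k]`. -/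
lemma sum_ee_ff (v : HeightOneSpectrum (𝓞 k)) :
    ∃ s : Finset (HeightOneSpectrum (𝓞 F)), (∀ w, w ∈ s ↔ und k w = v) ∧
      ∑ w ∈ s, ee k w * ff k w = Module.finrank k F := by
  classical
  have hfin : Finite (v.asIdeal.primesOver (𝓞 F)) := by
    have : v.asIdeal.IsMaximal := v.isMaximal
    exact IsDedekindDomain.primesOver_finite v.asIdeal (𝓞 F)
  let _ : Fintype (v.asIdeal.primesOver (𝓞 F)) := Fintype.ofFinite _
  -- the equivalence
  let e : v.asIdeal.primesOver (𝓞 F) ≃ {w : HeightOneSpectrum (𝓞 F) // und k w = v} :=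
    { toFun := fun q => ⟨⟨q.1, q.2.1, by
          intro h
          have h1 : v.asIdeal = q.1.under (𝓞 k) := q.2.2.over
          rw [h] at h1
          apply v.ne_bot
          rw [h1]
          exact Ideal.comap_bot_of_injective _ (FaithfulSMul.algebraMap_injective (𝓞 k) (𝓞 F))⟩,
          HeightOneSpectrum.ext q.2.2.over.symm⟩
      invFun := fun w => ⟨w.1.asIdeal, w.1.isPrime, ⟨(congrArg HeightOneSpectrum.asIdeal w.2).symm⟩⟩
      left_inv := fun q => rfl
      right_inv := fun w => rfl }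
  have hfin2 : Finite {w : HeightOneSpectrum (𝓞 F) // und k w = v} := Finite.of_equiv _ e
  have hset : {w : HeightOneSpectrum (𝓞 F) | und k w = v}.Finite := Set.finite_coe_iff.mp hfin2
  refine ⟨hset.toFinset, fun w => by simp, ?_⟩
  have h1 := Ideal.sum_ramification_inertia_eq_finrank v.asIdeal (𝓞 F)
  have h2 : Module.finrank (𝓞 k) (𝓞 F) = Module.finrank k F :=
    (IsFractionRing.finrank_eq (𝓞 k) k (𝓞 F) F).symm
  rw [← h2, ← h1]
  symm
  apply Finset.sum_bij (fun q _ => (e q).1)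
  · intro q _
    simp only [Set.Finite.mem_toFinset, Set.mem_ofPred_eq]
    exact (e q).2
  · intro q _ q' _ h
    exact e.injective (Subtype.ext h)
  · intro w hw
    have hw' : und k w = v := by simpa using hw
    exact ⟨e.symm ⟨w, hw'⟩, Finset.mem_univ _, by rw [Equiv.apply_symm_apply]⟩
  · intro q _
    rfl

/-- action of an automorphism on primes -/
noncomputable def sp (s : F ≃ₐ[k] F) (w : HeightOneSpectrum (𝓞 F)) : HeightOneSpectrum (𝓞 F) :=
  HeightOneSpectrum.comap (RingOfIntegers.mapRingEquiv s.toRingEquiv.symm : 𝓞 F →+* 𝓞 F)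
    (RingOfIntegers.mapRingEquiv s.toRingEquiv.symm).surjective w

lemma mem_sp {s : F ≃ₐ[k] F} {w : HeightOneSpectrum (𝓞 F)} {x : 𝓞 F} :
    x ∈ (sp s w).asIdeal ↔ RingOfIntegers.mapRingEquiv s.toRingEquiv.symm x ∈ w.asIdeal := Iff.rfl

lemma und_sp (s : F ≃ₐ[k] F) (w : HeightOneSpectrum (𝓞 F)) : und k (sp s w) = und k w := by
  apply HeightOneSpectrum.ext
  ext x
  change RingOfIntegers.mapRingEquiv s.toRingEquiv.symm (algebraMap (𝓞 k) (𝓞 F) x) ∈ w.asIdeal ↔
    algebraMap (𝓞 k) (𝓞 F) x ∈ w.asIdeal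
  have h : RingOfIntegers.mapRingEquiv s.toRingEquiv.symm (algebraMap (𝓞 k) (𝓞 F) x) =
      algebraMap (𝓞 k) (𝓞 F) x := by
    apply RingOfIntegers.ext
    change s.symm (algebraMap k F (x : k)) = algebraMap k F (x : k)
    exact s.symm.commutes _
  rw [h]

lemma sp_sp (s t : F ≃ₐ[k] F) (w : HeightOneSpectrum (𝓞 F)) : sp s (sp t w) = sp (s * t) w := rfl

lemma sp_one (w : HeightOneSpectrum (𝓞 F)) : sp (1 : F ≃ₐ[k] F) w = w := rfl

lemma intVal_sp (s : F ≃ₐ[k] F) (w : HeightOneSpectrum (𝓞 F)) (x : 𝓞 F) :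
    (sp s w).intValuation x =
      w.intValuation (RingOfIntegers.mapRingEquiv s.toRingEquiv.symm x) := by
  let e := RingOfIntegers.mapRingEquiv s.toRingEquiv.symm
  have hpow : ∀ n : ℕ, x ∈ (sp s w).asIdeal ^ n ↔ e x ∈ w.asIdeal ^ n := by
    intro n
    have h1 : (sp s w).asIdeal ^ n = (w.asIdeal ^ n).comap (e : 𝓞 F →+* 𝓞 F) := by
      have h2 : (sp s w).asIdeal = w.asIdeal.comap (e : 𝓞 F →+* 𝓞 F) := rfl
      rw [h2]
      have h3 : ∀ I : Ideal (𝓞 F), I.comap (e : 𝓞 F →+* 𝓞 F) = I.map (e.symm : 𝓞 F →+* 𝓞 F) :=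
        fun I => (Ideal.map_comap_of_equiv e.symm).symm
      rw [h3, h3, Ideal.map_pow]
    rw [h1]
    rfl
  by_cases hx : x = 0
  · subst hx
    simp
  have hex : e x ≠ 0 := by simpa using hx
  apply le_antisymm
  · rw [HeightOneSpectrum.intValuation_eq_exp_neg_multiplicity w hex,
      HeightOneSpectrum.intValuation_le_pow_iff_mem, hpow]
    rw [← HeightOneSpectrum.intValuation_le_pow_iff_mem,
      ← HeightOneSpectrum.intValuation_eq_exp_neg_multiplicity w hex]
  · rw [HeightOneSpectrum.intValuation_eq_exp_neg_multiplicity (sp s w) hx,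
      HeightOneSpectrum.intValuation_le_pow_iff_mem, ← hpow]
    rw [← HeightOneSpectrum.intValuation_le_pow_iff_mem,
      ← HeightOneSpectrum.intValuation_eq_exp_neg_multiplicity (sp s w) hx]

lemma val_sp (s : F ≃ₐ[k] F) (w : HeightOneSpectrum (𝓞 F)) (x : F) :
    (sp s w).valuation F (s x) = w.valuation F x := by
  obtain ⟨a, b, hb, rfl⟩ := IsFractionRing.div_surjective (A := 𝓞 F) x
  have key : ∀ a : 𝓞 F, (sp s w).valuation F (s (algebraMap (𝓞 F) F a)) =
      w.valuation F (algebraMap (𝓞 F) F a) := by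
    intro a
    have h1 : s (algebraMap (𝓞 F) F a) =
        algebraMap (𝓞 F) F (RingOfIntegers.mapRingEquiv s.toRingEquiv a) := rfl
    rw [h1, HeightOneSpectrum.valuation_of_algebraMap, intVal_sp,
      HeightOneSpectrum.valuation_of_algebraMap]
    congr 1
    apply RingOfIntegers.ext
    exact s.symm_apply_apply _
  rw [map_div₀, map_div₀, map_div₀, key, key]

lemma o_sp (s : F ≃ₐ[k] F) (w : HeightOneSpectrum (𝓞 F)) (x : Fˣ) :
    o (sp s w) (Units.map (s : F →* F) x) = o w x := by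
  rw [o_eq_iff]
  change (sp s w).valuation F (s x) = _
  rw [val_sp, val_eq]

/-- transitivity of the Galois group on the primes above a prime -/
lemma exists_sp_eq [IsGalois k F] {w w' : HeightOneSpectrum (𝓞 F)} (h : und k w = und k w') :
    ∃ s : F ≃ₐ[k] F, sp s w = w' := by
  have h1 : w.asIdeal.under (𝓞 k) = w'.asIdeal.under (𝓞 k) :=
    congrArg HeightOneSpectrum.asIdeal h
  obtain ⟨s, hs⟩ := Ideal.exists_comap_galRestrict_eq (𝓞 k) k F (𝓞 F)
    (p := w.asIdeal.under (𝓞 k)) (P₁ := w.asIdeal) (P₂ := w'.asIdeal)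
    ⟨w.isPrime, ⟨rfl⟩⟩ ⟨w'.isPrime, ⟨h1⟩⟩
  refine ⟨s.symm, HeightOneSpectrum.ext ?_⟩
  rw [← hs]
  ext x
  rw [mem_sp, Ideal.mem_comap]
  have h2 : RingOfIntegers.mapRingEquiv s.symm.toRingEquiv.symm x =
      galRestrict (𝓞 k) k F (𝓞 F) s x := by
    apply RingOfIntegers.ext
    exact (algebraMap_galRestrict_apply (𝓞 k) s x).symm
  rw [h2]

end

end Pool.Agent.Lib.QCFT
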