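import Mathlib

/-!
# Index of squares in commutative groups
-/

set_option autoImplicit false

namespace Pool.Agent.Lib.QCFT

section

variable {G : Type*} [CommGroup G]

/-- the subgroup of squares of elements of `H` -/
def sqS (H : Subgroup G) : Subgroup G := H.map (powMonoidHom 2)

lemma mem_sqS {H : Subgroup G} {x : G} : x ∈ sqS H ↔ ∃ y ∈ H, y ^ 2 = x := by
  simp [sqS, Subgroup.mem_map]

lemma sqS_le (H : Subgroup G) : sqS H ≤ H := by
  intro x hx
  obtain ⟨y, hy, rfl⟩ := mem_sqS.mp hx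
  exact H.pow_mem hy 2

lemma sqS_mono {H H' : Subgroup G} (h : H ≤ H') : sqS H ≤ sqS H' := Subgroup.map_mono h

/-- index of squares -/
noncomputable def sqI (H : Subgroup G) : ℕ := (sqS H).relIndex H

/-- General two-step formula: `K ≤ H` such that `y ^ 2 ∈ K` implies `y ∈ K` for `y ∈ H`. -/
lemma sqI_eq_mul {K H : Subgroup G} (hKH : K ≤ H) (hsat : ∀ y ∈ H, y ^ 2 ∈ K → y ∈ K) :
    sqI H = sqI K * (sqS H ⊔ K).relIndex H := by
  have h1 : sqS H ≤ sqS H ⊔ K := le_sup_left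
  have h2 : sqS H ⊔ K ≤ H := sup_le (sqS_le H) hKH
  have h3 := Subgroup.relIndex_mul_relIndex (sqS H) (sqS H ⊔ K) H h1 h2
  rw [sqI, ← h3]
  congr 1
  -- [sqS H ⊔ K : sqS H] = [K : K ⊓ sqS H]
  rw [Subgroup.relIndex_sup_left, sqI]
  rw [← Subgroup.inf_relIndex_right (sqS H) K, ← Subgroup.inf_relIndex_right (sqS K) K]
  congr 1
  apply le_antisymm
  · rintro x ⟨hx, hxK⟩
    obtain ⟨y, hy, rfl⟩ := mem_sqS.mp hx
    exact ⟨mem_sqS.mpr ⟨y, hsat y hy hxK, rfl⟩, hxK⟩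
  · rintro x ⟨hx, hxK⟩
    exact ⟨sqS_mono hKH hx, hxK⟩

/-- If `f : G → ℤ` is nonzero on `H` then squares and the kernel generate a subgroup of index 2. -/
lemma relIndex_two_of_int (H : Subgroup G) (f : G →* Multiplicative ℤ)
    (hne : ∃ x ∈ H, f x ≠ 1) :
    (sqS H ⊔ (H ⊓ f.ker)).relIndex H = 2 := by
  -- generator of the image
  obtain ⟨g, hg⟩ : ∃ g : Multiplicative ℤ, ∀ y, y ∈ H.map f ↔ y ∈ Subgroup.zpowers g := by
    have : IsCyclic (H.map f) := inferInstance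
    obtain ⟨g, hg⟩ := (Subgroup.isCyclic_iff_exists_zpowers_eq_top (H.map f)).mp this
    exact ⟨g, fun y => by rw [hg]⟩
  have hgm : g ∈ H.map f := (hg g).mpr (Subgroup.mem_zpowers g)
  obtain ⟨p, hp, hpg⟩ := Subgroup.mem_map.mp hgm
  have hg1 : g ≠ 1 := by
    rintro rfl
    obtain ⟨x, hx, hx1⟩ := hne
    apply hx1
    have := (hg (f x)).mp (Subgroup.mem_map_of_mem f hx)
    simpa using this
  have hpow : ∀ n : ℤ, g ^ n = 1 → n = 0 := by
    intro n hn
    have h1 : n * Multiplicative.toAdd g = 0 := by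
      have := congrArg Multiplicative.toAdd hn
      simpa [toAdd_zpow] using this
    rcases mul_eq_zero.mp h1 with h | h
    · exact h
    · exact absurd (Multiplicative.toAdd.injective (by rw [h]; rfl)) hg1
  have hmem : ∀ x ∈ H, ∃ n : ℤ, f x = g ^ n := by
    intro x hx
    obtain ⟨n, hn⟩ := Subgroup.mem_zpowers_iff.mp ((hg (f x)).mp (Subgroup.mem_map_of_mem f hx))
    exact ⟨n, hn.symm⟩
  have hmem2 : ∀ x ∈ H, ∀ n : ℤ, f x = g ^ n → (x ∈ sqS H ⊔ (H ⊓ f.ker) ↔ Even n) := by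
    intro x hx n hn
    constructor
    · intro h
      obtain ⟨s, hs, t, ht, rfl⟩ := Subgroup.mem_sup.mp h
      obtain ⟨y, hy, rfl⟩ := mem_sqS.mp hs
      obtain ⟨m, hm⟩ := hmem y hy
      have ht2 : f t = 1 := ht.2
      rw [map_mul, ht2, mul_one, map_pow, hm] at hn
      have h3 : g ^ (m * 2 - n) = 1 := by
        rw [zpow_sub, zpow_mul, zpow_ofNat, hn]
        simp
      have := hpow _ h3
      exact ⟨m, by omega⟩
    · rintro ⟨m, rfl⟩
      rw [Subgroup.mem_sup]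
      refine ⟨(p ^ m) ^ 2, mem_sqS.mpr ⟨p ^ m, H.zpow_mem hp m, rfl⟩, x * ((p ^ m) ^ 2)⁻¹,
        ⟨H.mul_mem hx (H.inv_mem (H.pow_mem (H.zpow_mem hp m) 2)), ?_⟩, by
          rw [mul_comm, mul_assoc, inv_mul_cancel, mul_one]⟩
      change f _ = 1
      rw [map_mul, map_inv, map_pow, map_zpow, hpg, hn, zpow_add, sq]
      simp
  rw [Subgroup.relIndex, Subgroup.index_eq_two_iff]
  refine ⟨⟨p, hp⟩, fun b => ?_⟩
  obtain ⟨n, hn⟩ := hmem b.1 b.2
  have h1 : b ∈ (sqS H ⊔ (H ⊓ f.ker)).subgroupOf H ↔ Even n := hmem2 b.1 b.2 n hn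
  have h2 : b * ⟨p, hp⟩ ∈ (sqS H ⊔ (H ⊓ f.ker)).subgroupOf H ↔ Even (n + 1) :=
    hmem2 (b.1 * p) (H.mul_mem b.2 hp) (n + 1) (by rw [map_mul, hn, hpg, zpow_add, zpow_one])
  rw [h1, h2]
  rcases Int.even_or_odd n with h | h
  · right
    exact ⟨h, by rw [Int.even_add_one]; exact fun h' => h' h⟩
  · left
    exact ⟨by rw [Int.even_add_one]; exact Int.not_even_iff_odd.mpr h, Int.not_even_iff_odd.mpr h⟩

/-- Adding one integral coordinate doubles the index of squares. -/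
lemma sqI_of_int (H : Subgroup G) (f : G →* Multiplicative ℤ) (hne : ∃ x ∈ H, f x ≠ 1) :
    sqI H = 2 * sqI (H ⊓ f.ker) := by
  rw [sqI_eq_mul (K := H ⊓ f.ker) inf_le_left, relIndex_two_of_int H f hne, mul_comm]
  rintro y hy ⟨_, h2⟩
  refine ⟨hy, ?_⟩
  have h3 : f y ^ 2 = 1 := by rw [← map_pow]; exact h2
  have h4 : 2 * Multiplicative.toAdd (f y) = 0 := by
    have := congrArg Multiplicative.toAdd h3
    simpa [toAdd_pow] using this
  change f y = 1
  apply Multiplicative.toAdd.injective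
  change Multiplicative.toAdd (f y) = 0
  omega

/-- The abstract Herbrand computation for an involution. `V` has an involution `s`, fixed
subgroup `U`, every norm one element is of the form `y / s y`, and the 2-torsion is `{1, m}` with
`m` fixed. -/
lemma herbrand (V : Subgroup G) (s : G →* G) (hss : ∀ x ∈ V, s (s x) = x)
    (hsV : ∀ x ∈ V, s x ∈ V) (m : G) (hmV : m ∈ V) (hm1 : m ≠ 1) (hm2 : m ^ 2 = 1) (hms : s m = m)
    (h90 : ∀ x ∈ V, x * s x = 1 → ∃ y ∈ V, x = y / s y)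
    (htor : ∀ y ∈ V, y ^ 2 = 1 → y = 1 ∨ y = m)
    (U : Subgroup G) (hU : ∀ x, x ∈ U ↔ x ∈ V ∧ s x = x)
    (N : Subgroup G) (hN : ∀ x, x ∈ N ↔ ∃ y ∈ V, x = y * s y) :
    N.relIndex U * (2 * sqI V) = sqI U ^ 2 := by
  have hUV : U ≤ V := fun x hx => ((hU x).mp hx).1
  have hNU : N ≤ U := by
    intro x hx
    obtain ⟨y, hy, rfl⟩ := (hN x).mp hx
    refine (hU _).mpr ⟨V.mul_mem hy (hsV y hy), ?_⟩
    rw [map_mul, hss y hy, mul_comm]
  have hsqN : sqS U ≤ N := by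
    intro x hx
    obtain ⟨y, hy, rfl⟩ := mem_sqS.mp hx
    obtain ⟨h1, h2⟩ := (hU y).mp hy
    exact (hN _).mpr ⟨y, h1, by rw [h2, sq]⟩
  have e1 : (sqS U).relIndex N * N.relIndex U = sqI U :=
    Subgroup.relIndex_mul_relIndex _ _ _ hsqN hNU
  have e2 : (sqS V).relIndex (U ⊔ sqS V) * (U ⊔ sqS V).relIndex V = sqI V :=
    Subgroup.relIndex_mul_relIndex _ _ _ le_sup_right (sup_le hUV (sqS_le V))
  have e3 : (sqS V).relIndex (U ⊔ sqS V) = (sqS V ⊓ U).relIndex U := by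
    rw [sup_comm, Subgroup.relIndex_sup_left, Subgroup.inf_relIndex_right]
  have e4 : (sqS U).relIndex (sqS V ⊓ U) * (sqS V ⊓ U).relIndex U = sqI U :=
    Subgroup.relIndex_mul_relIndex _ _ _ (le_inf (sqS_mono hUV) (sqS_le U)) inf_le_right
  have hmm : m * m = 1 := by rw [← sq]; exact hm2
  obtain ⟨y0, hy0, hy0m⟩ := h90 m hmV (by rw [hms, hmm])
  have hy0s : s y0 = m * y0 := by
    have h1 : y0 = m * s y0 := by
      rw [eq_div_iff_mul_eq'] at hy0m
      exact hy0m.symm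
    have h2 : m * y0 = (m * m) * s y0 := by rw [mul_assoc, ← h1]
    rw [h2, hmm, one_mul]
  have hy0U : y0 ^ 2 ∈ U := by
    refine (hU _).mpr ⟨V.pow_mem hy0 2, ?_⟩
    rw [map_pow, hy0s, mul_pow, hm2, one_mul]
  have hsq : ∀ y ∈ V, y ^ 2 ∈ U → s y = y ∨ s y = m * y := by
    intro y hy hyU
    have h1 : s (y ^ 2) = y ^ 2 := ((hU _).mp hyU).2
    have h2 : (s y * y⁻¹) ^ 2 = 1 := by
      rw [mul_pow, ← map_pow, h1, inv_pow, mul_inv_cancel]
    rcases htor _ (V.mul_mem (hsV y hy) (V.inv_mem hy)) h2 with h | h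
    · left; exact mul_inv_eq_one.mp h
    · right; exact mul_inv_eq_iff_eq_mul.mp h
  have key : ∀ y ∈ V, (y ^ 2 ∈ sqS U ↔ s y = y) := by
    intro y hy
    constructor
    · intro h
      obtain ⟨z, hz, hzy⟩ := mem_sqS.mp h
      have hzs : s z = z := ((hU z).mp hz).2
      have h2 : (y * z⁻¹) ^ 2 = 1 := by rw [mul_pow, inv_pow, hzy, mul_inv_cancel]
      rcases htor _ (V.mul_mem hy (V.inv_mem (hUV hz))) h2 with h | h
      · rw [mul_inv_eq_one.mp h, hzs]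
      · rw [mul_inv_eq_iff_eq_mul.mp h, map_mul, hzs, hms]
    · intro h
      exact mem_sqS.mpr ⟨y, (hU y).mpr ⟨hy, h⟩, rfl⟩
  have hne : ∀ y : G, m * y ≠ y := fun y h => hm1 (by simpa using h)
  have e5 : (sqS U).relIndex (sqS V ⊓ U) = 2 := by
    rw [Subgroup.relIndex, Subgroup.index_eq_two_iff]
    refine ⟨⟨y0 ^ 2, mem_sqS.mpr ⟨y0, hy0, rfl⟩, hy0U⟩, ?_⟩
    rintro ⟨b, hbV, hbU⟩
    obtain ⟨y, hy, rfl⟩ := mem_sqS.mp hbV
    have h1 : (⟨y ^ 2, hbV, hbU⟩ : (sqS V ⊓ U : Subgroup G)) ∈ (sqS U).subgroupOf (sqS V ⊓ U) ↔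
        s y = y := key y hy
    have h2 : (⟨y ^ 2, hbV, hbU⟩ : (sqS V ⊓ U : Subgroup G)) *
        ⟨y0 ^ 2, mem_sqS.mpr ⟨y0, hy0, rfl⟩, hy0U⟩ ∈ (sqS U).subgroupOf (sqS V ⊓ U) ↔
        m * s y = y := by
      have h3 : y ^ 2 * y0 ^ 2 ∈ sqS U ↔ s (y * y0) = y * y0 := by
        rw [← mul_pow]; exact key _ (V.mul_mem hy hy0)
      have h4 : s (y * y0) = y * y0 ↔ m * s y = y := by
        rw [map_mul, hy0s, ← mul_assoc, mul_left_inj, mul_comm]
      exact h3.trans h4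
    rw [h1, h2]
    rcases hsq y hy hbU with h | h
    · right
      rw [h]
      exact ⟨rfl, hne y⟩
    · left
      rw [h, ← mul_assoc, hmm, one_mul]
      exact ⟨rfl, hne y⟩
  -- the norm map
  have e6 : (sqS U).relIndex N = (U ⊔ sqS V).relIndex V := by
    let ν : G →* G :=
      { toFun := fun x => x * s x
        map_one' := by simp
        map_mul' := fun x y => by rw [map_mul, mul_mul_mul_comm] }
    have hNm : N = V.map ν := by
      ext x
      rw [hN, Subgroup.mem_map]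
      constructor
      · rintro ⟨y, hy, rfl⟩; exact ⟨y, hy, rfl⟩
      · rintro ⟨y, hy, rfl⟩; exact ⟨y, hy, rfl⟩
    rw [hNm, ← Subgroup.relIndex_comap, ← Subgroup.inf_relIndex_right,
      ← Subgroup.inf_relIndex_right (U ⊔ sqS V)]
    congr 1
    apply le_antisymm
    · rintro x ⟨hx, hxV⟩
      obtain ⟨z, hz, hzx⟩ := mem_sqS.mp (show x * s x ∈ sqS U from hx)
      have hzs : s z = z := ((hU z).mp hz).2
      have h1 : (x * z⁻¹) * s (x * z⁻¹) = 1 := by
        rw [map_mul, map_inv, hzs, mul_mul_mul_comm, ← hzx, sq]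
        group
      obtain ⟨y, hy, hxy⟩ := h90 _ (V.mul_mem hxV (V.inv_mem (hUV hz))) h1
      refine ⟨?_, hxV⟩
      have h2 : x = (z * (y * s y)⁻¹) * y ^ 2 := by
        have h3 : x = (y / s y) * z := by rw [← hxy]; group
        rw [h3, mul_inv, sq, div_eq_mul_inv]
        calc y * (s y)⁻¹ * z = z * (y⁻¹ * y) * (s y)⁻¹ * y := by
              rw [inv_mul_cancel, mul_one]
              simp only [mul_comm, mul_left_comm]
          _ = _ := by simp only [mul_assoc, mul_left_comm, mul_comm]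
      rw [h2]
      apply Subgroup.mul_mem_sup
      · exact U.mul_mem hz (U.inv_mem (hNU ((hN _).mpr ⟨y, hy, rfl⟩)))
      · exact mem_sqS.mpr ⟨y, hy, rfl⟩
    · rintro x ⟨hx, hxV⟩
      refine ⟨?_, hxV⟩
      obtain ⟨u, hu, t, ht, rfl⟩ := Subgroup.mem_sup.mp hx
      obtain ⟨y, hy, rfl⟩ := mem_sqS.mp ht
      change u * y ^ 2 * s (u * y ^ 2) ∈ sqS U
      have hus : s u = u := ((hU u).mp hu).2
      refine mem_sqS.mpr ⟨u * (y * s y), U.mul_mem hu (hNU ((hN _).mpr ⟨y, hy, rfl⟩)), ?_⟩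
      rw [map_mul, hus, map_pow]
      simp only [mul_pow, sq, mul_assoc, mul_left_comm, mul_comm]
  rw [e5] at e4
  rw [e3, ← e6] at e2
  rw [← e2, sq]
  nth_rewrite 1 [← e4]
  rw [← e1]
  ring

end

end Pool.Agent.Lib.QCFT
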