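import Mathlib
import Pool.Agent.Lib.QCFT.Ord
import Pool.Agent.Lib.QCFT.GroupIdx

/-!
# Index of squares in the group of S-units of a number field
-/

set_option autoImplicit false

namespace Pool.Agent.Lib.QCFT

open IsDedekindDomain NumberField NumberField.Units

section

variable (K : Type*) [Field K] [NumberField K]

/-- coordinates with respect to a system of fundamental units -/
noncomputable def ucoord (x : (𝓞 K)ˣ) : Fin (Units.rank K) → ℤ :=
  (exist_unique_eq_mul_prod K x).choose.2

lemma ucoord_spec (x : (𝓞 K)ˣ) : ∃ t ∈ torsion K, x = t * ∏ i, (fundSystem K i) ^ (ucoord K x i) :=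
  ⟨(exist_unique_eq_mul_prod K x).choose.1, (exist_unique_eq_mul_prod K x).choose.1.2,
    (exist_unique_eq_mul_prod K x).choose_spec.1⟩

lemma ucoord_unique (x : (𝓞 K)ˣ) (t : (𝓞 K)ˣ) (ht : t ∈ torsion K)
    (n : Fin (Units.rank K) → ℤ) (h : x = t * ∏ i, (fundSystem K i) ^ (n i)) :
    ucoord K x = n := by
  have := (exist_unique_eq_mul_prod K x).choose_spec.2 (⟨t, ht⟩, n) h
  rw [ucoord, ← this]

lemma ucoord_mul (x y : (𝓞 K)ˣ) : ucoord K (x * y) = ucoord K x + ucoord K y := by
  obtain ⟨t, ht, hx⟩ := ucoord_spec K x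
  obtain ⟨t', ht', hy⟩ := ucoord_spec K y
  apply ucoord_unique K _ (t * t') ((torsion K).mul_mem ht ht')
  simp only [Pi.add_apply, zpow_add, Finset.prod_mul_distrib]
  rw [mul_mul_mul_comm, ← hx, ← hy]

lemma ucoord_torsion (t : (𝓞 K)ˣ) (ht : t ∈ torsion K) : ucoord K t = 0 := by
  apply ucoord_unique K _ t ht
  simp

/-- parity of the coordinates -/
noncomputable def parityHom : (𝓞 K)ˣ →* Multiplicative (Fin (Units.rank K) → ZMod 2) where
  toFun x := Multiplicative.ofAdd fun i => ((ucoord K x i : ℤ) : ZMod 2)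
  map_one' := by
    rw [ucoord_torsion K 1 (one_mem _)]
    simp
    rfl
  map_mul' x y := by
    rw [ucoord_mul, ← ofAdd_add]
    congr 1
    funext i
    simp

lemma parityHom_surjective : Function.Surjective (parityHom K) := by
  intro y
  let n : Fin (Units.rank K) → ℤ := fun i => ((Multiplicative.toAdd y i).val : ℤ)
  refine ⟨∏ i, (fundSystem K i) ^ (n i), ?_⟩
  apply Multiplicative.toAdd.injective
  funext i
  change ((ucoord K _ i : ℤ) : ZMod 2) = _
  rw [ucoord_unique K _ 1 (one_mem _) n (one_mul _).symm]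
  simp [n]

lemma parityHom_ker : (parityHom K).ker = sqS ⊤ ⊔ torsion K := by
  ext x
  rw [MonoidHom.mem_ker]
  constructor
  · intro hx
    have h1 : ∀ i, ∃ m : ℤ, ucoord K x i = 2 * m := by
      intro i
      have h2 : ((ucoord K x i : ℤ) : ZMod 2) = 0 := congrFun (congrArg Multiplicative.toAdd hx) i
      exact (ZMod.intCast_zmod_eq_zero_iff_dvd _ 2).mp h2
    choose m hm using h1
    obtain ⟨t, ht, hxt⟩ := ucoord_spec K x
    have h4 : x = (∏ i, (fundSystem K i) ^ (m i)) ^ 2 * t := by
      rw [← Finset.prod_pow, mul_comm]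
      nth_rewrite 1 [hxt]
      congr 1
      apply Finset.prod_congr rfl
      intro i _
      rw [hm i, mul_comm, zpow_mul, zpow_ofNat]
    rw [h4]
    exact Subgroup.mul_mem_sup (mem_sqS.mpr ⟨_, trivial, rfl⟩) ht
  · intro hx
    obtain ⟨s, hs, t, ht, rfl⟩ := Subgroup.mem_sup.mp hx
    obtain ⟨y, _, rfl⟩ := mem_sqS.mp hs
    apply Multiplicative.toAdd.injective
    funext i
    change ((ucoord K _ i : ℤ) : ZMod 2) = 0
    rw [sq, ucoord_mul, ucoord_mul, ucoord_torsion K t ht]
    simp only [Pi.add_apply, Pi.zero_apply, add_zero]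
    rw [← two_mul]
    push_cast
    have : (2 : ZMod 2) = 0 := rfl
    rw [this, zero_mul]

lemma sqI_torsion : sqI (torsion K) = 2 := by
  -- for a finite group the index of squares is the order of the 2-torsion
  have hfin : Finite (torsion K) := inferInstance
  let f : torsion K →* torsion K := powMonoidHom 2
  have h1 : sqI (torsion K) = f.range.index := by
    rw [sqI, Subgroup.relIndex]
    congr 1
    ext x
    rw [Subgroup.mem_subgroupOf, mem_sqS]
    constructor
    · rintro ⟨y, hy, hyx⟩
      exact ⟨⟨y, hy⟩, Subtype.ext hyx⟩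
    · rintro ⟨y, hy⟩
      exact ⟨y.1, y.2, congrArg Subtype.val hy⟩
  have h2 : f.range.index * Nat.card f.range = Nat.card (torsion K) := Subgroup.index_mul_card _
  have h3 : Nat.card f.ker * f.ker.index = Nat.card (torsion K) := Subgroup.card_mul_index _
  rw [Subgroup.index_ker] at h3
  have h4 : 0 < Nat.card f.range := Nat.card_pos
  have h5 : f.range.index = Nat.card f.ker := by
    rw [← h3] at h2
    exact Nat.eq_of_mul_eq_mul_right h4 h2
  rw [h1, h5]
  -- the kernel is {1, -1}
  have hm : (-1 : (𝓞 K)ˣ) ∈ torsion K := by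
    exact isOfFinOrder_iff_pow_eq_one.mpr ⟨2, by norm_num, by simp⟩
  have hne : (⟨-1, hm⟩ : torsion K) ≠ 1 := by
    intro h
    have h6 : (-1 : (𝓞 K)ˣ) = 1 := congrArg Subtype.val h
    have h7 : (-1 : 𝓞 K) = 1 := congrArg Units.val h6
    have h8 : (2 : 𝓞 K) = 0 := by linear_combination -h7
    exact two_ne_zero h8
  have hset : (f.ker : Set (torsion K)) = {1, ⟨-1, hm⟩} := by
    ext x
    simp only [SetLike.mem_coe, MonoidHom.mem_ker, Set.mem_insert_iff, Set.mem_singleton_iff]
    constructor
    · intro hx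
      have h6 : (x.1 : 𝓞 K) ^ 2 = 1 := by
        have h7 : x.1 ^ 2 = 1 := congrArg Subtype.val hx
        have h8 := congrArg Units.val h7
        simpa using h8
      have h10 : ((x.1 : 𝓞 K) - 1) * ((x.1 : 𝓞 K) + 1) = 0 := by linear_combination h6
      rcases mul_eq_zero.mp h10 with h | h
      · left; exact Subtype.ext (Units.ext (sub_eq_zero.mp h))
      · right; exact Subtype.ext (Units.ext (eq_neg_of_add_eq_zero_left h))
    · rintro (rfl | rfl)
      · simp
      · exact Subtype.ext (by simp [f])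
  have h9 : Nat.card f.ker = (f.ker : Set (torsion K)).ncard := rfl
  rw [h9, hset, Set.ncard_pair hne.symm]

/-- Index of squares in the unit group. -/
lemma sqI_units : sqI (⊤ : Subgroup (𝓞 K)ˣ) = 2 ^ (Units.rank K + 1) := by
  rw [sqI_eq_mul (K := torsion K) le_top, sqI_torsion]
  · rw [← parityHom_ker, Subgroup.relIndex_top_right, Subgroup.index_ker,
      MonoidHom.range_eq_top.mpr (parityHom_surjective K)]
    have h1 : Nat.card (⊤ : Subgroup (Multiplicative (Fin (Units.rank K) → ZMod 2))) =
        2 ^ Units.rank K := by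
      rw [Subgroup.card_top]
      have h2 : Nat.card (Multiplicative (Fin (Units.rank K) → ZMod 2)) =
          Nat.card (Fin (Units.rank K) → ZMod 2) := rfl
      rw [h2, Nat.card_fun]
      simp
    rw [h1, pow_succ, mul_comm]
  · intro y _ hy
    have h1 : IsOfFinOrder (y ^ 2) := hy
    exact (isOfFinOrder_pow.mp h1).resolve_right (by norm_num)

/-- Transport of the index of squares along an injective map. -/
lemma sqI_map {A B : Type*} [CommGroup A] [CommGroup B] (f : A →* B)
    (hf : Function.Injective f) (H : Subgroup A) : sqI (H.map f) = sqI H := by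
  have h1 : sqS (H.map f) = (sqS H).map f := by
    ext x
    rw [mem_sqS, Subgroup.mem_map]
    constructor
    · rintro ⟨y, hy, rfl⟩
      obtain ⟨z, hz, rfl⟩ := Subgroup.mem_map.mp hy
      exact ⟨z ^ 2, mem_sqS.mpr ⟨z, hz, rfl⟩, map_pow f z 2⟩
    · rintro ⟨z, hz, rfl⟩
      obtain ⟨w, hw, rfl⟩ := mem_sqS.mp hz
      exact ⟨f w, Subgroup.mem_map_of_mem f hw, (map_pow f w 2).symm⟩
  rw [sqI, h1, Subgroup.relIndex_map_map_of_injective _ _ hf]
  rfl

lemma SU_empty_eq : SU (∅ : Set (HeightOneSpectrum (𝓞 K))) K =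
    (⊤ : Subgroup (𝓞 K)ˣ).map (Units.map (algebraMap (𝓞 K) K).toMonoidHom) := by
  ext x
  rw [mem_SU_empty, ← MonoidHom.range_eq_map]

lemma sqI_SU_empty : sqI (SU (∅ : Set (HeightOneSpectrum (𝓞 K))) K) = 2 ^ (Units.rank K + 1) := by
  rw [SU_empty_eq, sqI_map, sqI_units]
  exact Units.map_injective (FaithfulSMul.algebraMap_injective (𝓞 K) K)

/-- Some power of a prime is principal. -/
lemma exists_pow_principal (v : HeightOneSpectrum (𝓞 K)) :
    ∃ x : Kˣ, o v x ≠ 0 ∧ ∀ v', v' ≠ v → o v' x = 0 := by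
  classical
  obtain ⟨h, hh, hpow⟩ : ∃ h : ℕ, 0 < h ∧ (v.asIdeal ^ h).IsPrincipal := by
    refine ⟨Fintype.card (ClassGroup (𝓞 K)), Fintype.card_pos, ?_⟩
    have h1 : v.asIdeal ≠ ⊥ := v.ne_bot
    have h2 : v.asIdeal ∈ nonZeroDivisors (Ideal (𝓞 K)) := mem_nonZeroDivisors_of_ne_zero h1
    have h3 := pow_card_eq_one (x := ClassGroup.mk0 (⟨v.asIdeal, h2⟩ : nonZeroDivisors (Ideal (𝓞 K))))
    rw [← map_pow, ClassGroup.mk0_eq_one_iff] at h3
    exact h3
  obtain ⟨a, ha⟩ := hpow
  have ha' : v.asIdeal ^ h = Ideal.span {a} := ha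
  have ha0 : a ≠ 0 := by
    rintro rfl
    rw [Ideal.span_singleton_eq_bot.mpr rfl] at ha'
    exact pow_ne_zero h v.ne_bot ha'
  have ha1 : algebraMap (𝓞 K) K a ≠ 0 := by
    rwa [ne_eq, FaithfulSMul.algebraMap_eq_zero_iff]
  refine ⟨Units.mk0 _ ha1, ?_, ?_⟩
  · rw [ne_eq, o_eq_zero_iff, Units.val_mk0, HeightOneSpectrum.valuation_of_algebraMap,
      HeightOneSpectrum.intValuation_eq_one_iff, not_not]
    have h4 : v.asIdeal ^ h ≤ v.asIdeal := Ideal.pow_le_self hh.ne'
    exact h4 (ha'.symm ▸ Ideal.mem_span_singleton_self a)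
  · intro v' hv'
    rw [o_eq_zero_iff, Units.val_mk0, HeightOneSpectrum.valuation_of_algebraMap,
      HeightOneSpectrum.intValuation_eq_one_iff]
    intro h5
    have h6 : v.asIdeal ^ h ≤ v'.asIdeal := by
      rw [ha', Ideal.span_singleton_le_iff_mem]
      exact h5
    have h7 : v.asIdeal ≤ v'.asIdeal := v'.isPrime.le_of_pow_le h6
    apply hv'
    apply HeightOneSpectrum.ext
    exact (v.isMaximal.eq_of_le v'.isPrime.ne_top h7).symm

/-- The index of squares in the group of `S`-units. -/
theorem sqI_SU (S : Finset (HeightOneSpectrum (𝓞 K))) :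
    sqI (SU (S : Set (HeightOneSpectrum (𝓞 K))) K) = 2 ^ (Units.rank K + 1 + S.card) := by
  classical
  induction S using Finset.induction_on with
  | empty => simpa using sqI_SU_empty K
  | insert v S hv ih =>
    rw [sqI_of_int (SU ((insert v S : Finset _) : Set (HeightOneSpectrum (𝓞 K))) K) (oHom v)]
    · have h1 : SU ((insert v S : Finset _) : Set (HeightOneSpectrum (𝓞 K))) K ⊓ (oHom v).ker =
          SU (S : Set (HeightOneSpectrum (𝓞 K))) K := by
        ext x
        constructor
        · rintro ⟨hx, hx2⟩ w hw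
          by_cases hwv : w = v
          · subst hwv
            have : Multiplicative.ofAdd (o w x) = 1 := hx2
            exact Multiplicative.ofAdd.injective this
          · exact hx w (by
              rw [Finset.coe_insert, Set.mem_insert_iff, not_or]
              exact ⟨hwv, hw⟩)
        · intro hx
          refine ⟨SU_mono (by rw [Finset.coe_insert]; exact Set.subset_insert _ _) hx, ?_⟩
          change Multiplicative.ofAdd (o v x) = 1
          rw [hx v (by simpa using hv)]
          rfl
      rw [h1, ih, Finset.card_insert_of_notMem hv]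
      ring
    · obtain ⟨x, hx1, hx2⟩ := exists_pow_principal K v
      refine ⟨x, fun w hw => hx2 w ?_, ?_⟩
      · rintro rfl
        exact hw (by simp)
      · intro h
        exact hx1 (Multiplicative.ofAdd.injective h)

end

end Pool.Agent.Lib.QCFT
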