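import Mathlib
import Pool.Agent.Lib.QCFT.Ext
import Pool.Agent.Lib.QCFT.SUnit

/-!
# Quadratic extensions: norm index of S-units
-/

set_option autoImplicit false
set_option linter.unusedSectionVars false

namespace Pool.Agent.Lib.QCFT

open IsDedekindDomain NumberField WithZero

section

lemma two_mul_rank_add_one (K : Type*) [Field K] [NumberField K] [IsTotallyComplex K] :
    2 * (Units.rank K + 1) = Module.finrank ℚ K := by
  rw [IsTotallyComplex.finrank, Units.rank, InfinitePlace.card_eq_nrRealPlaces_add_nrComplexPlaces,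
    IsTotallyComplex.nrRealPlaces_eq_zero, zero_add]
  have h1 : 0 < Module.finrank ℚ K := Module.finrank_pos
  rw [IsTotallyComplex.finrank] at h1
  omega

variable {k F : Type*} [Field k] [NumberField k] [Field F] [NumberField F] [Algebra k F]

/-- base change of units -/
noncomputable def bc (k F : Type*) [Field k] [Field F] [Algebra k F] : kˣ →* Fˣ :=
  Units.map (algebraMap k F).toMonoidHom

lemma coe_bc (x : kˣ) : ((bc k F x : Fˣ) : F) = algebraMap k F x := rfl

lemma bc_injective : Function.Injective (bc k F) :=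
  Units.map_injective (FaithfulSMul.algebraMap_injective k F)

lemma o_bc (w : HeightOneSpectrum (𝓞 F)) (x : kˣ) :
    o w (bc k F x) = ee k w * o (und k w) x := o_algebraMap w x

/-- the action of an automorphism on units -/
noncomputable def su (s : F ≃ₐ[k] F) : Fˣ →* Fˣ := Units.map (s : F →* F)

lemma coe_su (s : F ≃ₐ[k] F) (x : Fˣ) : ((su s x : Fˣ) : F) = s x := rfl

lemma su_bc (s : F ≃ₐ[k] F) (x : kˣ) : su s (bc k F x) = bc k F x := by
  ext
  rw [coe_su, coe_bc]
  exact s.commutes _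

lemma o_su (s : F ≃ₐ[k] F) (w : HeightOneSpectrum (𝓞 F)) (x : Fˣ) :
    o (sp s w) (su s x) = o w x := o_sp s w x

/-- norm on units -/
noncomputable def nu (k F : Type*) [Field k] [Field F] [Algebra k F] : Fˣ →* kˣ :=
  Units.map (Algebra.norm k)

lemma coe_nu (x : Fˣ) : ((nu k F x : kˣ) : k) = Algebra.norm k (x : F) := rfl

/-- nonsplit primes -/
def NSp (F : Type*) [Field F] [NumberField F] [Algebra k F] (v : HeightOneSpectrum (𝓞 k)) : Prop :=
  ∀ w w' : HeightOneSpectrum (𝓞 F), und k w = v → und k w' = v → w = w'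

variable [Algebra.IsQuadraticExtension k F]

lemma exists_fiber (v : HeightOneSpectrum (𝓞 k)) :
    ∃ s : Finset (HeightOneSpectrum (𝓞 F)), (∀ w, w ∈ s ↔ und k w = v) ∧
      (NSp F v → s.card = 1) ∧ (¬ NSp F v → s.card = 2 ∧ ∀ w ∈ s, ee k w = 1 ∧ ff k w = 1) := by
  classical
  obtain ⟨s, hs, hsum⟩ := sum_ee_ff (F := F) v
  rw [Algebra.IsQuadraticExtension.finrank_eq_two k F] at hsum
  obtain ⟨w0, hw0⟩ := exists_und_eq F v
  have hw0s : w0 ∈ s := (hs w0).mpr hw0
  refine ⟨s, hs, ?_, ?_⟩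
  · intro h
    rw [Finset.card_eq_one]
    refine ⟨w0, ?_⟩
    ext w
    rw [Finset.mem_singleton]
    exact ⟨fun hw => h w w0 ((hs w).mp hw) hw0, fun hw => hw ▸ hw0s⟩
  · intro h
    have hge : ∀ w ∈ s, 1 ≤ ee k w * ff k w := fun w _ => Nat.mul_pos (ee_pos w) (ff_pos w)
    have h1 : s.card ≤ 2 := by
      rw [← hsum, Finset.card_eq_sum_ones]
      exact Finset.sum_le_sum hge
    have h2 : 1 < s.card := by
      rw [Finset.one_lt_card]
      by_contra hcon
      push Not at hcon
      exact h fun w w' hw hw' => hcon w ((hs w).mpr hw) w' ((hs w').mpr hw')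
    have h3 : s.card = 2 := by omega
    refine ⟨h3, fun w hw => ?_⟩
    have h4 : ee k w * ff k w = 1 := by
      have h5 : ∑ w ∈ s, ee k w * ff k w = ∑ w ∈ s, 1 := by simp [hsum, h3]
      exact ((Finset.sum_eq_sum_iff_of_le hge).mp h5.symm w hw).symm
    exact ⟨Nat.eq_one_of_mul_eq_one_right h4, Nat.eq_one_of_mul_eq_one_left h4⟩

/-- primes above a finite set -/
lemma exists_above (S : Finset (HeightOneSpectrum (𝓞 k))) [DecidablePred (NSp (k := k) F)] :
    ∃ SF : Finset (HeightOneSpectrum (𝓞 F)), (∀ w, w ∈ SF ↔ und k w ∈ S) ∧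
      SF.card + (S.filter (NSp F)).card = 2 * S.card := by
  classical
  choose s hs h1 h2 using fun v => exists_fiber (F := F) (k := k) v
  refine ⟨S.biUnion s, fun w => ?_, ?_⟩
  · rw [Finset.mem_biUnion]
    constructor
    · rintro ⟨v, hv, hw⟩
      rw [(hs v w).mp hw]
      exact hv
    · intro h
      exact ⟨und k w, h, (hs _ w).mpr rfl⟩
  · rw [Finset.card_biUnion]
    · rw [Finset.card_filter, ← Finset.sum_add_distrib]
      rw [Finset.sum_congr rfl (g := fun _ => 2)]
      · simp [mul_comm]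
      · intro v _
        by_cases h : NSp F v
        · rw [h1 v h, if_pos h]
        · rw [(h2 v h).1, if_neg h]
    · intro v _ v' _ hne
      change Disjoint (s v) (s v')
      rw [Finset.disjoint_left]
      intro w hw hw'
      exact hne (((hs v w).mp hw).symm.trans ((hs v' w).mp hw'))

variable (σ : F ≃ₐ[k] F)

lemma aut_eq (hσ : σ ≠ 1) (s : F ≃ₐ[k] F) : s = 1 ∨ s = σ := by
  have h1 : Nat.card (F ≃ₐ[k] F) = 2 := by
    rw [IsGalois.card_aut_eq_finrank, Algebra.IsQuadraticExtension.finrank_eq_two k F]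
  by_contra hcon
  push Not at hcon
  have h2 : ({1, σ, s} : Set (F ≃ₐ[k] F)).ncard = 3 := by
    rw [Set.ncard_eq_three]
    exact ⟨1, σ, s, hσ.symm, hcon.1.symm, hcon.2.symm, rfl⟩
  have h3 : ({1, σ, s} : Set (F ≃ₐ[k] F)).ncard ≤ Nat.card (F ≃ₐ[k] F) := by
    rw [← Set.ncard_univ]
    exact Set.ncard_le_ncard (Set.subset_univ _) (Set.toFinite _)
  omega

lemma exists_aut (k F : Type*) [Field k] [NumberField k] [Field F] [NumberField F] [Algebra k F]
    [Algebra.IsQuadraticExtension k F] : ∃ σ : F ≃ₐ[k] F, σ ≠ 1 := by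
  have h1 : Nat.card (F ≃ₐ[k] F) = 2 := by
    rw [IsGalois.card_aut_eq_finrank, Algebra.IsQuadraticExtension.finrank_eq_two k F]
  by_contra hcon
  push Not at hcon
  have : Subsingleton (F ≃ₐ[k] F) := ⟨fun a b => by rw [hcon a, hcon b]⟩
  have h2 : Nat.card (F ≃ₐ[k] F) ≤ 1 := Finite.card_le_one_iff_subsingleton.mpr this
  omega

lemma sigma_sigma (hσ : σ ≠ 1) (x : F) : σ (σ x) = x := by
  have h : σ * σ = 1 := by
    rcases aut_eq σ hσ (σ * σ) with h | h
    · exact h
    · exact absurd (by simpa using h) hσ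
  have := DFunLike.congr_fun h x
  simpa using this

lemma sigma_fixed (hσ : σ ≠ 1) (x : F) (hx : σ x = x) : ∃ a : k, algebraMap k F a = x := by
  rw [← Set.mem_range, IsGalois.mem_range_algebraMap_iff_fixed]
  intro s
  rcases aut_eq σ hσ s with rfl | rfl
  · rfl
  · exact hx

lemma norm_eq (hσ : σ ≠ 1) (x : F) : algebraMap k F (Algebra.norm k x) = x * σ x := by
  classical
  rw [Algebra.norm_eq_prod_automorphisms]
  have h1 : (Finset.univ : Finset (F ≃ₐ[k] F)) = {1, σ} := by
    ext s
    simp only [Finset.mem_univ, Finset.mem_insert, Finset.mem_singleton, true_iff]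
    exact aut_eq σ hσ s
  rw [h1, Finset.prod_pair hσ.symm]
  rfl

lemma bc_nu (hσ : σ ≠ 1) (x : Fˣ) : bc k F (nu k F x) = x * su σ x := by
  ext
  rw [coe_bc, coe_nu, norm_eq σ hσ]
  rfl

lemma su_su (hσ : σ ≠ 1) (x : Fˣ) : su σ (su σ x) = x := by
  ext
  rw [coe_su, coe_su, sigma_sigma σ hσ]

lemma su_fixed (hσ : σ ≠ 1) (x : Fˣ) (hx : su σ x = x) : ∃ a : kˣ, bc k F a = x := by
  obtain ⟨a, ha⟩ := sigma_fixed σ hσ (x : F) (congrArg Units.val hx)
  have ha0 : a ≠ 0 := by
    rintro rfl
    rw [map_zero] at ha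
    exact x.ne_zero ha.symm
  exact ⟨Units.mk0 a ha0, Units.ext ha⟩

lemma sp_sp_self (hσ : σ ≠ 1) (w : HeightOneSpectrum (𝓞 F)) : sp σ (sp σ w) = w := by
  have h : σ * σ = 1 := by
    ext x
    exact sigma_sigma σ hσ x
  rw [sp_sp, h, sp_one]

lemma o_su' (hσ : σ ≠ 1) (w : HeightOneSpectrum (𝓞 F)) (x : Fˣ) :
    o w (su σ x) = o (sp σ w) x := by
  rw [← o_su σ (sp σ w), sp_sp_self σ hσ]

/-- two primes above the same prime are equal or conjugate -/
lemma eq_or_sp (hσ : σ ≠ 1) {w w' : HeightOneSpectrum (𝓞 F)} (h : und k w = und k w') :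
    w' = w ∨ w' = sp σ w := by
  obtain ⟨s, hs⟩ := exists_sp_eq h
  rcases aut_eq σ hσ s with rfl | rfl
  · left; rw [← hs, sp_one]
  · right; exact hs.symm

lemma NSp_iff (hσ : σ ≠ 1) {w : HeightOneSpectrum (𝓞 F)} : NSp F (und k w) ↔ sp σ w = w := by
  constructor
  · intro h
    exact h _ _ (und_sp σ w) rfl
  · intro h w1 w2 h1 h2
    have h3 : w1 = w := by
      rcases eq_or_sp σ hσ h1.symm with h' | h'
      · exact h'
      · exact h'.trans h
    have h4 : w2 = w := by
      rcases eq_or_sp σ hσ h2.symm with h' | h'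
      · exact h'
      · exact h'.trans h
    rw [h3, h4]

/-- Hilbert 90 for units -/
lemma h90 (hσ : σ ≠ 1) (x : Fˣ) (hx : x * su σ x = 1) : ∃ y : Fˣ, x = y / su σ y := by
  have hx' : (x : F) * σ x = 1 := congrArg Units.val hx
  by_cases h : (1 : F) + x = 0
  · obtain ⟨z, hz⟩ : ∃ z : F, σ z ≠ z := by
      by_contra hcon
      push Not at hcon
      exact hσ (AlgEquiv.ext hcon)
    have h0 : z - σ z ≠ 0 := fun h' => hz (sub_eq_zero.mp h').symm
    refine ⟨Units.mk0 _ h0, ?_⟩
    rw [eq_div_iff_mul_eq']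
    ext
    rw [Units.val_mul, coe_su, Units.val_mk0, map_sub, sigma_sigma σ hσ]
    have : (x : F) = -1 := by linear_combination h
    rw [this]; ring
  · refine ⟨Units.mk0 _ h, ?_⟩
    rw [eq_div_iff_mul_eq']
    ext
    rw [Units.val_mul, coe_su, Units.val_mk0, map_add, map_one]
    linear_combination hx'

/-- The norm index of `S`-units of a quadratic extension of a totally complex field. -/
theorem relIndex_norm [IsTotallyComplex k] (S : Finset (HeightOneSpectrum (𝓞 k)))
    [DecidablePred (NSp (k := k) F)]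
    (hram : ∀ w : HeightOneSpectrum (𝓞 F), und k w ∉ S → ee k w = 1)
    (hcl : ClTriv (S : Set (HeightOneSpectrum (𝓞 k))) k) :
    ((SU {w : HeightOneSpectrum (𝓞 F) | und k w ∈ S} F).map (nu k F)).relIndex
      (SU (S : Set (HeightOneSpectrum (𝓞 k))) k) * 2 = 2 ^ (S.filter (NSp F)).card := by
  classical
  obtain ⟨σ, hσ⟩ := exists_aut k F
  obtain ⟨SF, hSF, hcard⟩ := exists_above (F := F) S
  have hSF' : {w : HeightOneSpectrum (𝓞 F) | und k w ∈ S} = (SF : Set (HeightOneSpectrum (𝓞 F))) := by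
    ext w
    rw [Set.mem_ofPred_eq, Finset.mem_coe, hSF]
  rw [hSF']
  set V : Subgroup Fˣ := SU (SF : Set (HeightOneSpectrum (𝓞 F))) F with hV
  set U0 : Subgroup kˣ := SU (S : Set (HeightOneSpectrum (𝓞 k))) k with hU0
  have hmV : ∀ x, x ∈ V ↔ ∀ w : HeightOneSpectrum (𝓞 F), und k w ∉ S → o w x = 0 := by
    intro x
    rw [hV, mem_SU]
    constructor
    · intro h w hw
      exact h w (by rw [Finset.mem_coe, hSF]; exact hw)
    · intro h w hw
      exact h w (by rw [Finset.mem_coe, hSF] at hw; exact hw)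
  have hsV : ∀ x ∈ V, su σ x ∈ V := by
    intro x hx
    rw [hmV] at hx ⊢
    intro w hw
    rw [o_su' σ hσ]
    exact hx _ (by rw [und_sp]; exact hw)
  have hne1 : (-1 : Fˣ) ≠ 1 := by
    intro h
    have h' : (-1 : F) = 1 := congrArg Units.val h
    have : (2 : F) = 0 := by linear_combination -h'
    exact two_ne_zero this
  have hneg : su σ (-1) = -1 := by ext; simp [coe_su]
  have hU : ∀ x, x ∈ U0.map (bc k F) ↔ x ∈ V ∧ su σ x = x := by
    intro x
    constructor
    · rintro ⟨a, ha, rfl⟩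
      refine ⟨?_, su_bc σ a⟩
      rw [hmV]
      intro w hw
      rw [o_bc, ha _ (by simpa using hw), mul_zero]
    · rintro ⟨hx, hfix⟩
      obtain ⟨a, rfl⟩ := su_fixed σ hσ x hfix
      refine ⟨a, ?_, rfl⟩
      intro v hv
      obtain ⟨w, hw⟩ := exists_und_eq F v
      have h1 := (hmV _).mp hx w (by rw [hw]; simpa using hv)
      rw [o_bc, hw] at h1
      rcases mul_eq_zero.mp h1 with h | h
      · have := ee_pos (k := k) w
        omega
      · exact h
  have h90' : ∀ x ∈ V, x * su σ x = 1 → ∃ y ∈ V, x = y / su σ y := by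
    intro x hx hx1
    obtain ⟨y, hy⟩ := h90 σ hσ x hx1
    -- adjust `y` by an element of `k`
    choose w hw using fun v : HeightOneSpectrum (𝓞 k) => exists_und_eq F v
    have hinv : ∀ w' : HeightOneSpectrum (𝓞 F), und k w' ∉ S → o w' y = o (w (und k w')) y := by
      intro w' hw'
      rcases eq_or_sp σ hσ (hw (und k w')) with h | h
      · rw [← h]
      · have h1 := (hmV x).mp hx (w (und k w')) (by rw [hw]; exact hw')
        rw [hy, o_div, o_su' σ hσ, ← h] at h1
        omega
    obtain ⟨c, hc⟩ := hcl.exists_of_finite (fun v => o (w v) y) (by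
      refine ((finite_o_ne y).image (und k : HeightOneSpectrum (𝓞 F) → HeightOneSpectrum (𝓞 k))).subset ?_
      rintro v ⟨_, hv⟩
      exact ⟨w v, hv, hw v⟩)
    refine ⟨y / bc k F c, ?_, ?_⟩
    · rw [hmV]
      intro w' hw'
      rw [o_div, o_bc, hram w' hw', hc _ (by simpa using hw'), hinv w' hw']
      push_cast
      ring
    · rw [map_div, su_bc, hy]
      rw [div_div_div_cancel_right]
  have hnegV : (-1 : Fˣ) ∈ V := by
    rw [hmV]
    intro w _
    have : o w (-(1 : Fˣ)) = o w (1 : Fˣ) := o_neg w 1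
    rw [this, o_one]
  have key := herbrand V (su σ) (fun x _ => su_su σ hσ x) hsV (-1) hnegV hne1 (by simp) hneg h90' (by
      intro y _ hy
      have h1 : ((y : F) - 1) * ((y : F) + 1) = 0 := by
        have h2 : (y : F) ^ 2 = 1 := congrArg Units.val hy
        linear_combination h2
      rcases mul_eq_zero.mp h1 with h | h
      · left; exact Units.ext (sub_eq_zero.mp h)
      · right; exact Units.ext (eq_neg_of_add_eq_zero_left h))
    (U0.map (bc k F)) hU ((V.map (nu k F)).map (bc k F)) (by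
      intro x
      constructor
      · rintro ⟨_, ⟨y, hy, rfl⟩, rfl⟩
        exact ⟨y, hy, bc_nu σ hσ y⟩
      · rintro ⟨y, hy, rfl⟩
        exact ⟨_, ⟨y, hy, rfl⟩, bc_nu σ hσ y⟩)
  rw [Subgroup.relIndex_map_map_of_injective _ _ bc_injective, sqI_map _ bc_injective, hV, hU0,
    sqI_SU, sqI_SU] at key
  have : IsTotallyComplex F := isTotallyComplex_of_algebra k F
  have hk := two_mul_rank_add_one k
  have hF := two_mul_rank_add_one F
  have hkF : Module.finrank ℚ F = Module.finrank ℚ k * 2 := by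
    rw [← Algebra.IsQuadraticExtension.finrank_eq_two k F, Module.finrank_mul_finrank]
  have hr : Units.rank F + 1 = 2 * (Units.rank k + 1) := by omega
  have h1 : (2 ^ (Units.rank k + 1 + S.card)) ^ 2 =
      2 ^ (S.filter (NSp F)).card * 2 ^ (Units.rank F + 1 + SF.card) := by
    rw [← pow_mul, ← pow_add]
    congr 1
    omega
  rw [h1, ← mul_assoc] at key
  exact Nat.eq_of_mul_eq_mul_right (by positivity) key

end

end Pool.Agent.Lib.QCFT
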