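import Mathlib
import Pool.Agent.Lib.QCFT.EulerSum
import Pool.Agent.Lib.QCFT.Quad

/-!
# Infinitely many nonsplit primes in a quadratic extension
-/

set_option autoImplicit false
set_option linter.unusedSectionVars false

namespace Pool.Agent.Lib.QCFT

open scoped ENNReal Topology
open IsDedekindDomain NumberField Filter

section

variable (K : Type*) [Field K] [NumberField K]

/-- `m ↦ m ^ (-s)` -/
noncomputable def phi (s : ℝ) : ℕ →* ℝ≥0∞ where
  toFun m := ENNReal.ofReal ((m : ℝ) ^ (-s))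
  map_one' := by simp
  map_mul' a b := by
    rw [Nat.cast_mul, Real.mul_rpow (Nat.cast_nonneg a) (Nat.cast_nonneg b),
      ENNReal.ofReal_mul (Real.rpow_nonneg (Nat.cast_nonneg a) _)]

lemma phi_apply (s : ℝ) (m : ℕ) : phi s m = ENNReal.ofReal ((m : ℝ) ^ (-s)) := rfl

/-- local weights -/
noncomputable def qv (s : ℝ) (v : HeightOneSpectrum (𝓞 K)) : ℝ≥0∞ :=
  phi s (Ideal.absNorm v.asIdeal)

lemma absNorm_ge_two (v : HeightOneSpectrum (𝓞 K)) : 2 ≤ Ideal.absNorm v.asIdeal := by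
  have h0 : Ideal.absNorm v.asIdeal ≠ 0 := by
    rw [ne_eq, Ideal.absNorm_eq_zero_iff]
    exact v.ne_bot
  have h1 : Ideal.absNorm v.asIdeal ≠ 1 := by
    rw [ne_eq, Ideal.absNorm_eq_one_iff]
    exact v.isPrime.ne_top
  omega

lemma qv_le (s : ℝ) (hs : 1 ≤ s) (v : HeightOneSpectrum (𝓞 K)) : qv K s v ≤ 2⁻¹ := by
  have h := absNorm_ge_two K v
  have h2 : (2 : ℝ) ≤ (Ideal.absNorm v.asIdeal : ℝ) := by exact_mod_cast h
  rw [qv, phi_apply]
  have h3 : ((Ideal.absNorm v.asIdeal : ℕ) : ℝ) ^ (-s) ≤ (2 : ℝ)⁻¹ := by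
    rw [Real.rpow_neg (by linarith)]
    apply inv_anti₀ (by norm_num)
    calc (2 : ℝ) ≤ (Ideal.absNorm v.asIdeal : ℝ) := h2
      _ = (Ideal.absNorm v.asIdeal : ℝ) ^ (1 : ℝ) := (Real.rpow_one _).symm
      _ ≤ _ := Real.rpow_le_rpow_of_exponent_le (by linarith) hs
  calc ENNReal.ofReal (((Ideal.absNorm v.asIdeal : ℕ) : ℝ) ^ (-s))
      ≤ ENNReal.ofReal ((2 : ℝ)⁻¹) := ENNReal.ofReal_le_ofReal h3
    _ = 2⁻¹ := by
      rw [ENNReal.ofReal_inv_of_pos (by norm_num)]
      norm_num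

/-- the partial zeta value as a sum over exponent vectors -/
noncomputable def ZE (s : ℝ) : ℝ≥0∞ := ES (qv K s)

/-- number of ideals of given norm -/
noncomputable def aN (n : ℕ) : ℕ := Nat.card {I : Ideal (𝓞 K) // Ideal.absNorm I = n}

/-- real coefficients of the zeta function -/
noncomputable def gN (s : ℝ) (n : ℕ) : ℝ := if n = 0 then 0 else (aN K n : ℝ) * (n : ℝ) ^ (-s)

lemma gN_nonneg (s : ℝ) (n : ℕ) : 0 ≤ gN K s n := by
  unfold gN
  split_ifs
  · exact le_rfl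
  · positivity

lemma ZE_eq (s : ℝ) : ZE K s = ∑' n : ℕ, ENNReal.ofReal (gN K s n) := by
  have h1 : ZE K s = ∑' n : HeightOneSpectrum (𝓞 K) →₀ ℕ, phi s (Ideal.absNorm (Gid K n)) := by
    unfold ZE ES
    apply tsum_congr
    intro n
    rw [Gid, map_finsuppProd, map_finsuppProd]
    simp only [map_pow]
    rfl
  rw [h1]
  rw [← (Equiv.sigmaFiberEquiv (fun n : HeightOneSpectrum (𝓞 K) →₀ ℕ =>
    Ideal.absNorm (Gid K n))).tsum_eq, ENNReal.tsum_sigma']
  apply tsum_congr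
  intro m
  have h2 : ∀ b : {n : HeightOneSpectrum (𝓞 K) →₀ ℕ // Ideal.absNorm (Gid K n) = m},
      phi s (Ideal.absNorm (Gid K ((Equiv.sigmaFiberEquiv (fun n : HeightOneSpectrum (𝓞 K) →₀ ℕ =>
    Ideal.absNorm (Gid K n))) ⟨m, b⟩))) = phi s m := by
    intro b
    congr 1
    exact b.2
  rw [tsum_congr h2, ENNReal.tsum_const]
  by_cases hm : m = 0
  · subst hm
    have : IsEmpty {n : HeightOneSpectrum (𝓞 K) →₀ ℕ // Ideal.absNorm (Gid K n) = 0} := by
      refine ⟨fun ⟨n, hn⟩ => ?_⟩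
      rw [Ideal.absNorm_eq_zero_iff] at hn
      exact Gid_ne_zero K n hn
    rw [gN, if_pos rfl]
    have h0 : ENat.card {n : HeightOneSpectrum (𝓞 K) →₀ ℕ // Ideal.absNorm (Gid K n) = 0} = 0 := by
      have hf : Finite {n : HeightOneSpectrum (𝓞 K) →₀ ℕ // Ideal.absNorm (Gid K n) = 0} :=
        Finite.of_subsingleton
      rw [ENat.card_eq_coe_natCard, Nat.card_of_isEmpty]
      rfl
    rw [h0]
    simp
  · rw [gN, if_neg hm, ENNReal.ofReal_mul (Nat.cast_nonneg _), phi_apply]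
    congr 1
    let e : {n : HeightOneSpectrum (𝓞 K) →₀ ℕ // Ideal.absNorm (Gid K n) = m} ≃
        {I : Ideal (𝓞 K) // Ideal.absNorm I = m} :=
      Equiv.ofBijective (fun n => ⟨Gid K n.1, n.2⟩) (by
        constructor
        · intro a b h
          exact Subtype.ext (Gid_injective K (congrArg Subtype.val h))
        · rintro ⟨I, hI⟩
          have hI0 : I ≠ 0 := by
            rintro rfl
            apply hm
            rw [← hI]
            simp
          obtain ⟨n, hn⟩ := Gid_surjective K I hI0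
          exact ⟨⟨n, by rw [hn]; exact hI⟩, Subtype.ext hn⟩)
    have hfin : Finite {I : Ideal (𝓞 K) // Ideal.absNorm I = m} :=
      Ideal.finite_setOfPred_absNorm_eq m
    rw [ENat.card_congr e, ENat.card_eq_coe_natCard]
    simp [aN]

/-- the zeta function at a real argument -/
noncomputable def zR (s : ℝ) : ℝ := ∑' n, gN K s n

lemma zeta_eq (s : ℝ) : dedekindZeta K (s : ℂ) = ((zR K s : ℝ) : ℂ) := by
  rw [dedekindZeta, LSeries, zR, Complex.ofReal_tsum]
  apply tsum_congr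
  intro n
  rw [LSeries.term_def, gN]
  split_ifs with h
  · simp
  · rw [div_eq_mul_inv, ← Complex.cpow_neg]
    push_cast
    rw [Complex.ofReal_cpow (Nat.cast_nonneg n)]
    simp [aN]

lemma ZE_eq_ofReal (s : ℝ) (h : zR K s ≠ 0) : ZE K s = ENNReal.ofReal (zR K s) := by
  have hs : Summable (gN K s) := by
    by_contra hcon
    exact h (tsum_eq_zero_of_not_summable hcon)
  rw [ZE_eq, zR, ENNReal.ofReal_tsum_of_nonneg (gN_nonneg K s) hs]

lemma tendsto_zR : Tendsto (fun s : ℝ => (s - 1) * zR K s) (𝓝[>] 1)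
    (𝓝 (dedekindZeta_residue K)) := by
  have h := tendsto_sub_one_mul_dedekindZeta_nhdsGT K
  have h2 : Tendsto (fun s : ℝ => ((s : ℂ) - 1) * dedekindZeta K s) (𝓝[>] 1)
    (𝓝 ((dedekindZeta_residue K : ℝ) : ℂ)) := h
  have h3 := (Complex.continuous_re.tendsto _).comp h2
  refine h3.congr ?_
  intro s
  simp only [Function.comp_apply]
  rw [zeta_eq]
  have : ((s : ℂ) - 1) * ((zR K s : ℝ) : ℂ) = (((s - 1) * zR K s : ℝ) : ℂ) := by push_cast; ring
  rw [this, Complex.ofReal_re]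

end

section

variable (M F : Type*) [Field M] [NumberField M] [Field F] [NumberField F] [Algebra M F]
  [Algebra.IsQuadraticExtension M F]

lemma absNorm_eq_of_ff {w : HeightOneSpectrum (𝓞 F)} (h : ff M w = 1) :
    Ideal.absNorm w.asIdeal = Ideal.absNorm (und M w).asIdeal := by
  have h1 := Ideal.absNorm_eq_pow_inertiaDeg'_of_liesOver w.asIdeal (und M w).asIdeal
    (und M w).isPrime (und M w).ne_bot
  have h2 : (und M w).asIdeal.inertiaDeg' w.asIdeal = ff M w := by
    rw [Ideal.inertiaDeg'_eq_inertiaDeg]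
    rfl
  rw [h1, h2, h, pow_one]

/-- In a quadratic extension infinitely many primes do not split. -/
theorem infinite_NSp : {v : HeightOneSpectrum (𝓞 M) | NSp F v}.Infinite := by
  classical
  intro hfin
  set S : Set (HeightOneSpectrum (𝓞 M)) := {v | NSp F v} with hS
  have hSfin : Finite S := hfin
  obtain ⟨C, hC, hCS⟩ := ES_finite_ne_top S
  -- the two primes above a split prime
  have hsplit : ∀ v : (Sᶜ : Set (HeightOneSpectrum (𝓞 M))), ∃ w w' : HeightOneSpectrum (𝓞 F),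
      w ≠ w' ∧ und M w = v ∧ und M w' = v ∧ ff M w = 1 ∧ ff M w' = 1 := by
    intro v
    obtain ⟨s, hs, _, h2⟩ := exists_fiber (F := F) v.1
    obtain ⟨hcard, hef⟩ := h2 v.2
    obtain ⟨w, w', hne, hww⟩ := Finset.card_eq_two.mp hcard
    have hw : w ∈ s := by rw [hww]; simp
    have hw' : w' ∈ s := by rw [hww]; simp
    exact ⟨w, w', hne, (hs w).mp hw, (hs w').mp hw', (hef w hw).2, (hef w' hw').2⟩
  choose Φ Φ' hne hΦ hΦ' hff hff' using hsplit
  let f : (Sᶜ : Set (HeightOneSpectrum (𝓞 M))) ⊕ (Sᶜ : Set (HeightOneSpectrum (𝓞 M))) →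
    HeightOneSpectrum (𝓞 F) := Sum.elim Φ Φ'
  have hf : Function.Injective f := by
    rintro (a | a) (b | b) h
    · have h' : Φ a = Φ b := h
      congr 1
      apply Subtype.ext
      rw [← hΦ a, ← hΦ b, h']
    · have h' : Φ a = Φ' b := h
      have hab : a = b := by
        apply Subtype.ext
        rw [← hΦ a, ← hΦ' b, h']
      subst hab
      exact absurd h' (hne a)
    · have h' : Φ' a = Φ b := h
      have hab : a = b := by
        apply Subtype.ext
        rw [← hΦ' a, ← hΦ b, h']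
      subst hab
      exact absurd h'.symm (hne a)
    · have h' : Φ' a = Φ' b := h
      congr 1
      apply Subtype.ext
      rw [← hΦ' a, ← hΦ' b, h']
  have key : ∀ s : ℝ, 1 ≤ s → ZE M s ^ 2 ≤ C ^ 2 * ZE F s := by
    intro s hs
    have h1 : ZE M s = ES ((qv M s) ∘ (Equiv.Set.sumCompl S)) := by
      rw [ES_equiv]; rfl
    rw [ES_sum] at h1
    have h2 : ES ((qv M s ∘ (Equiv.Set.sumCompl S)) ∘ Sum.inl) ≤ C := hCS _ fun i => qv_le M s hs _
    set E := ES ((qv M s ∘ (Equiv.Set.sumCompl S)) ∘ Sum.inr) with hE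
    have h3 : ES (qv F s ∘ f) ≤ ZE F s := ES_comp_le f hf _
    have h4 : (qv F s ∘ f) ∘ Sum.inl = (qv M s ∘ (Equiv.Set.sumCompl S)) ∘ Sum.inr := by
      funext v
      change qv F s (Φ v) = qv M s v
      rw [qv, qv, absNorm_eq_of_ff M F (hff v), hΦ v]
    have h5 : (qv F s ∘ f) ∘ Sum.inr = (qv M s ∘ (Equiv.Set.sumCompl S)) ∘ Sum.inr := by
      funext v
      change qv F s (Φ' v) = qv M s v
      rw [qv, qv, absNorm_eq_of_ff M F (hff' v), hΦ' v]
    rw [ES_sum, h4, h5, ← hE] at h3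
    rw [h1]
    calc (ES ((qv M s ∘ (Equiv.Set.sumCompl S)) ∘ Sum.inl) * E) ^ 2 ≤ (C * E) ^ 2 := by
          gcongr
      _ = C ^ 2 * (E * E) := by ring
      _ ≤ _ := by gcongr
  -- pass to the limit
  have hM := tendsto_zR M
  have hF := tendsto_zR F
  have hrM := dedekindZeta_residue_pos M
  have hrF := dedekindZeta_residue_pos F
  have hlim1 : Tendsto (fun s : ℝ => ((s - 1) * zR M s) ^ 2) (𝓝[>] 1)
      (𝓝 (dedekindZeta_residue M ^ 2)) := hM.pow 2
  have hs1 : Tendsto (fun s : ℝ => s - 1) (𝓝[>] 1) (𝓝 0) := by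
    have : Tendsto (fun s : ℝ => s - 1) (𝓝 1) (𝓝 (1 - 1)) :=
      (continuous_id.sub continuous_const).tendsto 1
    rw [sub_self] at this
    exact this.mono_left nhdsWithin_le_nhds
  have hlim2 : Tendsto (fun s : ℝ => C.toReal ^ 2 * ((s - 1) * ((s - 1) * zR F s))) (𝓝[>] 1)
      (𝓝 (C.toReal ^ 2 * (0 * dedekindZeta_residue F))) :=
    (hs1.mul hF).const_mul _
  rw [zero_mul, mul_zero] at hlim2
  have hev : ∀ᶠ s : ℝ in 𝓝[>] 1, ((s - 1) * zR M s) ^ 2 ≤
      C.toReal ^ 2 * ((s - 1) * ((s - 1) * zR F s)) := by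
    have e1 := hM.eventually (lt_mem_nhds hrM)
    have e2 := hF.eventually (lt_mem_nhds hrF)
    filter_upwards [e1, e2, self_mem_nhdsWithin] with s h1 h2 h3
    have h3' : (1 : ℝ) < s := h3
    have hs0 : 0 < s - 1 := by linarith
    have hzM : 0 < zR M s := (pos_iff_pos_of_mul_pos h1).mp hs0
    have hzF : 0 < zR F s := (pos_iff_pos_of_mul_pos h2).mp hs0
    have h4 := key s h3'.le
    rw [ZE_eq_ofReal M s hzM.ne', ZE_eq_ofReal F s hzF.ne'] at h4
    have h5 := ENNReal.toReal_mono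
      (ENNReal.mul_ne_top (ENNReal.pow_ne_top hC) ENNReal.ofReal_ne_top) h4
    rw [ENNReal.toReal_pow, ENNReal.toReal_mul, ENNReal.toReal_pow,
      ENNReal.toReal_ofReal hzM.le, ENNReal.toReal_ofReal hzF.le] at h5
    calc ((s - 1) * zR M s) ^ 2 = (s - 1) ^ 2 * zR M s ^ 2 := by ring
      _ ≤ (s - 1) ^ 2 * (C.toReal ^ 2 * zR F s) := by gcongr
      _ = _ := by ring
  have hle := le_of_tendsto_of_tendsto hlim1 hlim2 hev
  have : 0 < dedekindZeta_residue M ^ 2 := by positivity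
  linarith

end

end Pool.Agent.Lib.QCFT
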