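import Mathlib
import Pool.Agent.Lib.QCFT.GroupIdx

/-!
# Counting lemmas for subgroups of commutative groups
-/

set_option autoImplicit false

namespace Pool.Agent.Lib.QCFT

section

variable {G : Type*} [CommGroup G]

lemma relIndex_le_card {T : Type*} [Finite T] (H G' : Subgroup G) (f : G → T)
    (hf : ∀ x ∈ G', ∀ y ∈ G', f x = f y → x / y ∈ H) :
    H.relIndex G' ≠ 0 ∧ H.relIndex G' ≤ Nat.card T := by
  let g : (G' ⧸ H.subgroupOf G') → T := fun c => f (c.out : G)
  have hg : Function.Injective g := by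
    intro c c' h
    have h1 := hf _ c'.out.2 _ c.out.2 h.symm
    rw [← QuotientGroup.out_eq' c, ← QuotientGroup.out_eq' c', QuotientGroup.eq,
      Subgroup.mem_subgroupOf]
    have h2 : ((c.out⁻¹ * c'.out : G') : G) = (c'.out : G) / (c.out : G) := by
      rw [div_eq_mul_inv, mul_comm]
      rfl
    have h3 : ((c.out⁻¹ * c'.out : G') : G) ∈ H := by rw [h2]; exact h1
    exact h3
  have hfin : Finite (G' ⧸ H.subgroupOf G') := Finite.of_injective g hg
  constructor
  · exact (Nat.card_pos (α := G' ⧸ H.subgroupOf G')).ne'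
  · exact Nat.card_le_card_of_injective g hg

/-- independence of characters -/
lemma two_pow_le_relIndex {ι : Type*} [Finite ι] (K : ι → Subgroup G) (N U : Subgroup G)
    (hN : ∀ i, N ≤ K i) (x : ι → G) (hxU : ∀ i, x i ∈ U) (hxi : ∀ i, x i ∉ K i)
    (hxj : ∀ i j, j ≠ i → x i ∈ K j) (h0 : N.relIndex U ≠ 0) :
    2 ^ Nat.card ι ≤ N.relIndex U := by
  classical
  have := Fintype.ofFinite ι
  let y : Finset ι → G := fun J => ∏ i ∈ J, x i
  have hyU : ∀ J, y J ∈ U := fun J => U.prod_mem fun i _ => hxU i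
  let g : Finset ι → (U ⧸ N.subgroupOf U) := fun J => QuotientGroup.mk ⟨y J, hyU J⟩
  have hmem : ∀ (J : Finset ι) (i : ι), y J ∈ K i ↔ i ∉ J := by
    intro J i
    by_cases hi : i ∈ J
    · have h1 : y J = x i * ∏ j ∈ J.erase i, x j := (Finset.mul_prod_erase J x hi).symm
      have h2 : ∏ j ∈ J.erase i, x j ∈ K i :=
        (K i).prod_mem fun j hj => hxj j i (Finset.ne_of_mem_erase hj).symm
      rw [h1, Subgroup.mul_mem_cancel_right _ h2]
      exact ⟨fun h => absurd h (hxi i), fun h => absurd hi h⟩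
    · refine ⟨fun _ => hi, fun _ => (K i).prod_mem fun j hj => hxj j i ?_⟩
      rintro rfl
      exact hi hj
  have hg : Function.Injective g := by
    intro J J' h
    have h1 : (y J)⁻¹ * y J' ∈ N := by
      have := QuotientGroup.eq.mp h
      exact this
    ext i
    have h2 := hN i h1
    have h3 : y J ∈ K i ↔ y J' ∈ K i := by
      constructor
      · intro h4
        have := (K i).mul_mem h4 h2
        rwa [mul_inv_cancel_left] at this
      · intro h4
        have := (K i).mul_mem h4 ((K i).inv_mem h2)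
        rw [mul_inv_rev, inv_inv, mul_inv_cancel_left] at this
        exact this
    rw [hmem, hmem] at h3
    exact not_iff_not.mp h3
  have hfin : Finite (U ⧸ N.subgroupOf U) := by
    have : (N.subgroupOf U).FiniteIndex := ⟨h0⟩
    exact Subgroup.finite_quotient_of_finiteIndex
  have h1 := Nat.card_le_card_of_injective g hg
  rw [Nat.card_eq_fintype_card, Fintype.card_finset] at h1
  rw [Nat.card_eq_fintype_card]
  exact h1

/-- The index of `A² B` in `A` equals the index of `B` in the `2`-torsion modulo `B`. -/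
lemma relIndex_sq_sup {A B : Subgroup G} (hBA : B ≤ A) (h0 : B.relIndex A ≠ 0) :
    (sqS A ⊔ B).relIndex A = B.relIndex (A ⊓ B.comap (powMonoidHom 2)) := by
  set C := A ⊓ B.comap (powMonoidHom 2) with hC
  have hBC : B ≤ C := le_inf hBA fun x hx => B.pow_mem hx 2
  have e1 : B.relIndex C * C.relIndex A = B.relIndex A :=
    Subgroup.relIndex_mul_relIndex _ _ _ hBC inf_le_left
  have e2 : B.relIndex (sqS A ⊔ B) * (sqS A ⊔ B).relIndex A = B.relIndex A :=
    Subgroup.relIndex_mul_relIndex _ _ _ le_sup_right (sup_le (sqS_le A) hBA)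
  have e3 : C.relIndex A = B.relIndex (sqS A ⊔ B) := by
    rw [sup_comm, Subgroup.relIndex_sup_left, hC, Subgroup.inf_relIndex_left, sqS,
      Subgroup.relIndex_comap]
  have h4 : B.relIndex (sqS A ⊔ B) ≠ 0 := by
    intro h
    rw [h, zero_mul] at e2
    exact h0 e2.symm
  rw [e3, mul_comm] at e1
  exact (Nat.eq_of_mul_eq_mul_left (Nat.pos_of_ne_zero h4) (e1.trans e2.symm)).symm

lemma mul_mem_of_relIndex_le_two {H A : Subgroup G} (h0 : H.relIndex A ≠ 0)
    (h2 : H.relIndex A ≤ 2) {x y : G} (hx : x ∈ A) (hy : y ∈ A) (hx' : x ∉ H) (hy' : y ∉ H) :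
    x * y ∈ H := by
  have h1 : H.relIndex A ≠ 1 := by
    intro h
    exact hx' (Subgroup.relIndex_eq_one.mp h hx)
  have h3 : (H.subgroupOf A).index = 2 := by
    change H.relIndex A = 2
    omega
  have h4 := Subgroup.mul_mem_iff_of_index_two h3 (a := ⟨x, hx⟩) (b := ⟨y, hy⟩)
  rw [Subgroup.mem_subgroupOf, Subgroup.mem_subgroupOf, Subgroup.mem_subgroupOf] at h4
  exact h4.mpr ⟨fun h => absurd h hx', fun h => absurd h hy'⟩

end

end Pool.Agent.Lib.QCFT
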