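import Mathlib
import Pool.Agent.Lib.QCFT.Quad
import Pool.Agent.Lib.QCFT.Count

/-!
# Local squares
-/

set_option autoImplicit false
set_option linter.unusedSectionVars false

namespace Pool.Agent.Lib.QCFT

open IsDedekindDomain NumberField WithZero

section

variable {K : Type*} [Field K] [NumberField K] (v : HeightOneSpectrum (𝓞 K))

lemma val_natCast_le (n : ℕ) : v.valuation K (n : K) ≤ 1 := by
  have h := v.valuation_le_one (K := K) (n : 𝓞 K)
  have h2 : algebraMap (𝓞 K) K (n : 𝓞 K) = (n : K) := map_natCast _ n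
  rw [← h2]
  exact h

lemma val_two_le : v.valuation K (2 : K) ≤ 1 := by
  have := val_natCast_le (K := K) v 2
  simpa using this

lemma val_two_ne : v.valuation K (2 : K) ≠ 0 := by
  rw [ne_eq, map_eq_zero]
  exact two_ne_zero

lemma val_four : v.valuation K (4 : K) = v.valuation K (2 : K) * v.valuation K (2 : K) := by
  rw [← map_mul]
  norm_num

lemma val_four_le : v.valuation K (4 : K) ≤ 1 := by
  rw [val_four]
  exact mul_le_one' (val_two_le v) (val_two_le v)

lemma val_four_ne : v.valuation K (4 : K) ≠ 0 := by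
  rw [val_four]
  exact mul_ne_zero (val_two_ne v) (val_two_ne v)

lemma val_eq_one_of_sub {x : K} (h : v.valuation K (x - 1) < 1) : v.valuation K x = 1 := by
  have h1 : v.valuation K (1 + (x - 1)) = 1 := (v.valuation K).map_one_add_of_lt h
  rwa [add_sub_cancel] at h1

/-- units congruent to `1` modulo `4 m`; they are local squares -/
def OU : Subgroup Kˣ where
  carrier := {u | v.valuation K ((u : K) - 1) < v.valuation K 4}
  one_mem' := by
    change v.valuation K (((1 : Kˣ) : K) - 1) < v.valuation K 4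
    rw [Units.val_one, sub_self, map_zero]
    exact zero_lt_iff.mpr (val_four_ne v)
  mul_mem' := by
    intro a b ha hb
    change v.valuation K (((a * b : Kˣ) : K) - 1) < v.valuation K 4
    have ha' : v.valuation K ((a : K) - 1) < v.valuation K 4 := ha
    have hb' : v.valuation K ((b : K) - 1) < v.valuation K 4 := hb
    have h1 : ((a * b : Kˣ) : K) - 1 = a * ((b : K) - 1) + ((a : K) - 1) := by
      rw [Units.val_mul]; ring
    rw [h1]
    refine Valuation.map_add_lt _ ?_ ha'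
    rw [map_mul, val_eq_one_of_sub v (lt_of_lt_of_le ha' (val_four_le v)), one_mul]
    exact hb'
  inv_mem' := by
    intro a ha
    change v.valuation K (((a⁻¹ : Kˣ) : K) - 1) < v.valuation K 4
    have ha' : v.valuation K ((a : K) - 1) < v.valuation K 4 := ha
    have h1 : ((a⁻¹ : Kˣ) : K) - 1 = -(((a : K) - 1) * (a : K)⁻¹) := by
      rw [Units.val_inv_eq_inv_val, sub_mul, one_mul, mul_inv_cancel₀ a.ne_zero]; ring
    rw [h1, Valuation.map_neg, map_mul, map_inv₀,
      val_eq_one_of_sub v (lt_of_lt_of_le ha' (val_four_le v)), inv_one, mul_one]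
    exact ha'

lemma mem_OU {u : Kˣ} : u ∈ OU v ↔ v.valuation K ((u : K) - 1) < v.valuation K 4 := Iff.rfl

lemma o_of_mem_OU {u : Kˣ} (hu : u ∈ OU v) : o v u = 0 := by
  rw [o_eq_zero_iff]
  exact val_eq_one_of_sub v (lt_of_lt_of_le hu (val_four_le v))

/-- local squares -/
def LSq : Subgroup Kˣ := sqS ⊤ ⊔ OU v

lemma mem_LSq {x : Kˣ} : x ∈ LSq v ↔ ∃ y : Kˣ, x / y ^ 2 ∈ OU v := by
  rw [LSq, Subgroup.mem_sup]
  constructor
  · rintro ⟨s, hs, t, ht, rfl⟩
    obtain ⟨y, _, rfl⟩ := mem_sqS.mp hs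
    exact ⟨y, by rwa [mul_div_cancel_left]⟩
  · rintro ⟨y, hy⟩
    exact ⟨y ^ 2, mem_sqS.mpr ⟨y, trivial, rfl⟩, _, hy, by rw [mul_div_cancel]⟩

lemma sq_mem_LSq (y : Kˣ) : y ^ 2 ∈ LSq v :=
  Subgroup.mem_sup_left (mem_sqS.mpr ⟨y, trivial, rfl⟩)

lemma even_of_mem_LSq {x : Kˣ} (hx : x ∈ LSq v) : Even (o v x) := by
  obtain ⟨y, hy⟩ := (mem_LSq v).mp hx
  have h1 := o_of_mem_OU v hy
  rw [o_div, o_pow] at h1
  exact ⟨o v y, by push_cast at h1; omega⟩

/-- local units -/
def Oo : Subgroup Kˣ where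
  carrier := {x | o v x = 0}
  one_mem' := o_one v
  mul_mem' := by
    intro a b ha hb
    change o v (a * b) = 0
    rw [o_mul, show o v a = 0 from ha, show o v b = 0 from hb, add_zero]
  inv_mem' := by
    intro a ha
    change o v a⁻¹ = 0
    rw [o_inv, show o v a = 0 from ha, neg_zero]

lemma mem_Oo {x : Kˣ} : x ∈ Oo v ↔ o v x = 0 := Iff.rfl

lemma OU_le_Oo : OU v ≤ Oo v := fun _ hx => o_of_mem_OU v hx

/-- the ramification exponent of `2` at `v` -/
noncomputable def e2 (K : Type*) [Field K] [NumberField K] (v : HeightOneSpectrum (𝓞 K)) : ℕ :=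
  (o v (Units.mk0 (2 : K) two_ne_zero)).toNat

lemma val_two_eq : v.valuation K (2 : K) = exp (-(e2 K v : ℤ)) := by
  have h0 : 0 ≤ o v (Units.mk0 (2 : K) two_ne_zero) := by
    rw [o_nonneg_iff]
    exact val_two_le v
  have h1 := val_eq v (Units.mk0 (2 : K) two_ne_zero)
  rw [e2, Int.toNat_of_nonneg h0, ← h1]
  rfl

instance finite_quot_pow (n : ℕ) : Finite (𝓞 K ⧸ v.asIdeal ^ n) :=
  Ideal.finiteQuotientOfFreeOfNeBot _ (pow_ne_zero n v.ne_bot)

/-- approximation modulo a power of `v` -/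
lemma exists_approx (n : ℕ) {x : K} (hx : v.valuation K x ≤ 1) :
    ∃ r : 𝓞 K, v.valuation K (algebraMap (𝓞 K) K r - x) ≤ exp (-(n : ℤ)) := by
  obtain ⟨r, hr⟩ := v.exists_valuation_sub_lt_of_integer hx
    (Units.mk0 (exp (-(n : ℤ))) exp_ne_zero)
  exact ⟨r, hr.le⟩

lemma val_sub_le_of_mk_eq (n : ℕ) {r s : 𝓞 K}
    (h : Ideal.Quotient.mk (v.asIdeal ^ n) r = Ideal.Quotient.mk (v.asIdeal ^ n) s) :
    v.valuation K (algebraMap (𝓞 K) K r - algebraMap (𝓞 K) K s) ≤ exp (-(n : ℤ)) := by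
  rw [Ideal.Quotient.eq] at h
  rw [← map_sub, HeightOneSpectrum.valuation_of_algebraMap]
  exact (v.intValuation_le_pow_iff_mem _ n).mpr h

lemma relIndex_OU_Oo : (OU v).relIndex (Oo v) ≠ 0 := by
  classical
  -- approximate modulo `4 m`
  let n : ℕ := 2 * e2 K v + 1
  have h4 : exp (-(n : ℤ)) < v.valuation K (4 : K) := by
    rw [val_four, val_two_eq, ← exp_add, exp_lt_exp]
    simp only [n]
    push_cast
    omega
  have hex : ∀ x : Kˣ, ∃ r : 𝓞 K, v.valuation K (x : K) ≤ 1 →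
      v.valuation K (algebraMap (𝓞 K) K r - x) ≤ exp (-(n : ℤ)) := by
    intro x
    by_cases h : v.valuation K (x : K) ≤ 1
    · obtain ⟨r, hr⟩ := exists_approx v n h
      exact ⟨r, fun _ => hr⟩
    · exact ⟨0, fun h' => absurd h' h⟩
  choose r hr using hex
  refine (relIndex_le_card (OU v) (Oo v)
    (fun x => Ideal.Quotient.mk (v.asIdeal ^ n) (r x)) ?_).1
  intro x hx y hy h
  have hx1 : v.valuation K (x : K) = 1 := (o_eq_zero_iff v).mp hx
  have hy1 : v.valuation K (y : K) = 1 := (o_eq_zero_iff v).mp hy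
  have h1 := val_sub_le_of_mk_eq v n h
  have h2 := hr x hx1.le
  have h3 := hr y hy1.le
  have h4' : v.valuation K ((x : K) - y) ≤ exp (-(n : ℤ)) := by
    have e : (x : K) - y = (algebraMap (𝓞 K) K (r x) - algebraMap (𝓞 K) K (r y)) -
        (algebraMap (𝓞 K) K (r x) - x) + (algebraMap (𝓞 K) K (r y) - y) := by ring
    rw [e]
    exact Valuation.map_add_le _ (Valuation.map_sub_le _ h1 h2) h3
  rw [mem_OU]
  have e : ((x / y : Kˣ) : K) - 1 = ((x : K) - y) * (y : K)⁻¹ := by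
    rw [Units.val_div_eq_div_val, sub_mul, mul_inv_cancel₀ y.ne_zero, div_eq_mul_inv]
  rw [e, map_mul, map_inv₀, hy1, inv_one, mul_one]
  exact lt_of_le_of_lt h4' h4

/-- the number of classes of `2`-torsion local units -/
lemma relIndex_T2_le :
    (OU v).relIndex (Oo v ⊓ (OU v).comap (powMonoidHom 2)) ≤
      2 * Nat.card (𝓞 K ⧸ v.asIdeal ^ e2 K v) := by
  classical
  obtain ⟨p, hp⟩ := exists_unif (K := K) v
  have hpv : v.valuation K (p : K) = exp (-1 : ℤ) := (o_eq_iff v).mp hp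
  set e := e2 K v with he
  have hv2 : v.valuation K (2 : K) = exp (-(e : ℤ)) := val_two_eq v
  let ε : Kˣ → K := fun x => if v.valuation K ((x : K) - 1) < v.valuation K 2 then 1 else -1
  have hε : ∀ x : Kˣ, x ^ 2 ∈ OU v → v.valuation K ((x : K) - ε x) < v.valuation K 2 := by
    intro x hx
    by_cases h : v.valuation K ((x : K) - 1) < v.valuation K 2
    · simp only [ε, if_pos h]
      exact h
    · simp only [ε, if_neg h]
      by_contra h'
      have h1 : v.valuation K (((x ^ 2 : Kˣ) : K) - 1) < v.valuation K 4 := hx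
      have h2 : ((x ^ 2 : Kˣ) : K) - 1 = ((x : K) - 1) * ((x : K) - -1) := by
        rw [Units.val_pow_eq_pow_val]; ring
      rw [h2, map_mul, val_four] at h1
      exact absurd h1 (not_lt.mpr (mul_le_mul' (not_lt.mp h) (not_lt.mp h')))
  have hex : ∀ x : Kˣ, ∃ r : 𝓞 K, x ^ 2 ∈ OU v →
      v.valuation K (algebraMap (𝓞 K) K r - ((x : K) - ε x) / (2 * p)) ≤ exp (-(e : ℤ)) := by
    intro x
    by_cases h : x ^ 2 ∈ OU v
    · have h1 : v.valuation K (((x : K) - ε x) / (2 * p)) ≤ 1 := by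
        have h3 := hε x h
        by_cases h0 : (x : K) - ε x = 0
        · rw [h0, zero_div, map_zero]; exact zero_le
        · have h5 := val_eq v (Units.mk0 _ h0)
          rw [Units.val_mk0] at h5
          rw [h5, hv2, exp_lt_exp] at h3
          rw [map_div₀, map_mul, h5, hpv, hv2, ← exp_add, ← exp_sub, ← exp_zero, exp_le_exp]
          omega
      obtain ⟨r, hr⟩ := exists_approx v e h1
      exact ⟨r, fun _ => hr⟩
    · exact ⟨0, fun h' => absurd h' h⟩
  choose r hr using hex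
  have key := (relIndex_le_card (OU v) (Oo v ⊓ (OU v).comap (powMonoidHom 2))
    (fun x => (decide (v.valuation K ((x : K) - 1) < v.valuation K 2),
      Ideal.Quotient.mk (v.asIdeal ^ e) (r x))) ?_).2
  · rwa [Nat.card_prod, Nat.card_eq_fintype_card (α := Bool), Fintype.card_bool] at key
  rintro x ⟨_, hx⟩ y ⟨hyO, hy⟩ h
  have hx2 : x ^ 2 ∈ OU v := hx
  have hy2 : y ^ 2 ∈ OU v := hy
  have hb := congrArg Prod.fst h
  have hq := congrArg Prod.snd h
  simp only [decide_eq_decide] at hb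
  have hεε : ε x = ε y := by
    simp only [ε, hb]
  have h1 := val_sub_le_of_mk_eq v e hq
  have h2 := hr x hx2
  have h3 := hr y hy2
  have hp0 : (p : K) ≠ 0 := p.ne_zero
  have h4 : v.valuation K (((x : K) - y) / (2 * p)) ≤ exp (-(e : ℤ)) := by
    have e1 : ((x : K) - y) / (2 * p) =
        (algebraMap (𝓞 K) K (r x) - algebraMap (𝓞 K) K (r y)) -
        (algebraMap (𝓞 K) K (r x) - ((x : K) - ε x) / (2 * p)) +
        (algebraMap (𝓞 K) K (r y) - ((y : K) - ε y) / (2 * p)) := by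
      rw [hεε]; field_simp; ring
    rw [e1]
    exact Valuation.map_add_le _ (Valuation.map_sub_le _ h1 h2) h3
  have hy1 : v.valuation K (y : K) = 1 := (o_eq_zero_iff v).mp hyO
  rw [mem_OU]
  have e3 : ((x / y : Kˣ) : K) - 1 = ((x : K) - y) / (2 * p) * (2 * p) * (y : K)⁻¹ := by
    rw [div_mul_cancel₀ _ (mul_ne_zero two_ne_zero hp0), Units.val_div_eq_div_val, sub_mul,
      mul_inv_cancel₀ y.ne_zero, div_eq_mul_inv]
  rw [e3, map_mul, map_inv₀, hy1, inv_one, mul_one, map_mul, map_mul, hpv, val_four, hv2,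
    ← exp_add, ← exp_add]
  calc _ ≤ exp (-(e : ℤ)) * exp (-(e : ℤ) + -1) := mul_le_mul_left h4 _
    _ < _ := by
      rw [← exp_add, exp_lt_exp]
      omega

/-- index of the local squares in the local units -/
lemma LSq_relIndex_Oo : (LSq v).relIndex (Oo v) ≠ 0 ∧
    (LSq v).relIndex (Oo v) ≤ 2 * Nat.card (𝓞 K ⧸ v.asIdeal ^ e2 K v) := by
  have h1 := relIndex_sq_sup (OU_le_Oo v) (relIndex_OU_Oo v)
  have h2 : sqS (Oo v) ⊔ OU v ≤ LSq v := sup_le_sup_right (sqS_mono le_top) _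
  have h3 : (LSq v).relIndex (Oo v) ∣ (sqS (Oo v) ⊔ OU v).relIndex (Oo v) :=
    Subgroup.relIndex_dvd_of_le_left _ h2
  have h4 : (sqS (Oo v) ⊔ OU v).relIndex (Oo v) ≠ 0 := by
    intro h
    have h5 : (sqS (Oo v) ⊔ OU v).relIndex (Oo v) ∣ (OU v).relIndex (Oo v) :=
      Subgroup.relIndex_dvd_of_le_left _ le_sup_right
    rw [h, zero_dvd_iff] at h5
    exact relIndex_OU_Oo v h5
  refine ⟨fun h => ?_, ?_⟩
  · rw [h, zero_dvd_iff] at h3
    exact h4 h3
  · exact (Nat.le_of_dvd (Nat.pos_of_ne_zero h4) h3).trans (h1.le.trans (relIndex_T2_le v))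

/-- index of the local squares -/
theorem LSq_index : (LSq v).index ≠ 0 ∧
    (LSq v).index ≤ 4 * Nat.card (𝓞 K ⧸ v.asIdeal ^ e2 K v) := by
  classical
  obtain ⟨p, hp⟩ := exists_unif (K := K) v
  have h1 : (LSq v).relIndex (Oo v ⊔ LSq v) * (Oo v ⊔ LSq v).relIndex ⊤ = (LSq v).relIndex ⊤ :=
    Subgroup.relIndex_mul_relIndex _ _ _ le_sup_right le_top
  rw [Subgroup.relIndex_sup_right, Subgroup.relIndex_top_right, Subgroup.relIndex_top_right] at h1
  have h2 := relIndex_le_card (Oo v ⊔ LSq v) ⊤ (fun x => decide (Even (o v x))) (by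
    intro x _ y _ h
    simp only [decide_eq_decide] at h
    have h3 : Even (o v (x / y)) := by
      rw [o_div, Int.even_sub]
      exact h
    obtain ⟨m, hm⟩ := h3
    have h4 : x / y = (x / y / (p ^ m) ^ 2) * (p ^ m) ^ 2 := (div_mul_cancel _ _).symm
    rw [h4]
    refine Subgroup.mul_mem_sup ?_ (sq_mem_LSq v _)
    rw [mem_Oo, o_div, o_pow, o_zpow, hp, hm]
    push_cast
    ring)
  rw [Subgroup.relIndex_top_right, Nat.card_eq_fintype_card, Fintype.card_bool] at h2
  obtain ⟨h5, h6⟩ := LSq_relIndex_Oo v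
  rw [← h1]
  refine ⟨mul_ne_zero h5 h2.1, ?_⟩
  calc _ ≤ (2 * Nat.card (𝓞 K ⧸ v.asIdeal ^ e2 K v)) * 2 := Nat.mul_le_mul h6 h2.2
    _ = _ := by ring

lemma e2_eq_zero (h : v.valuation K (2 : K) = 1) : e2 K v = 0 := by
  rw [val_two_eq, ← exp_zero, exp_inj] at h
  omega

/-- at an odd prime the product of two nonsquare units is a square -/
lemma mul_mem_LSq (h2 : v.valuation K (2 : K) = 1) {x y : Kˣ} (hx : o v x = 0) (hy : o v y = 0)
    (hx' : x ∉ LSq v) (hy' : y ∉ LSq v) : x * y ∈ LSq v := by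
  obtain ⟨h3, h4⟩ := LSq_relIndex_Oo v
  rw [e2_eq_zero v h2, pow_zero] at h4
  have h5 : Nat.card (𝓞 K ⧸ (1 : Ideal (𝓞 K))) = 1 := by
    rw [Ideal.one_eq_top, Nat.card_eq_one_iff_unique]
    exact ⟨Ideal.Quotient.subsingleton_iff.mpr rfl, ⟨0⟩⟩
  rw [h5, mul_one] at h4
  exact mul_mem_of_relIndex_le_two h3 h4 hx hy hx' hy'

end

end Pool.Agent.Lib.QCFT
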