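import Mathlib
import Pool.Agent.Lib.QCFT.LocSq

/-!
# Splitting criteria and local norm characters in a quadratic extension `F = k(θ)`, `θ² = a`.
-/

set_option autoImplicit false
set_option linter.unusedSectionVars false

namespace Pool.Agent.Lib.QCFT

open IsDedekindDomain NumberField WithZero

section

variable {k F : Type*} [Field k] [NumberField k] [Field F] [NumberField F] [Algebra k F]
  [Algebra.IsQuadraticExtension k F] (σ : F ≃ₐ[k] F)

lemma val_sigma (_hσ : σ ≠ 1) {w : HeightOneSpectrum (𝓞 F)} (hw : sp σ w = w) (x : F) :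
    w.valuation F (σ x) = w.valuation F x := by
  have h := val_sp σ w x
  rwa [hw] at h

/-- L1: a local square generates a split extension -/
theorem split_of_mem_LSq (hσ : σ ≠ 1) {a : kˣ} {θ : Fˣ} (hθ : θ ^ 2 = bc k F a)
    (hσθ : σ (θ : F) = -θ) {v : HeightOneSpectrum (𝓞 k)} (ha : a ∈ LSq v) : ¬ NSp F v := by
  intro hns
  obtain ⟨w, rfl⟩ := exists_und_eq F v
  have hw : sp σ w = w := (NSp_iff σ hσ).mp hns
  obtain ⟨y, hy⟩ := (mem_LSq _).mp ha
  have hy' : (und k w).valuation k (((a / y ^ 2 : kˣ) : k) - 1) < (und k w).valuation k 4 := hy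
  set u : k := ((a / y ^ 2 : kˣ) : k) with hu
  let s : F := θ / algebraMap k F y
  have hs2 : s ^ 2 = algebraMap k F u := by
    have h1 : (θ : F) ^ 2 = algebraMap k F a := congrArg Units.val hθ
    simp only [s]
    rw [div_pow, h1, hu, Units.val_div_eq_div_val, Units.val_pow_eq_pow_val, map_div₀, map_pow]
  have hσs : σ s = -s := by
    simp only [s]
    rw [map_div₀, hσθ, σ.commutes, neg_div]
  let τ : F := (1 + s) / 2
  have hστ : σ τ = 1 - τ := by
    simp only [τ]
    rw [map_div₀, map_add, map_one, hσs, map_ofNat]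
    field_simp
    ring
  have h1 : w.valuation F (1 - τ) = w.valuation F τ := by
    rw [← hστ, val_sigma σ hσ hw]
  have h2 : τ * (1 - τ) = algebraMap k F ((1 - u) / 4) := by
    rw [map_div₀, map_sub, map_one, ← hs2, map_ofNat]
    simp only [τ]
    field_simp
    ring
  have h3 : w.valuation F τ * w.valuation F τ < 1 := by
    have h4 : w.valuation F τ * w.valuation F τ = w.valuation F (τ * (1 - τ)) := by
      rw [map_mul, h1]
    rw [h4, h2, val_algebraMap]
    apply pow_lt_one₀ zero_le _ (ee_pos w).ne'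
    rw [map_div₀]
    have h5 : (und k w).valuation k (1 - u) = (und k w).valuation k (u - 1) :=
      Valuation.map_sub_swap _ _ _
    rw [h5, div_lt_one₀ (zero_lt_iff.mpr (val_four_ne _))]
    exact hy'
  have h6 : w.valuation F τ < 1 := by
    by_contra h
    exact absurd h3 (not_lt.mpr (one_le_mul_of_one_le_of_one_le (not_lt.mp h) (not_lt.mp h)))
  have h7 : w.valuation F (τ + (1 - τ)) < 1 := Valuation.map_add_lt _ h6 (h1 ▸ h6)
  rw [add_sub_cancel, map_one] at h7
  exact lt_irrefl _ h7

lemma ee_le_two (w : HeightOneSpectrum (𝓞 F)) : ee k w ≤ 2 := by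
  obtain ⟨s, hs, hsum⟩ := sum_ee_ff (F := F) (und k w)
  rw [Algebra.IsQuadraticExtension.finrank_eq_two k F] at hsum
  have h1 : ee k w * ff k w ≤ 2 := by
    rw [← hsum]
    exact Finset.single_le_sum (f := fun w => ee k w * ff k w) (fun _ _ => Nat.zero_le _)
      ((hs w).mpr rfl)
  have h2 := ff_pos (k := k) w
  nlinarith

lemma ee_eq_one_of_not_NSp {w : HeightOneSpectrum (𝓞 F)} (h : ¬ NSp F (und k w)) :
    ee k w = 1 := by
  obtain ⟨s, hs, _, h2⟩ := exists_fiber (F := F) (und k w)
  exact ((h2 h).2 w ((hs w).mpr rfl)).1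

lemma two_mul_o_theta {a : kˣ} {θ : Fˣ} (hθ : θ ^ 2 = bc k F a) (w : HeightOneSpectrum (𝓞 F)) :
    2 * o w θ = ee k w * o (und k w) a := by
  rw [← o_bc, ← hθ, o_pow]
  norm_num

lemma fixed_exists (hσ : σ ≠ 1) {x : F} (hx : σ x = x) : ∃ c : k, algebraMap k F c = x :=
  sigma_fixed σ hσ x hx

/-- valuation of an element of `k` at a prime with `e = 2` -/
lemma val_even {w : HeightOneSpectrum (𝓞 F)} (hee : ee k w = 2) (c : k) (hc : c ≠ 0) :
    w.valuation F (algebraMap k F c) = exp (-(2 * o (und k w) (Units.mk0 c hc))) := by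
  have h := val_eq w (bc k F (Units.mk0 c hc))
  rw [coe_bc, Units.val_mk0, o_bc, hee] at h
  rw [h]
  norm_num

/-- L2: unramified at odd primes where `a` has even valuation -/
theorem ee_eq_one_of_even (hσ : σ ≠ 1) {a : kˣ} {θ : Fˣ} (hθ : θ ^ 2 = bc k F a)
    (hσθ : σ (θ : F) = -θ) {w : HeightOneSpectrum (𝓞 F)}
    (h2 : (und k w).valuation k (2 : k) = 1) (ha : Even (o (und k w) a)) : ee k w = 1 := by
  by_contra hne
  have hee : ee k w = 2 := by
    have h1 := ee_le_two (k := k) w
    have h3 := ee_pos (k := k) w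
    omega
  have hns : NSp F (und k w) := by
    by_contra h
    exact hne (ee_eq_one_of_not_NSp h)
  have hw : sp σ w = w := (NSp_iff σ hσ).mp hns
  obtain ⟨P, hP⟩ := exists_unif (K := F) w
  have hPv : w.valuation F (P : F) = exp (-1 : ℤ) := (o_eq_iff w).mp hP
  have hσP : w.valuation F (σ (P : F)) = exp (-1 : ℤ) := by rw [val_sigma σ hσ hw, hPv]
  have hoθ : o w θ = o (und k w) a := by
    have := two_mul_o_theta hθ w
    rw [hee] at this
    push_cast at this
    omega
  have hθv : w.valuation F (θ : F) = exp (-(o (und k w) a)) := by rw [val_eq, hoθ]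
  obtain ⟨c, hc⟩ := fixed_exists σ hσ (x := P + σ P) (by
    rw [map_add, sigma_sigma σ hσ, add_comm])
  obtain ⟨d, hd⟩ := fixed_exists σ hσ (x := (P - σ P) * θ) (by
    rw [map_mul, map_sub, sigma_sigma σ hσ, hσθ]; ring)
  have h1 : w.valuation F ((P : F) + σ P) ≤ exp (-2 : ℤ) := by
    have h3 : w.valuation F ((P : F) + σ P) ≤ exp (-1 : ℤ) :=
      Valuation.map_add_le _ hPv.le hσP.le
    rw [← hc] at h3 ⊢
    by_cases hc0 : c = 0
    · rw [hc0, map_zero, map_zero]; exact zero_le
    · rw [val_even hee c hc0, exp_le_exp] at h3 ⊢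
      omega
  have h4 : w.valuation F ((P : F) - σ P) ≤ exp (-2 : ℤ) := by
    have h3 : w.valuation F ((P : F) - σ P) ≤ exp (-1 : ℤ) :=
      Valuation.map_sub_le _ hPv.le hσP.le
    by_cases hd0 : d = 0
    · rw [hd0, map_zero] at hd
      have : (P : F) - σ P = 0 := (mul_eq_zero.mp hd.symm).resolve_right θ.ne_zero
      rw [this, map_zero]; exact zero_le
    · have h5 : w.valuation F ((P : F) - σ P) * exp (-(o (und k w) a)) =
          exp (-(2 * o (und k w) (Units.mk0 d hd0))) := by
        rw [← hθv, ← map_mul, ← hd, val_even hee d hd0]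
      obtain ⟨m, hm⟩ := ha
      have h6 : w.valuation F ((P : F) - σ P) =
          exp (-(2 * o (und k w) (Units.mk0 d hd0)) + o (und k w) a) := by
        rw [exp_add, ← h5, mul_assoc, ← exp_add]
        simp
      rw [h6, exp_le_exp] at h3 ⊢
      omega
  have h7 : w.valuation F (2 * (P : F)) ≤ exp (-2 : ℤ) := by
    have : 2 * (P : F) = (P + σ P) + (P - σ P) := by ring
    rw [this]
    exact Valuation.map_add_le _ h1 h4
  have h8 : w.valuation F (2 : F) = 1 := by
    have := val_algebraMap (k := k) w (2 : k)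
    rw [map_ofNat, h2, one_pow] at this
    exact this
  rw [map_mul, h8, one_mul, hPv, exp_le_exp] at h7
  omega

lemma two_mul_o_nu (hσ : σ ≠ 1) {w : HeightOneSpectrum (𝓞 F)} (hw : sp σ w = w) (z : Fˣ) :
    ee k w * o (und k w) (nu k F z) = 2 * o w z := by
  rw [← o_bc, bc_nu σ hσ, o_mul, o_su' σ hσ, hw]
  ring

/-- the norm of a local unit at an odd ramified prime is a local square -/
lemma nu_mem_LSq_of_ramified (hσ : σ ≠ 1) {a : kˣ} {θ : Fˣ} (hθ : θ ^ 2 = bc k F a)
    (hσθ : σ (θ : F) = -θ) {w : HeightOneSpectrum (𝓞 F)}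
    (h2 : (und k w).valuation k (2 : k) = 1) (ha : ¬ Even (o (und k w) a)) (hee : ee k w = 2)
    (hw : sp σ w = w) (z : Fˣ) (hz : o w z = 0) : nu k F z ∈ LSq (und k w) := by
  have h4 : (und k w).valuation k (4 : k) = 1 := by rw [val_four, h2, one_mul]
  have hoθ : o w θ = o (und k w) a := by
    have := two_mul_o_theta hθ w
    rw [hee] at this
    push_cast at this
    omega
  have hθv : w.valuation F (θ : F) = exp (-(o (und k w) a)) := by rw [val_eq, hoθ]
  have hz1 : w.valuation F (z : F) = 1 := (o_eq_zero_iff w).mp hz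
  have hσz : w.valuation F (σ (z : F)) = 1 := by rw [val_sigma σ hσ hw, hz1]
  obtain ⟨c, hc⟩ := fixed_exists σ hσ (x := (z : F) + σ z) (by
    rw [map_add, sigma_sigma σ hσ, add_comm])
  obtain ⟨d, hd⟩ := fixed_exists σ hσ (x := ((z : F) - σ z) * θ) (by
    rw [map_mul, map_sub, sigma_sigma σ hσ, hσθ]; ring)
  -- the difference is small
  have hdiff : w.valuation F ((z : F) - σ z) < 1 := by
    have h3 : w.valuation F ((z : F) - σ z) ≤ 1 := Valuation.map_sub_le _ hz1.le hσz.le
    by_cases hd0 : d = 0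
    · rw [hd0, map_zero] at hd
      have : (z : F) - σ z = 0 := (mul_eq_zero.mp hd.symm).resolve_right θ.ne_zero
      rw [this, map_zero]; exact zero_lt_one
    · have h5 : w.valuation F ((z : F) - σ z) * exp (-(o (und k w) a)) =
          exp (-(2 * o (und k w) (Units.mk0 d hd0))) := by
        rw [← hθv, ← map_mul, ← hd, val_even hee d hd0]
      have h6 : w.valuation F ((z : F) - σ z) =
          exp (-(2 * o (und k w) (Units.mk0 d hd0)) + o (und k w) a) := by
        rw [exp_add, ← h5, mul_assoc, ← exp_add]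
        simp
      rw [Int.not_even_iff_odd] at ha
      obtain ⟨m, hm⟩ := ha
      rw [h6, ← exp_zero, exp_le_exp] at h3
      rw [h6, ← exp_zero, exp_lt_exp]
      omega
  -- 4 N(z) = c² - (z - σ z)²
  have hw2 : w.valuation F (2 : F) = 1 := by
    have := val_algebraMap (k := k) w (2 : k)
    rw [map_ofNat, h2, one_pow] at this
    exact this
  have hw4 : w.valuation F (4 : F) = 1 := by rw [val_four, hw2, one_mul]
  have hN : algebraMap k F (nu k F z : kˣ) = z * σ z := norm_eq σ hσ (z : F)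
  have e1 : algebraMap k F c ^ 2 = 4 * (z * σ z) + (z - σ z) ^ 2 := by
    rw [hc]; ring
  have hc2 : w.valuation F (algebraMap k F c ^ 2) = 1 := by
    rw [e1]
    have h7 : w.valuation F (4 * ((z : F) * σ z)) = 1 := by
      rw [map_mul, map_mul, hw4, hz1, hσz, one_mul, one_mul]
    have h8 : w.valuation F (((z : F) - σ z) ^ 2) < 1 := by
      rw [map_pow]
      exact pow_lt_one₀ zero_le hdiff two_ne_zero
    have h9 := Valuation.map_add_eq_of_lt_right (w.valuation F) (x := ((z : F) - σ z) ^ 2)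
      (y := 4 * ((z : F) * σ z)) (by rw [h7]; exact h8)
    rw [add_comm, h9, h7]
  have hc0 : c ≠ 0 := by
    rintro rfl
    rw [map_zero] at hc2
    simp at hc2
  have hc20 : c / 2 ≠ 0 := div_ne_zero hc0 two_ne_zero
  rw [mem_LSq]
  refine ⟨Units.mk0 _ hc20, ?_⟩
  rw [mem_OU, h4]
  -- enough to check upstairs
  have h10 : w.valuation F (algebraMap k F
      (((nu k F z / Units.mk0 _ hc20 ^ 2 : kˣ) : k) - 1)) < 1 := by
    have e2 : algebraMap k F (((nu k F z / Units.mk0 _ hc20 ^ 2 : kˣ) : k) - 1) =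
        -((z - σ z) ^ 2 / algebraMap k F c ^ 2) := by
      have hc' : algebraMap k F c ≠ 0 := by
        rw [ne_eq, map_eq_zero]; exact hc0
      rw [map_sub, map_one, Units.val_div_eq_div_val, Units.val_pow_eq_pow_val, Units.val_mk0,
        map_div₀, hN, map_pow, map_div₀, map_ofNat]
      field_simp
      linear_combination (-1 : F) * e1
    rw [e2, Valuation.map_neg, map_div₀, hc2, div_one, map_pow]
    exact pow_lt_one₀ zero_le hdiff two_ne_zero
  rw [val_algebraMap, hee] at h10
  by_contra hcon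
  exact absurd h10 (not_lt.mpr (one_le_pow₀ (not_lt.mp hcon)))

/-- the tame symbol with `a`, up to sign conventions -/
noncomputable def tame (v : HeightOneSpectrum (𝓞 k)) (a : kˣ) : kˣ →* kˣ where
  toFun y := y ^ (o v a) / (-a) ^ (o v y)
  map_one' := by rw [o_one, one_zpow, zpow_zero, div_one]
  map_mul' x y := by rw [o_mul, mul_zpow, zpow_add, mul_div_mul_comm]

lemma tame_apply (v : HeightOneSpectrum (𝓞 k)) (a y : kˣ) :
    tame v a y = y ^ (o v a) / (-a) ^ (o v y) := rfl

open Classical in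
/-- the local norm kernel at an odd nonsplit prime -/
noncomputable def NK (v : HeightOneSpectrum (𝓞 k)) (a : kˣ) : Subgroup kˣ :=
  if Even (o v a) then
    { carrier := {y | Even (o v y)}
      one_mem' := by
        change Even (o v 1)
        rw [o_one]
        exact ⟨0, rfl⟩
      mul_mem' := by
        intro x y hx hy
        change Even (o v (x * y))
        rw [o_mul]
        exact Even.add hx hy
      inv_mem' := by
        intro x hx
        change Even (o v x⁻¹)
        rw [o_inv]
        exact Even.neg hx }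
  else (LSq v).comap (tame v a)

lemma mem_NK_of_even {v : HeightOneSpectrum (𝓞 k)} {a : kˣ} (ha : Even (o v a)) {y : kˣ} :
    y ∈ NK v a ↔ Even (o v y) := by
  rw [NK, if_pos ha]
  rfl

lemma mem_NK_of_not_even {v : HeightOneSpectrum (𝓞 k)} {a : kˣ} (ha : ¬ Even (o v a)) {y : kˣ} :
    y ∈ NK v a ↔ tame v a y ∈ LSq v := by
  rw [NK, if_neg ha]
  rfl

/-- a local unit is in the norm kernel at a ramified prime iff it is a local square -/
lemma mem_NK_unit_iff {v : HeightOneSpectrum (𝓞 k)} {a : kˣ} (ha : ¬ Even (o v a)) {y : kˣ}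
    (hy : o v y = 0) : y ∈ NK v a ↔ y ∈ LSq v := by
  rw [mem_NK_of_not_even ha, tame_apply, hy, zpow_zero, div_one]
  rw [Int.not_even_iff_odd] at ha
  obtain ⟨m, hm⟩ := ha
  have h1 : y ^ (o v a) = (y ^ m) ^ 2 * y := by
    rw [hm, zpow_add, zpow_one, mul_comm 2 m, zpow_mul, zpow_ofNat]
  rw [h1, Subgroup.mul_mem_cancel_left _ (sq_mem_LSq v _)]

lemma mem_NK_of_unit_even {v : HeightOneSpectrum (𝓞 k)} {a : kˣ} (ha : Even (o v a)) {y : kˣ}
    (hy : o v y = 0) : y ∈ NK v a := by
  rw [mem_NK_of_even ha, hy]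
  exact ⟨0, rfl⟩

lemma mem_NK_of_mem_LSq {v : HeightOneSpectrum (𝓞 k)} {a : kˣ} {y : kˣ}
    (hy : o v y = 0) (hy' : y ∈ LSq v) : y ∈ NK v a := by
  by_cases ha : Even (o v a)
  · exact mem_NK_of_unit_even ha hy
  · exact (mem_NK_unit_iff ha hy).mpr hy'

/-- L3: norms are in the local norm kernel at odd nonsplit primes. -/
theorem nu_mem_NK (hσ : σ ≠ 1) {a : kˣ} {θ : Fˣ} (hθ : θ ^ 2 = bc k F a)
    (hσθ : σ (θ : F) = -θ) {v : HeightOneSpectrum (𝓞 k)} (hns : NSp F v)
    (h2 : v.valuation k (2 : k) = 1) (z : Fˣ) : nu k F z ∈ NK v a := by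
  obtain ⟨w, rfl⟩ := exists_und_eq F v
  have hw : sp σ w = w := (NSp_iff σ hσ).mp hns
  have hnu := two_mul_o_nu σ hσ hw z
  by_cases ha : Even (o (und k w) a)
  · rw [mem_NK_of_even ha]
    rw [ee_eq_one_of_even σ hσ hθ hσθ h2 ha] at hnu
    exact ⟨o w z, by push_cast at hnu; omega⟩
  · have hoθ2 := two_mul_o_theta hθ w
    have hee : ee k w = 2 := by
      have h1 := ee_le_two (k := k) w
      have h3 := ee_pos (k := k) w
      have h4 : ee k w ≠ 1 := by
        intro h
        rw [h] at hoθ2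
        apply ha
        exact ⟨o w θ, by push_cast at hoθ2; omega⟩
      omega
    rw [hee] at hnu hoθ2
    have hβ : o (und k w) (nu k F z) = o w z := by push_cast at hnu; omega
    have hα : o w θ = o (und k w) a := by push_cast at hoθ2; omega
    rw [mem_NK_of_not_even ha, tame_apply]
    have hNθ : nu k F θ = -a := by
      apply bc_injective (k := k) (F := F)
      ext
      rw [bc_nu σ hσ, Units.val_mul, coe_su, hσθ, coe_bc, Units.val_neg, map_neg,
        ← coe_bc, ← hθ, Units.val_pow_eq_pow_val]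
      ring
    have h5 : (nu k F z) ^ (o (und k w) a) / (-a) ^ (o (und k w) (nu k F z)) =
        nu k F (z ^ (o (und k w) a) / θ ^ (o w z)) := by
      rw [map_div, map_zpow, map_zpow, hNθ, hβ]
    rw [h5]
    apply nu_mem_LSq_of_ramified σ hσ hθ hσθ h2 ha hee hw
    rw [o_div, o_zpow, o_zpow, hα]
    ring

end

end Pool.Agent.Lib.QCFT
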