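import Mathlib
import Pool.Agent.Lib.QCFT.Split
import Pool.Agent.Lib.QCFT.Zeta

/-!
# Quadratic extensions `k(√a)` and primes separating square classes
-/

set_option autoImplicit false
set_option linter.unusedSectionVars false

universe u

namespace Pool.Agent.Lib.QCFT

open IsDedekindDomain NumberField WithZero

section

variable {k : Type u} [Field k] [NumberField k]

/-- existence of `k(√a)` -/
theorem exists_quad (a : kˣ) (ha : ¬ IsSquare (a : k)) :
    ∃ (F : Type u) (_ : Field F) (_ : NumberField F) (_ : Algebra k F)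
      (_ : Algebra.IsQuadraticExtension k F) (θ : Fˣ), θ ^ 2 = bc k F a := by
  let f : Polynomial k := Polynomial.X ^ 2 - Polynomial.C (a : k)
  have hirr : Irreducible f := by
    apply X_pow_sub_C_irreducible_of_prime Nat.prime_two
    intro b hb
    exact ha ⟨b, by rw [← hb, sq]⟩
  have hfact : Fact (Irreducible f) := ⟨hirr⟩
  have hdeg : f.natDegree = 2 := Polynomial.natDegree_X_pow_sub_C
  let F := AdjoinRoot f
  have hfr : Module.finrank k F = 2 := by
    rw [(AdjoinRoot.powerBasis hirr.ne_zero).finrank, AdjoinRoot.powerBasis_dim, hdeg]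
  have hfd : FiniteDimensional k F := Module.finite_of_finrank_pos (by omega)
  have hQ : FiniteDimensional ℚ F := FiniteDimensional.trans ℚ k F
  have hch : CharZero F := charZero_of_injective_algebraMap (algebraMap k F).injective
  have hNF : NumberField F := { to_charZero := hch, to_finiteDimensional := hQ }
  let r : F := AdjoinRoot.root f
  have hr : r ^ 2 = algebraMap k F a := by
    have h1 : Polynomial.aeval (AdjoinRoot.root f) f = 0 := AdjoinRoot.aeval_eq f ▸ AdjoinRoot.mk_self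
    have h2 : Polynomial.aeval r f = r ^ 2 - algebraMap k F a := by
      simp only [f, map_sub, map_pow, Polynomial.aeval_X, Polynomial.aeval_C]
    have h3 : r ^ 2 - algebraMap k F a = 0 := by rw [← h2]; exact h1
    exact sub_eq_zero.mp h3
  have hr0 : r ≠ 0 := by
    intro h
    rw [h, zero_pow two_ne_zero] at hr
    exact a.ne_zero ((map_eq_zero (algebraMap k F)).mp hr.symm)
  exact ⟨F, inferInstance, hNF, inferInstance, ⟨hfr⟩, Units.mk0 r hr0, Units.ext hr⟩

variable {F : Type*} [Field F] [NumberField F] [Algebra k F]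
  [Algebra.IsQuadraticExtension k F]

lemma sigma_theta {σ : F ≃ₐ[k] F} (hσ : σ ≠ 1) {a : kˣ} (ha : ¬ IsSquare (a : k)) {θ : Fˣ}
    (hθ : θ ^ 2 = bc k F a) : σ (θ : F) = -θ := by
  have h1 : (θ : F) ^ 2 = algebraMap k F a := congrArg Units.val hθ
  have h2 : (σ (θ : F)) ^ 2 = (θ : F) ^ 2 := by
    rw [← map_pow, h1, σ.commutes]
  rcases sq_eq_sq_iff_eq_or_eq_neg.mp h2 with h | h
  · obtain ⟨c, hc⟩ := sigma_fixed σ hσ (θ : F) h
    exfalso
    apply ha
    refine ⟨c, (algebraMap k F).injective ?_⟩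
    rw [map_mul, hc, ← h1, sq]
  · exact h

lemma bc_mem_LSq {w : HeightOneSpectrum (𝓞 F)} {a : kˣ} (ha : a ∈ LSq (und k w)) :
    bc k F a ∈ LSq w := by
  obtain ⟨y, hy⟩ := (mem_LSq _).mp ha
  rw [mem_LSq]
  refine ⟨bc k F y, ?_⟩
  rw [← map_pow, ← map_div, mem_OU]
  have h1 : ((bc k F (a / y ^ 2) : Fˣ) : F) - 1 =
      algebraMap k F (((a / y ^ 2 : kˣ) : k) - 1) := by
    rw [map_sub, map_one]; rfl
  have h4 : (4 : F) = algebraMap k F 4 := (map_ofNat _ 4).symm
  rw [h1, h4, val_algebraMap, val_algebraMap]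
  exact pow_lt_pow_left₀ hy zero_le (ee_pos w).ne'

/-- a square in `k(√b)` which is not a square in `k` is `b` times a square -/
lemma isSquare_of_isSquare_bc {σ : F ≃ₐ[k] F} (hσ : σ ≠ 1) {a b : kˣ}
    (hb : ¬ IsSquare (b : k)) {θ : Fˣ}
    (hθ : θ ^ 2 = bc k F b) (h : IsSquare (algebraMap k F a)) :
    IsSquare (a : k) ∨ IsSquare ((a : k) * b) := by
  obtain ⟨z, hz⟩ := h
  have hσθ := sigma_theta hσ hb hθ
  have h1 : (θ : F) ^ 2 = algebraMap k F b := congrArg Units.val hθ
  have h2 : (σ z) ^ 2 = z ^ 2 := by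
    rw [← map_pow, sq, ← hz, σ.commutes]
  rcases sq_eq_sq_iff_eq_or_eq_neg.mp h2 with h | h
  · left
    obtain ⟨c, hc⟩ := sigma_fixed σ hσ z h
    refine ⟨c, (algebraMap k F).injective ?_⟩
    rw [map_mul, hc, hz]
  · right
    obtain ⟨c, hc⟩ := sigma_fixed σ hσ (z * θ) (by rw [map_mul, h, hσθ]; ring)
    refine ⟨c, (algebraMap k F).injective ?_⟩
    rw [map_mul, map_mul, hc, hz, ← h1]
    ring

end

section

variable {k : Type u} [Field k] [NumberField k]

/-- Given independent square classes `a`, `b`, there are primes where `b` is a local square and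
`a` is not. -/
theorem exists_sep (a b : kˣ) (hb : ¬ IsSquare (b : k)) (ha : ¬ IsSquare (a : k))
    (hab : ¬ IsSquare ((a : k) * b)) (S : Finset (HeightOneSpectrum (𝓞 k))) :
    ∃ v, v ∉ S ∧ v.valuation k (2 : k) = 1 ∧ o v a = 0 ∧ o v b = 0 ∧ b ∈ LSq v ∧ a ∉ LSq v := by
  classical
  obtain ⟨M, _, _, _, _, θ, hθ⟩ := exists_quad b hb
  obtain ⟨σ, hσ⟩ := exists_aut k M
  have haM : ¬ IsSquare ((bc k M a : Mˣ) : M) := by
    intro h
    rcases isSquare_of_isSquare_bc hσ hb hθ h with h | h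
    · exact ha h
    · exact hab h
  obtain ⟨F, _, _, _, _, η, hη⟩ := exists_quad (bc k M a) haM
  obtain ⟨τ, hτ⟩ := exists_aut M F
  have hητ := sigma_theta hτ haM hη
  obtain ⟨SM, hSM, _⟩ := exists_above (F := M) S
  -- a good nonsplit prime
  obtain ⟨w, hw, hwbad⟩ := (infinite_NSp M F).exists_notMem_finite
    (((SM.finite_toSet.union (finite_o_ne (R := 𝓞 M) (Units.mk0 (2 : M) two_ne_zero))).union
      (finite_o_ne (R := 𝓞 M) (bc k M a))).union (finite_o_ne (R := 𝓞 M) (bc k M b)))
  simp only [Set.mem_union, Finset.mem_coe, Set.mem_ofPred_eq, not_or, not_not] at hwbad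
  obtain ⟨⟨⟨h1, h2⟩, h3⟩, h4⟩ := hwbad
  have hw' : NSp F w := hw
  have hee := ee_pos (k := k) w
  have hoa : o (und k w) a = 0 := by
    rw [o_bc] at h3
    rcases mul_eq_zero.mp h3 with h | h
    · omega
    · exact h
  have hob : o (und k w) b = 0 := by
    rw [o_bc] at h4
    rcases mul_eq_zero.mp h4 with h | h
    · omega
    · exact h
  have ho2 : (und k w).valuation k (2 : k) = 1 := by
    have h5 : o w (bc k M (Units.mk0 (2 : k) two_ne_zero)) = 0 := by
      have h6 : bc k M (Units.mk0 (2 : k) two_ne_zero) = Units.mk0 (2 : M) two_ne_zero := by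
        ext
        rw [coe_bc, Units.val_mk0, Units.val_mk0, map_ofNat]
      rw [h6]
      exact h2
    rw [o_bc] at h5
    rcases mul_eq_zero.mp h5 with h | h
    · omega
    · exact (o_eq_zero_iff _).mp h
  have hnot : bc k M a ∉ LSq w := fun h => split_of_mem_LSq τ hτ hη hητ h hw'
  have haL : a ∉ LSq (und k w) := fun h => hnot (bc_mem_LSq h)
  refine ⟨und k w, fun h => h1 ((hSM w).mpr h), ho2, hoa, hob, ?_, haL⟩
  by_contra hbL
  have hab' : a * b ∈ LSq (und k w) := mul_mem_LSq _ ho2 hoa hob haL hbL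
  have h7 : bc k M a * bc k M b ∈ LSq w := by
    rw [← map_mul]
    exact bc_mem_LSq hab'
  rw [← hθ, Subgroup.mul_mem_cancel_right _ (sq_mem_LSq w θ)] at h7
  exact hnot h7

end

end Pool.Agent.Lib.QCFT
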