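import Mathlib
import Pool.Agent.Lib.QCFT.Sep

/-!
# Auxiliary set of primes `T`
-/

set_option autoImplicit false
set_option linter.unusedSectionVars false

universe u

namespace Pool.Agent.Lib.QCFT

open IsDedekindDomain NumberField WithZero

section

variable {k : Type u} [Field k] [NumberField k]

/-- a good auxiliary set of primes -/
structure GoodT (S T : Finset (HeightOneSpectrum (𝓞 k))) (b : kˣ) : Prop where
  odd : ∀ v ∈ T, v.valuation k (2 : k) = 1
  notS : ∀ v ∈ T, v ∉ S
  bsq : ∀ v ∈ T, b ∈ LSq v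
  dual : ∀ v ∈ T, ∃ u ∈ SU (S : Set (HeightOneSpectrum (𝓞 k))) k,
    u ∉ LSq v ∧ ∀ v' ∈ T, v' ≠ v → u ∈ LSq v'

lemma goodT_empty (S : Finset (HeightOneSpectrum (𝓞 k))) (b : kˣ) : GoodT S ∅ b where
  odd := by simp
  notS := by simp
  bsq := by simp
  dual := by simp

lemma isSquare_iff_mem (S : Set (HeightOneSpectrum (𝓞 k))) {x : kˣ} (hx : x ∈ SU S k) :
    x ∈ sqS (SU S k) ↔ IsSquare (x : k) := by
  rw [mem_sqS]
  constructor
  · rintro ⟨y, _, rfl⟩
    exact ⟨y, by rw [Units.val_pow_eq_pow_val, sq]⟩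
  · rintro ⟨y, hy⟩
    have hy0 : y ≠ 0 := by
      rintro rfl
      rw [mul_zero] at hy
      exact x.ne_zero hy
    have hxy : (Units.mk0 y hy0) ^ 2 = x := by
      ext
      rw [Units.val_pow_eq_pow_val, Units.val_mk0, sq, ← hy]
    refine ⟨Units.mk0 y hy0, fun v hv => ?_, hxy⟩
    have h := hx v hv
    rw [← hxy, o_pow] at h
    push_cast at h
    omega

lemma GoodT.card_le {S T : Finset (HeightOneSpectrum (𝓞 k))} {b : kˣ} (h : GoodT S T b) :
    T.card ≤ Units.rank k + 1 + S.card := by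
  classical
  have hd := h.dual
  choose! u hu1 hu2 hu3 using hd
  have h0 : sqI (SU (S : Set (HeightOneSpectrum (𝓞 k))) k) ≠ 0 := by
    rw [sqI_SU]; positivity
  have key := two_pow_le_relIndex (ι := T) (fun v => LSq v.1)
    (sqS (SU (S : Set (HeightOneSpectrum (𝓞 k))) k)) (SU (S : Set (HeightOneSpectrum (𝓞 k))) k)
    (fun v => (sqS_mono le_top).trans le_sup_left) (fun v => u v.1)
    (fun v => hu1 v.1 v.2) (fun v => hu2 v.1 v.2)
    (fun v v' hne => hu3 v.1 v.2 v'.1 v'.2 (fun h => hne (Subtype.ext h))) h0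
  have h1 : sqI (SU (S : Set (HeightOneSpectrum (𝓞 k))) k) =
      2 ^ (Units.rank k + 1 + S.card) := sqI_SU k S
  rw [sqI] at h1
  rw [h1, Nat.card_eq_fintype_card, Fintype.card_coe] at key
  exact (Nat.pow_le_pow_iff_right (by norm_num)).mp key

lemma GoodT.extend {S T : Finset (HeightOneSpectrum (𝓞 k))} {b : kˣ} (h : GoodT S T b)
    (hb : ¬ IsSquare (b : k)) {a : kˣ} (haS : a ∈ SU (S : Set (HeightOneSpectrum (𝓞 k))) k)
    (haT : ∀ v ∈ T, a ∈ LSq v) (ha : ¬ IsSquare (a : k)) (hab : ¬ IsSquare ((a : k) * b)) :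
    ∃ T', GoodT S T' b ∧ T'.card = T.card + 1 := by
  classical
  obtain ⟨v, hv, h2, _, _, hbv, hav⟩ := exists_sep a b hb ha hab (S ∪ T)
  rw [Finset.mem_union, not_or] at hv
  refine ⟨insert v T, ?_, Finset.card_insert_of_notMem hv.2⟩
  constructor
  · intro v' hv'
    rcases Finset.mem_insert.mp hv' with rfl | hv'
    · exact h2
    · exact h.odd v' hv'
  · intro v' hv'
    rcases Finset.mem_insert.mp hv' with rfl | hv'
    · exact hv.1
    · exact h.notS v' hv'
  · intro v' hv'
    rcases Finset.mem_insert.mp hv' with rfl | hv'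
    · exact hbv
    · exact h.bsq v' hv'
  · intro v' hv'
    rcases Finset.mem_insert.mp hv' with rfl | hv'
    · refine ⟨a, haS, hav, fun v'' hv'' hne => ?_⟩
      rcases Finset.mem_insert.mp hv'' with rfl | hv''
      · exact absurd rfl hne
      · exact haT v'' hv''
    · obtain ⟨u, hu1, hu2, hu3⟩ := h.dual v' hv'
      have hov : o v u = 0 := hu1 v (by simpa using hv.1)
      have hoav : o v a = 0 := haS v (by simpa using hv.1)
      by_cases huv : u ∈ LSq v
      · refine ⟨u, hu1, hu2, fun v'' hv'' hne => ?_⟩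
        rcases Finset.mem_insert.mp hv'' with rfl | hv''
        · exact huv
        · exact hu3 v'' hv'' hne
      · refine ⟨u * a, Subgroup.mul_mem _ hu1 haS, ?_, fun v'' hv'' hne => ?_⟩
        · rw [Subgroup.mul_mem_cancel_right _ (haT v' hv')]
          exact hu2
        · rcases Finset.mem_insert.mp hv'' with rfl | hv''
          · exact mul_mem_LSq _ h2 hov hoav huv hav
          · exact Subgroup.mul_mem _ (hu3 v'' hv'' hne) (haT v'' hv'')

/-- existence of a complete auxiliary set -/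
theorem exists_T (S : Finset (HeightOneSpectrum (𝓞 k))) {b : kˣ} (hb : ¬ IsSquare (b : k)) :
    ∃ T, GoodT S T b ∧ ∀ a ∈ SU (S : Set (HeightOneSpectrum (𝓞 k))) k, (∀ v ∈ T, a ∈ LSq v) →
      IsSquare (a : k) ∨ IsSquare ((a : k) * b) := by
  classical
  let P : ℕ → Prop := fun n => ∃ T, GoodT S T b ∧ T.card = n
  have hP0 : P 0 := ⟨∅, goodT_empty S b, rfl⟩
  have hbound : ∀ n, P n → n ≤ Units.rank k + 1 + S.card := by
    rintro n ⟨T, hT, rfl⟩
    exact hT.card_le
  have h1 : P (Nat.findGreatest P (Units.rank k + 1 + S.card)) :=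
    Nat.findGreatest_spec (m := 0) (Nat.zero_le _) hP0
  obtain ⟨T, hT, hcard⟩ := h1
  refine ⟨T, hT, fun a ha haT => ?_⟩
  by_contra hcon
  rw [not_or] at hcon
  obtain ⟨T', hT', hcard'⟩ := hT.extend hb ha haT hcon.1 hcon.2
  have h2 : P (T.card + 1) := ⟨T', hT', hcard'⟩
  have h3 := Nat.le_findGreatest (hbound _ h2) h2
  omega

/-- a complete auxiliary set is large -/
theorem card_T_ge {S T : Finset (HeightOneSpectrum (𝓞 k))} {b : kˣ} (hT : GoodT S T b)
    (h : ∀ a ∈ SU (S : Set (HeightOneSpectrum (𝓞 k))) k, (∀ v ∈ T, a ∈ LSq v) →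
      IsSquare (a : k) ∨ IsSquare ((a : k) * b)) :
    Units.rank k + 1 + S.card ≤ T.card + 1 := by
  classical
  let pat : kˣ → (T → Bool) := fun x v => decide (x ∈ LSq v.1)
  let rep : (T → Bool) → kˣ := fun p =>
    if h : ∃ x ∈ SU (S : Set (HeightOneSpectrum (𝓞 k))) k, pat x = p then h.choose else 1
  have hrep : ∀ x ∈ SU (S : Set (HeightOneSpectrum (𝓞 k))) k,
      rep (pat x) ∈ SU (S : Set (HeightOneSpectrum (𝓞 k))) k ∧ pat (rep (pat x)) = pat x := by
    intro x hx
    have h1 : ∃ y ∈ SU (S : Set (HeightOneSpectrum (𝓞 k))) k, pat y = pat x := ⟨x, hx, rfl⟩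
    simp only [rep, dif_pos h1]
    exact h1.choose_spec
  have hpat : ∀ x ∈ SU (S : Set (HeightOneSpectrum (𝓞 k))) k,
      ∀ y ∈ SU (S : Set (HeightOneSpectrum (𝓞 k))) k, pat x = pat y →
      IsSquare ((x / y : kˣ) : k) ∨ IsSquare (((x / y : kˣ) : k) * b) := by
    intro x hx y hy hxy
    apply h _ (Subgroup.div_mem _ hx hy)
    intro v hv
    have h1 := congrFun hxy ⟨v, hv⟩
    simp only [pat, decide_eq_decide] at h1
    by_cases hxv : x ∈ LSq v
    · exact Subgroup.div_mem _ hxv (h1.mp hxv)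
    · have hyv : y ∉ LSq v := fun h' => hxv (h1.mpr h')
      have hyv' : y⁻¹ ∉ LSq v := fun h' => hyv (by simpa using (LSq v).inv_mem h')
      rw [div_eq_mul_inv]
      have hvS := hT.notS v hv
      refine mul_mem_LSq v (hT.odd v hv) (hx v (by simpa using hvS)) ?_ hxv hyv'
      rw [o_inv, hy v (by simpa using hvS), neg_zero]
  have key := (relIndex_le_card (sqS (SU (S : Set (HeightOneSpectrum (𝓞 k))) k))
    (SU (S : Set (HeightOneSpectrum (𝓞 k))) k)
    (fun x => (pat x, decide (IsSquare ((x / rep (pat x) : kˣ) : k)))) (by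
      intro x hx y hy hxy
      have h1 : pat x = pat y := congrArg Prod.fst hxy
      have h2 := congrArg Prod.snd hxy
      simp only [decide_eq_decide] at h2
      obtain ⟨hr1, hr2⟩ := hrep x hx
      rw [isSquare_iff_mem _ (Subgroup.div_mem _ hx hy)]
      rw [← h1] at h2
      set r := rep (pat x) with hr
      have hx1 := hpat x hx r hr1 hr2.symm
      have hy1 := hpat y hy r hr1 (h1.symm.trans hr2.symm)
      have hr0 : (r : k) ≠ 0 := r.ne_zero
      have hx0 : (x : k) ≠ 0 := x.ne_zero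
      have hy0 : (y : k) ≠ 0 := y.ne_zero
      have hb0 : (b : k) ≠ 0 := b.ne_zero
      by_cases hsx : IsSquare ((x / r : kˣ) : k)
      · have hsy := h2.mp hsx
        have h3 := hsx.div hsy
        rw [Units.val_div_eq_div_val, Units.val_div_eq_div_val, div_div_div_cancel_right₀ hr0] at h3
        rw [Units.val_div_eq_div_val]
        exact h3
      · have hsy : ¬ IsSquare ((y / r : kˣ) : k) := fun h' => hsx (h2.mpr h')
        have h4 := hx1.resolve_left hsx
        have h5 := hy1.resolve_left hsy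
        have h3 := h4.div h5
        rw [Units.val_div_eq_div_val, Units.val_div_eq_div_val, mul_div_mul_right _ _ hb0,
          div_div_div_cancel_right₀ hr0] at h3
        rw [Units.val_div_eq_div_val]
        exact h3)).2
  have h1 : sqI (SU (S : Set (HeightOneSpectrum (𝓞 k))) k) =
      2 ^ (Units.rank k + 1 + S.card) := sqI_SU k S
  rw [sqI] at h1
  have h3 : Nat.card ((T → Bool) × Bool) = 2 ^ (T.card + 1) := by
    rw [Nat.card_eq_fintype_card, Fintype.card_prod, Fintype.card_fun, Fintype.card_bool,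
      Fintype.card_coe, pow_succ]
  rw [h1, h3] at key
  exact (Nat.pow_le_pow_iff_right (by norm_num)).mp key

/-- adjusting by an `S`-unit at the primes of `T` -/
lemma GoodT.adjust {S T : Finset (HeightOneSpectrum (𝓞 k))} {b : kˣ} (hT : GoodT S T b)
    (D : Finset (HeightOneSpectrum (𝓞 k))) (hD : D ⊆ T) (y : kˣ) (hy : ∀ v ∈ D, o v y = 0) :
    ∃ u ∈ SU (S : Set (HeightOneSpectrum (𝓞 k))) k, ∀ v ∈ D, u * y ∈ LSq v := by
  classical
  have hd := hT.dual
  choose! u hu1 hu2 hu3 using hd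
  let E := D.filter (fun v => y ∉ LSq v)
  have hET : ∀ v ∈ E, v ∈ T := fun v hv => hD (Finset.mem_filter.mp hv).1
  refine ⟨∏ v ∈ E, u v, Subgroup.prod_mem _ fun v hv => hu1 v (hET v hv), fun v hv => ?_⟩
  have hvT := hD hv
  by_cases hyv : y ∈ LSq v
  · refine Subgroup.mul_mem _ (Subgroup.prod_mem _ fun v' hv' => ?_) hyv
    apply hu3 v' (hET v' hv') v hvT
    rintro rfl
    exact (Finset.mem_filter.mp hv').2 hyv
  · have hvE : v ∈ E := Finset.mem_filter.mpr ⟨hv, hyv⟩
    rw [← Finset.prod_erase_mul E u hvE, mul_assoc]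
    refine Subgroup.mul_mem _ (Subgroup.prod_mem _ fun v' hv' => ?_) ?_
    · obtain ⟨hne, hv''⟩ := Finset.mem_erase.mp hv'
      exact hu3 v' (hET v' hv'') v hvT hne.symm
    · exact mul_mem_LSq v (hT.odd v hvT) (hu1 v hvT v (by simpa using hT.notS v hvT)) (hy v hv)
        (hu2 v hvT) hyv

end

end Pool.Agent.Lib.QCFT
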