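import Mathlib
import Pool.Agent.Lib.QCFT.ChooseT

/-!
# Local squares at `S` are global squares
-/

set_option autoImplicit false
set_option linter.unusedSectionVars false

universe u

namespace Pool.Agent.Lib.QCFT

open IsDedekindDomain NumberField WithZero

section

variable {k : Type u} [Field k] [NumberField k] [IsTotallyComplex k]

/-- An `S ∪ T`-unit which is a local square at all primes of `S` is a square. -/
theorem square_of_local {S T : Finset (HeightOneSpectrum (𝓞 k))} {b : kˣ} (hT : GoodT S T b)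
    (hcl : ClTriv (S : Set (HeightOneSpectrum (𝓞 k))) k)
    (h2S : ∀ v, v ∉ S → v.valuation k (2 : k) = 1) (a : kˣ)
    (ha : ∀ v, v ∉ S → v ∉ T → o v a = 0) (haS : ∀ v ∈ S, a ∈ LSq v) : IsSquare (a : k) := by
  classical
  by_contra hns
  obtain ⟨F, _, _, _, _, θ, hθ⟩ := exists_quad a hns
  obtain ⟨σ, hσ⟩ := exists_aut k F
  have hσθ := sigma_theta hσ hns hθ
  have hidx := relIndex_norm (k := k) (F := F) (S ∪ T) (by
    intro w hw
    rw [Finset.mem_union, not_or] at hw
    apply ee_eq_one_of_even σ hσ hθ hσθ (h2S _ hw.1)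
    rw [ha _ hw.1 hw.2]
    exact ⟨0, rfl⟩) (hcl.mono (by
      intro v hv
      rw [Finset.coe_union]
      exact Or.inl hv))
  set N := (SU {w : HeightOneSpectrum (𝓞 F) | und k w ∈ S ∪ T} F).map (nu k F) with hN
  set U := SU ((S ∪ T : Finset (HeightOneSpectrum (𝓞 k))) : Set (HeightOneSpectrum (𝓞 k))) k
    with hU
  set I := (S ∪ T).filter (NSp F) with hI
  have hIT : ∀ v ∈ I, v ∈ T ∧ NSp F v := by
    intro v hv
    obtain ⟨h1, h2⟩ := Finset.mem_filter.mp hv
    refine ⟨(Finset.mem_union.mp h1).resolve_left fun hS => ?_, h2⟩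
    exact split_of_mem_LSq σ hσ hθ hσθ (haS v hS) h2
  have hSU : SU (S : Set (HeightOneSpectrum (𝓞 k))) k ≤ U := SU_mono (by
    intro v hv
    rw [Finset.coe_union]
    exact Or.inl hv)
  -- independent elements
  have hex : ∀ v ∈ I, ∃ x ∈ U, x ∉ NK v a ∧ ∀ v' ∈ I, v' ≠ v → x ∈ NK v' a := by
    intro v hv
    obtain ⟨hvT, hvns⟩ := hIT v hv
    by_cases hev : Even (o v a)
    · obtain ⟨p, hp1, hp2⟩ := hcl v (by simpa using hT.notS v hvT)
      obtain ⟨u, hu1, hu2⟩ := hT.adjust (T.erase v) (Finset.erase_subset v T) p (by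
        intro v' hv'
        obtain ⟨hne, hv''⟩ := Finset.mem_erase.mp hv'
        exact hp2 v' (by simpa using hT.notS v' hv'') hne)
      refine ⟨u * p, U.mul_mem (hSU hu1) ?_, ?_, ?_⟩
      · intro v' hv'
        rw [Finset.mem_coe, Finset.mem_union, not_or] at hv'
        apply hp2 v' (by simpa using hv'.1)
        rintro rfl
        exact hv'.2 hvT
      · rw [mem_NK_of_even hev, o_mul, hp1, hu1 v (by simpa using hT.notS v hvT)]
        decide
      · intro v' hv' hne
        obtain ⟨hv'T, _⟩ := hIT v' hv'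
        have hv'S := hT.notS v' hv'T
        apply mem_NK_of_mem_LSq
        · rw [o_mul, hu1 v' (by simpa using hv'S), hp2 v' (by simpa using hv'S) hne, add_zero]
        · exact hu2 v' (Finset.mem_erase.mpr ⟨hne, hv'T⟩)
    · obtain ⟨u, hu1, hu2, hu3⟩ := hT.dual v hvT
      refine ⟨u, hSU hu1, ?_, ?_⟩
      · rw [mem_NK_unit_iff hev (hu1 v (by simpa using hT.notS v hvT))]
        exact hu2
      · intro v' hv' hne
        obtain ⟨hv'T, _⟩ := hIT v' hv'
        exact mem_NK_of_mem_LSq (hu1 v' (by simpa using hT.notS v' hv'T)) (hu3 v' hv'T hne)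
  choose! x hx1 hx2 hx3 using hex
  have h0 : N.relIndex U ≠ 0 := by
    intro h
    rw [h, zero_mul] at hidx
    exact absurd hidx.symm (by positivity)
  have key := two_pow_le_relIndex (ι := I) (fun v => NK v.1 a) N U (by
      rintro ⟨v, hv⟩ y hy
      obtain ⟨z, _, rfl⟩ := hy
      obtain ⟨hvT, hvns⟩ := hIT v hv
      exact nu_mem_NK σ hσ hθ hσθ hvns (hT.odd v hvT) z)
    (fun v => x v.1) (fun v => hx1 v.1 v.2) (fun v => hx2 v.1 v.2)
    (fun v v' hne => hx3 v.1 v.2 v'.1 v'.2 (fun h => hne (Subtype.ext h))) h0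
  rw [Nat.card_eq_fintype_card, Fintype.card_coe] at key
  rw [← hidx] at key
  omega

end

end Pool.Agent.Lib.QCFT
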