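import Mathlib
import Pool.Agent.Lib.QCFT.First

/-!
# The norm theorem for `S`-units of an unramified quadratic extension
-/

set_option autoImplicit false
set_option linter.unusedSectionVars false

universe u

namespace Pool.Agent.Lib.QCFT

open IsDedekindDomain NumberField WithZero

section

variable {k : Type u} [Field k] [NumberField k]

/-- weak approximation for a uniformizer -/
lemma exists_unif_coprime (v : HeightOneSpectrum (𝓞 k)) (S : Finset (HeightOneSpectrum (𝓞 k))) :
    ∃ x : kˣ, o v x = 1 ∧ ∀ v' ∈ S, v' ≠ v → o v' x = 0 := by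
  classical
  obtain ⟨p, hp⟩ := v.intValuation_exists_uniformizer
  obtain ⟨y, hy⟩ := IsDedekindDomain.exists_forall_sub_mem_ideal (s := insert v S)
    (fun w : HeightOneSpectrum (𝓞 k) => w.asIdeal) (fun _ => 2) (fun w _ => w.prime)
    (fun w _ w' _ hne h => hne (HeightOneSpectrum.ext h))
    (fun w => if w.1 = v then p else 1)
  have hv : v.intValuation y = exp (-1 : ℤ) := by
    have h1 := hy v (Finset.mem_insert_self v S)
    rw [if_pos rfl] at h1
    have h2 : v.intValuation (y - p) ≤ exp (-(2 : ℕ) : ℤ) :=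
      (v.intValuation_le_pow_iff_mem _ 2).mpr h1
    have h3 : v.intValuation (y - p) < v.intValuation p := by
      rw [hp]
      refine lt_of_le_of_lt h2 ?_
      rw [exp_lt_exp]; norm_num
    have h4 := Valuation.map_add_eq_of_lt_right v.intValuation h3
    rwa [sub_add_cancel, hp] at h4
  have hv' : ∀ v' ∈ S, v' ≠ v → v'.intValuation y = 1 := by
    intro v' hv'S hne
    have h1 := hy v' (Finset.mem_insert_of_mem hv'S)
    rw [if_neg hne] at h1
    have h2 : v'.intValuation (y - 1) ≤ exp (-(2 : ℕ) : ℤ) :=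
      (v'.intValuation_le_pow_iff_mem _ 2).mpr h1
    have h3 : v'.intValuation (y - 1) < 1 := by
      refine lt_of_le_of_lt h2 ?_
      rw [← exp_zero, exp_lt_exp]; norm_num
    have h4 := v'.intValuation.map_one_add_of_lt h3
    rwa [add_sub_cancel] at h4
  have hy0 : algebraMap (𝓞 k) k y ≠ 0 := by
    rw [ne_eq, FaithfulSMul.algebraMap_eq_zero_iff]
    rintro rfl
    rw [map_zero] at hv
    exact exp_ne_zero hv.symm
  refine ⟨Units.mk0 _ hy0, ?_, fun v' h1 h2 => ?_⟩
  · rw [o_eq_iff, Units.val_mk0, HeightOneSpectrum.valuation_of_algebraMap, hv]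
  · rw [o_eq_zero_iff, Units.val_mk0, HeightOneSpectrum.valuation_of_algebraMap, hv' v' h1 h2]

lemma two_mem_pow_e2 (v : HeightOneSpectrum (𝓞 k)) : (2 : 𝓞 k) ∈ v.asIdeal ^ e2 k v := by
  have h1 : algebraMap (𝓞 k) k 2 = 2 := map_ofNat _ 2
  have h2 : v.valuation k (algebraMap (𝓞 k) k 2) ≤ exp (-(e2 k v : ℤ)) := by
    rw [h1, val_two_eq]
  rw [HeightOneSpectrum.valuation_of_algebraMap] at h2
  exact (v.intValuation_le_pow_iff_mem _ _).mp h2

lemma prod_card_le (S : Finset (HeightOneSpectrum (𝓞 k))) :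
    ∏ v ∈ S, Nat.card (𝓞 k ⧸ v.asIdeal ^ e2 k v) ≤ 2 ^ Module.finrank ℚ k := by
  have h1 : ∏ v ∈ S, Nat.card (𝓞 k ⧸ v.asIdeal ^ e2 k v) =
      Ideal.absNorm (∏ v ∈ S, v.asIdeal ^ e2 k v) := by
    rw [map_prod]
    rfl
  have h2 : (∏ v ∈ S, v.asIdeal ^ e2 k v) ∣ Ideal.span {(2 : 𝓞 k)} := by
    apply Finset.prod_dvd_of_coprime
    · intro v _ v' _ hne
      exact (HeightOneSpectrum.isCoprime_of_ne v v' hne).pow
    · intro v _
      rw [Ideal.dvd_span_singleton]
      exact two_mem_pow_e2 v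
  have h3 := map_dvd Ideal.absNorm h2
  have h4 : Ideal.absNorm (Ideal.span {(2 : 𝓞 k)}) = 2 ^ Module.finrank ℚ k := by
    have := Ideal.absNorm_span_natCast (S := 𝓞 k) 2
    rw [RingOfIntegers.rank] at this
    exact_mod_cast this
  rw [h1, ← h4]
  exact Nat.le_of_dvd (by rw [h4]; positivity) h3

/-- local squares at all primes of `S` -/
noncomputable def LS (S : Finset (HeightOneSpectrum (𝓞 k))) : Subgroup kˣ := ⨅ v : S, LSq v.1

lemma mem_LS {S : Finset (HeightOneSpectrum (𝓞 k))} {x : kˣ} :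
    x ∈ LS S ↔ ∀ v ∈ S, x ∈ LSq v := by
  rw [LS, Subgroup.mem_iInf]
  exact ⟨fun h v hv => h ⟨v, hv⟩, fun h v => h v.1 v.2⟩

lemma LS_index (S : Finset (HeightOneSpectrum (𝓞 k))) : (LS S).index ≠ 0 ∧
    (LS S).index ≤ 2 ^ (2 * S.card + Module.finrank ℚ k) := by
  classical
  constructor
  · exact Subgroup.index_iInf_ne_zero fun v => (LSq_index v.1).1
  · refine (Subgroup.index_iInf_le _).trans ?_
    calc ∏ v : S, (LSq v.1).index ≤ ∏ v : S, (4 * Nat.card (𝓞 k ⧸ v.1.asIdeal ^ e2 k v.1)) :=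
          Finset.prod_le_prod' fun v _ => (LSq_index v.1).2
      _ = ∏ v ∈ S, (4 * Nat.card (𝓞 k ⧸ v.asIdeal ^ e2 k v)) :=
          Finset.prod_coe_sort S (fun v => 4 * Nat.card (𝓞 k ⧸ v.asIdeal ^ e2 k v))
      _ = 4 ^ S.card * ∏ v ∈ S, Nat.card (𝓞 k ⧸ v.asIdeal ^ e2 k v) := by
          rw [Finset.prod_mul_distrib, Finset.prod_const]
      _ ≤ 4 ^ S.card * 2 ^ Module.finrank ℚ k := Nat.mul_le_mul_left _ (prod_card_le S)
      _ = _ := by
          rw [pow_add, pow_mul]
          norm_num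

/-- elements of even valuation at given primes -/
def EvS (I : Finset (HeightOneSpectrum (𝓞 k))) : Subgroup kˣ where
  carrier := {x | ∀ v ∈ I, Even (o v x)}
  one_mem' := fun v _ => by rw [o_one]; exact ⟨0, rfl⟩
  mul_mem' := fun hx hy v hv => by rw [o_mul]; exact (hx v hv).add (hy v hv)
  inv_mem' := fun hx v hv => by rw [o_inv]; exact (hx v hv).neg

lemma mem_EvS {I : Finset (HeightOneSpectrum (𝓞 k))} {x : kˣ} :
    x ∈ EvS I ↔ ∀ v ∈ I, Even (o v x) := Iff.rfl

lemma LS_le_EvS {S I : Finset (HeightOneSpectrum (𝓞 k))} (h : I ⊆ S) : LS S ≤ EvS I :=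
  fun _ hx v hv => even_of_mem_LSq v (mem_LS.mp hx v (h hv))

lemma two_pow_le_EvS_index (I : Finset (HeightOneSpectrum (𝓞 k))) :
    2 ^ I.card ≤ (EvS I).index := by
  classical
  have h0 : (EvS I).index ≠ 0 := by
    have h1 := Subgroup.index_dvd_of_le (LS_le_EvS (Finset.Subset.refl I))
    intro h
    rw [h, zero_dvd_iff] at h1
    exact (LS_index I).1 h1
  choose x hx1 hx2 using fun v : HeightOneSpectrum (𝓞 k) => exists_unif_coprime v I
  have key := two_pow_le_relIndex (ι := I) (fun v => EvS {v.1}) (EvS I) ⊤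
    (by
      intro v y hy v' hv'
      rw [Finset.mem_singleton] at hv'
      subst hv'
      exact hy _ v.2)
    (fun v => x v.1) (fun _ => trivial)
    (by
      intro v h
      have := h v.1 (Finset.mem_singleton_self _)
      rw [hx1] at this
      exact absurd this (by decide))
    (by
      intro v v' hne w hw
      rw [Finset.mem_singleton] at hw
      subst hw
      rw [hx2 v.1 v'.1 v'.2 (fun h => hne (Subtype.ext h))]
      exact ⟨0, rfl⟩) (by rwa [Subgroup.relIndex_top_right])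
  rwa [Nat.card_eq_fintype_card, Fintype.card_coe, Subgroup.relIndex_top_right] at key

end

section

variable {k : Type u} [Field k] [NumberField k] [IsTotallyComplex k]
  {M : Type*} [Field M] [NumberField M] [Algebra k M] [Algebra.IsQuadraticExtension k M]

lemma o_nu_eq {σ : M ≃ₐ[k] M} (hσ : σ ≠ 1) (hunr : ∀ w : HeightOneSpectrum (𝓞 M), ee k w = 1)
    (w : HeightOneSpectrum (𝓞 M)) (z : Mˣ) :
    o (und k w) (nu k M z) = o w z + o (sp σ w) z := by
  have h := o_bc w (nu k M z)
  rw [bc_nu σ hσ, o_mul, o_su' σ hσ, hunr w] at h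
  rw [h]
  norm_num

/-- The norm theorem for `S`-units. -/
theorem norm_SU (S : Finset (HeightOneSpectrum (𝓞 k)))
    (hunr : ∀ w : HeightOneSpectrum (𝓞 M), ee k w = 1)
    (hcl : ClTriv (S : Set (HeightOneSpectrum (𝓞 k))) k)
    (hclM : ClTriv {w : HeightOneSpectrum (𝓞 M) | und k w ∈ S} M)
    (h2S : ∀ v, v ∉ S → v.valuation k (2 : k) = 1)
    {b : kˣ} (hb : ¬ IsSquare (b : k)) {θ : Mˣ} (hθ : θ ^ 2 = bc k M b)
    (a : kˣ) (ha : a ∈ SU (S : Set (HeightOneSpectrum (𝓞 k))) k)
    (hpar : ∀ v ∈ S, NSp M v → Even (o v a)) : ∃ z : Mˣ, nu k M z = a := by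
  classical
  obtain ⟨σ, hσ⟩ := exists_aut k M
  have hσθ := sigma_theta hσ hb hθ
  obtain ⟨T, hT, hTc⟩ := exists_T S hb
  have hcard := card_T_ge hT hTc
  have hidx := relIndex_norm (k := k) (F := M) S (fun w _ => hunr w) hcl
  set N := (SU {w : HeightOneSpectrum (𝓞 M) | und k w ∈ S} M).map (nu k M) with hN
  set U := SU (S : Set (HeightOneSpectrum (𝓞 k))) k with hU
  set I := S.filter (NSp M) with hI
  set U' := SU ((S ∪ T : Finset (HeightOneSpectrum (𝓞 k))) : Set (HeightOneSpectrum (𝓞 k))) k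
    with hU'
  have hUU' : U ≤ U' := SU_mono (by
    intro v hv
    rw [Finset.coe_union]
    exact Or.inl hv)
  have hdisj : Disjoint S T := by
    rw [Finset.disjoint_right]
    exact fun v hv => hT.notS v hv
  -- norms have even valuation at nonsplit primes
  have hnuEv : ∀ z : Mˣ, nu k M z ∈ EvS I := by
    intro z v hv
    obtain ⟨w, rfl⟩ := exists_und_eq M v
    have hw : sp σ w = w := (NSp_iff σ hσ).mp (Finset.mem_filter.mp hv).2
    rw [o_nu_eq hσ hunr, hw]
    exact ⟨_, rfl⟩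
  -- step 1
  have h1 : (LS S).relIndex U' = 2 ^ (Units.rank k + 1 + (S ∪ T).card) := by
    rw [← sqI_SU k (S ∪ T), sqI, ← Subgroup.inf_relIndex_right (LS S) U',
      ← Subgroup.inf_relIndex_right (sqS U') U']
    congr 1
    apply le_antisymm
    · rintro x ⟨hx1, hx2⟩
      refine ⟨?_, hx2⟩
      have hx3 : ∀ v, v ∉ S → v ∉ T → o v x = 0 := by
        intro v hv1 hv2
        exact hx2 v (by
          rw [Finset.mem_coe, Finset.mem_union, not_or]
          exact ⟨hv1, hv2⟩)
      have h := square_of_local hT hcl h2S x hx3 (mem_LS.mp hx1)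
      exact (isSquare_iff_mem _ hx2).mpr h
    · rintro x ⟨hx1, hx2⟩
      refine ⟨?_, hx2⟩
      obtain ⟨y, _, rfl⟩ := mem_sqS.mp hx1
      exact mem_LS.mpr fun v _ => sq_mem_LSq v y
  rw [Finset.card_union_of_disjoint hdisj] at h1
  -- step 2
  have hrk := two_mul_rank_add_one k
  have h2 : (LS S ⊔ U').index ≤ 2 ∧ (LS S ⊔ U').index ≠ 0 := by
    have e1 : (LS S).relIndex (LS S ⊔ U') * (LS S ⊔ U').index = (LS S).index :=
      Subgroup.relIndex_mul_index le_sup_left
    rw [sup_comm, Subgroup.relIndex_sup_right, sup_comm, h1] at e1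
    obtain ⟨e2, e3⟩ := LS_index S
    rw [← e1] at e2 e3
    refine ⟨?_, fun h => e2 (by rw [h, mul_zero])⟩
    have e4 : 2 ^ (2 * S.card + Module.finrank ℚ k) ≤
        2 ^ (Units.rank k + 1 + (S.card + T.card)) * 2 := by
      rw [← pow_succ]
      exact Nat.pow_le_pow_right (by norm_num) (by omega)
    exact Nat.le_of_mul_le_mul_left (e3.trans e4) (by positivity)
  -- step 3
  have h3 : U' ⊔ EvS I = U ⊔ EvS I := by
    apply le_antisymm
    · refine sup_le ?_ le_sup_right
      intro x hx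
      -- norms from split primes
      have hsp : ∀ v ∈ T, ∃ z : Mˣ, o v (nu k M z) = 1 ∧
          ∀ v', v' ∉ S → v' ≠ v → o v' (nu k M z) = 0 := by
        intro v hv
        have hnsp := split_of_mem_LSq σ hσ hθ hσθ (hT.bsq v hv)
        obtain ⟨w, rfl⟩ := exists_und_eq M v
        have hw : sp σ w ≠ w := fun h => hnsp ((NSp_iff σ hσ).mpr h)
        have hvS := hT.notS _ hv
        obtain ⟨z, hz1, hz2⟩ := hclM w hvS
        refine ⟨z, ?_, ?_⟩
        · rw [o_nu_eq hσ hunr, hz1, hz2 (sp σ w) (by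
            change und k (sp σ w) ∉ S
            rw [und_sp]; exact hvS) hw]
          rfl
        · intro v' hv' hne
          obtain ⟨w', rfl⟩ := exists_und_eq M v'
          rw [o_nu_eq hσ hunr, hz2 w' hv' (by rintro rfl; exact hne rfl), hz2 (sp σ w') (by
            change und k (sp σ w') ∉ S
            rw [und_sp]; exact hv') (by
              intro h
              apply hne
              rw [← h, und_sp])]
          rfl
      choose! z hz1 hz2 using hsp
      have hx' : x * (∏ v ∈ T, (nu k M (z v)) ^ (o v x))⁻¹ ∈ U := by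
        intro v' hv'
        have hv'S : v' ∉ S := by simpa using hv'
        rw [o_mul, o_inv, o_prod]
        by_cases hv'T : v' ∈ T
        · rw [Finset.sum_eq_single_of_mem v' hv'T]
          · rw [o_zpow, hz1 v' hv'T]
            ring
          · intro v hv hne
            rw [o_zpow, hz2 v hv v' hv'S hne.symm, mul_zero]
        · rw [hx v' (by
            rw [Finset.mem_coe, Finset.mem_union, not_or]
            exact ⟨hv'S, hv'T⟩), Finset.sum_eq_zero]
          · ring
          · intro v hv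
            rw [o_zpow, hz2 v hv v' hv'S (by rintro rfl; exact hv'T hv), mul_zero]
      have h5 : x = (x * (∏ v ∈ T, (nu k M (z v)) ^ (o v x))⁻¹) *
          ∏ v ∈ T, (nu k M (z v)) ^ (o v x) := (inv_mul_cancel_right x _).symm
      rw [h5]
      exact Subgroup.mul_mem_sup hx'
        (Subgroup.prod_mem _ fun v _ => Subgroup.zpow_mem _ (hnuEv _) _)
    · exact sup_le (hUU'.trans le_sup_left) le_sup_right
  have h4 : 2 ^ I.card ≤ (EvS I).relIndex U * 2 := by
    have e1 : (EvS I).relIndex (EvS I ⊔ U') * (EvS I ⊔ U').index = (EvS I).index :=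
      Subgroup.relIndex_mul_index le_sup_left
    have e2 : (EvS I).relIndex (EvS I ⊔ U') = (EvS I).relIndex U := by
      rw [sup_comm, h3, Subgroup.relIndex_sup_right]
    have e3 : (EvS I ⊔ U').index ≤ 2 := by
      have e4 : LS S ⊔ U' ≤ EvS I ⊔ U' :=
        sup_le_sup_right (LS_le_EvS (Finset.filter_subset _ _)) _
      exact (Nat.le_of_dvd (Nat.pos_of_ne_zero h2.2) (Subgroup.index_dvd_of_le e4)).trans h2.1
    calc 2 ^ I.card ≤ (EvS I).index := two_pow_le_EvS_index I
      _ = (EvS I).relIndex U * (EvS I ⊔ U').index := by rw [← e1, e2]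
      _ ≤ _ := Nat.mul_le_mul_left _ e3
  -- step 4
  have hNle : N ≤ EvS I ⊓ U := by
    rintro _ ⟨y, hy, rfl⟩
    refine ⟨hnuEv y, ?_⟩
    intro v hv
    obtain ⟨w, rfl⟩ := exists_und_eq M v
    have hv' : und k w ∉ S := by simpa using hv
    rw [o_nu_eq hσ hunr, hy w hv', hy (sp σ w) (by
      change und k (sp σ w) ∉ S
      rw [und_sp]; exact hv')]
    rfl
  have e5 : N.relIndex (EvS I ⊓ U) * (EvS I ⊓ U).relIndex U = N.relIndex U :=
    Subgroup.relIndex_mul_relIndex _ _ _ hNle inf_le_right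
  rw [Subgroup.inf_relIndex_right] at e5
  rw [← e5] at hidx
  have e6 : N.relIndex (EvS I ⊓ U) * ((EvS I).relIndex U * 2) ≤ 1 * ((EvS I).relIndex U * 2) := by
    rw [one_mul, ← mul_assoc, hidx]
    exact h4
  have e7 : 0 < (EvS I).relIndex U * 2 := lt_of_lt_of_le (by positivity) h4
  have e8 := Nat.le_of_mul_le_mul_right e6 e7
  have e9 : N.relIndex (EvS I ⊓ U) ≠ 0 := by
    intro h
    rw [h, zero_mul, zero_mul] at hidx
    exact absurd hidx.symm (by positivity)
  have e10 : N.relIndex (EvS I ⊓ U) = 1 := by omega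
  have e11 := Subgroup.relIndex_eq_one.mp e10
  have haN : a ∈ N := e11 ⟨by
    intro v hv
    obtain ⟨hvS, hvn⟩ := Finset.mem_filter.mp hv
    exact hpar v hvS hvn, ha⟩
  obtain ⟨y, _, hy⟩ := haN
  exact ⟨y, hy⟩

end

end Pool.Agent.Lib.QCFT
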