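import Mathlib
import Pool.Agent.Lib.QCFT.Second

/-!
# A finite set of primes killing the class group
-/

set_option autoImplicit false
set_option linter.unusedSectionVars false

namespace Pool.Agent.Lib.QCFT

open IsDedekindDomain NumberField WithZero

section

variable (K : Type*) [Field K] [NumberField K]

theorem exists_ClTriv : ∃ S : Finset (HeightOneSpectrum (𝓞 K)),
    ClTriv (S : Set (HeightOneSpectrum (𝓞 K))) K := by
  classical
  choose I hI using ClassGroup.mk0_surjective (R := 𝓞 K)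
  have hfin : ∀ c : ClassGroup (𝓞 K), {v : HeightOneSpectrum (𝓞 K) | v.asIdeal ∣ (I c : Ideal (𝓞 K))}.Finite :=
    fun c => Ideal.finite_factors (nonZeroDivisors.coe_ne_zero (I c))
  refine ⟨Finset.univ.biUnion fun c => (hfin c).toFinset, fun v hv => ?_⟩
  have hvS : ∀ w : HeightOneSpectrum (𝓞 K),
      w ∉ ((Finset.univ.biUnion fun c => (hfin c).toFinset : Finset (HeightOneSpectrum (𝓞 K))) :
        Set (HeightOneSpectrum (𝓞 K))) → ∀ c, ¬ w.asIdeal ∣ (I c : Ideal (𝓞 K)) := by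
    intro w hw c hc
    apply hw
    rw [Finset.mem_coe, Finset.mem_biUnion]
    exact ⟨c, Finset.mem_univ _, by rw [Set.Finite.mem_toFinset]; exact hc⟩
  have hv0 : v.asIdeal ∈ nonZeroDivisors (Ideal (𝓞 K)) := mem_nonZeroDivisors_of_ne_zero v.ne_bot
  set c := (ClassGroup.mk0 (⟨v.asIdeal, hv0⟩ : nonZeroDivisors (Ideal (𝓞 K))))⁻¹ with hc
  have h1 : ClassGroup.mk0 ((⟨v.asIdeal, hv0⟩ : nonZeroDivisors (Ideal (𝓞 K))) * I c) = 1 := by
    rw [map_mul, hI, hc, mul_inv_cancel]
  rw [ClassGroup.mk0_eq_one_iff] at h1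
  obtain ⟨x, hx⟩ := h1
  have hx' : v.asIdeal * (I c : Ideal (𝓞 K)) = Ideal.span {x} := hx
  have hIc : (I c : Ideal (𝓞 K)) ≠ 0 := nonZeroDivisors.coe_ne_zero (I c)
  have hx0 : x ≠ 0 := by
    rintro rfl
    rw [Ideal.span_singleton_eq_bot.mpr rfl] at hx'
    exact (mul_ne_zero v.ne_bot hIc) hx'
  have hx1 : algebraMap (𝓞 K) K x ≠ 0 := by
    rwa [ne_eq, FaithfulSMul.algebraMap_eq_zero_iff]
  refine ⟨Units.mk0 _ hx1, ?_, ?_⟩
  · rw [o_eq_iff, Units.val_mk0, HeightOneSpectrum.valuation_of_algebraMap]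
    have h2 : v.intValuation x ≤ exp (-((1 : ℕ) : ℤ)) := by
      rw [HeightOneSpectrum.intValuation_le_pow_iff_mem, pow_one]
      have h3 : Ideal.span {x} ≤ v.asIdeal := by
        rw [← hx']; exact Ideal.mul_le_left
      exact h3 (Ideal.mem_span_singleton_self x)
    have h3 : ¬ v.intValuation x ≤ exp (-((2 : ℕ) : ℤ)) := by
      rw [HeightOneSpectrum.intValuation_le_pow_iff_mem, ← Ideal.dvd_span_singleton, ← hx', sq]
      intro h
      exact hvS v hv c ((mul_dvd_mul_iff_left v.ne_bot).mp h)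
    have h4 := val_eq v (Units.mk0 _ hx1)
    rw [Units.val_mk0, HeightOneSpectrum.valuation_of_algebraMap] at h4
    rw [h4, exp_le_exp] at h2 h3
    rw [h4, exp_inj]
    push_cast at h2 h3
    omega
  · intro w hw hne
    rw [o_eq_zero_iff, Units.val_mk0, HeightOneSpectrum.valuation_of_algebraMap,
      HeightOneSpectrum.intValuation_eq_one_iff]
    intro h
    have h3 : w.asIdeal ∣ v.asIdeal * (I c : Ideal (𝓞 K)) := by
      rw [hx', Ideal.dvd_span_singleton]
      exact h
    rcases w.prime.dvd_or_dvd h3 with h4 | h4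
    · apply hne
      apply HeightOneSpectrum.ext
      have h5 : v.asIdeal ≤ w.asIdeal := Ideal.le_of_dvd h4
      exact (v.isMaximal.eq_of_le w.isPrime.ne_top h5).symm
    · exact hvS w hw c h4

end

section

variable {k : Type*} [Field k] [NumberField k] {M : Type*} [Field M] [NumberField M] [Algebra k M]
  [Algebra.IsQuadraticExtension k M]

/-- generator of a quadratic extension -/
theorem exists_theta : ∃ (b : kˣ) (θ : Mˣ), ¬ IsSquare (b : k) ∧ θ ^ 2 = bc k M b := by
  obtain ⟨σ, hσ⟩ := exists_aut k M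
  obtain ⟨z, hz⟩ : ∃ z : M, σ z ≠ z := by
    by_contra hcon
    push Not at hcon
    exact hσ (AlgEquiv.ext hcon)
  have h0 : z - σ z ≠ 0 := fun h' => hz (sub_eq_zero.mp h').symm
  have hσθ : σ (z - σ z) = -(z - σ z) := by
    rw [map_sub, sigma_sigma σ hσ]; ring
  obtain ⟨b, hb⟩ := sigma_fixed σ hσ ((z - σ z) ^ 2) (by rw [map_pow, hσθ]; ring)
  have hb0 : b ≠ 0 := by
    rintro rfl
    rw [map_zero] at hb
    exact pow_ne_zero 2 h0 hb.symm
  refine ⟨Units.mk0 b hb0, Units.mk0 _ h0, ?_, Units.ext hb.symm⟩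
  rintro ⟨c, hc⟩
  rw [Units.val_mk0] at hc
  have h1 : (z - σ z) ^ 2 = (algebraMap k M c) ^ 2 := by
    rw [← hb, hc, map_mul, sq]
  have h2 : σ (z - σ z) = z - σ z := by
    rcases sq_eq_sq_iff_eq_or_eq_neg.mp h1 with h | h
    · rw [h, σ.commutes]
    · rw [h, map_neg, σ.commutes]
  rw [h2] at hσθ
  have h3 : (2 : M) * (z - σ z) = 0 := by linear_combination hσθ
  rcases mul_eq_zero.mp h3 with h | h
  · exact two_ne_zero h
  · exact h0 h

/-- a nonsplit unramified prime stays prime -/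
theorem isPrime_map_of_NSp {v : HeightOneSpectrum (𝓞 k)} (hns : NSp M v)
    (hunr : ∀ w : HeightOneSpectrum (𝓞 M), ee k w = 1) :
    (v.asIdeal.map (algebraMap (𝓞 k) (𝓞 M))).IsPrime := by
  classical
  obtain ⟨w, hw⟩ := exists_und_eq M v
  have hmax : v.asIdeal.IsMaximal := v.isMaximal
  have h1 := Ideal.map_algebraMap_eq_finsetProd_pow (R := 𝓞 M) (p := v.asIdeal) v.ne_bot
  have h2 : (v.asIdeal.primesOver (𝓞 M)).toFinset = {w.asIdeal} := by
    ext P
    rw [Set.mem_toFinset, Finset.mem_singleton]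
    constructor
    · rintro ⟨hP1, hP2⟩
      have hP0 : P ≠ ⊥ := by
        intro h
        have h3 : v.asIdeal = P.under (𝓞 k) := hP2.over
        rw [h] at h3
        apply v.ne_bot
        rw [h3]
        exact Ideal.comap_bot_of_injective _ (FaithfulSMul.algebraMap_injective (𝓞 k) (𝓞 M))
      have h4 : und k (⟨P, hP1, hP0⟩ : HeightOneSpectrum (𝓞 M)) = v :=
        HeightOneSpectrum.ext hP2.over.symm
      have h5 := hns _ w h4 hw
      exact congrArg HeightOneSpectrum.asIdeal h5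
    · rintro rfl
      refine ⟨w.isPrime, ⟨?_⟩⟩
      rw [← hw]
      rfl
  have h3 : w.asIdeal.ramificationIdx (𝓞 k) = 1 := hunr w
  rw [h1, h2, Finset.prod_singleton, h3, pow_one]
  exact w.isPrime

end

end Pool.Agent.Lib.QCFT
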