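import Mathlib
import Pool.Agent.Lib.QCFT.Second
import Pool.Agent.Lib.QCFT.ClFin

/-!
# The Hasse norm theorem for quadratic extensions of totally complex fields,
unramified at the primes above `2`
-/

set_option autoImplicit false
set_option linter.unusedSectionVars false

universe u

namespace Pool.Agent.Lib.QCFT

open IsDedekindDomain NumberField WithZero

section

variable {k : Type u} [Field k] [NumberField k]

lemma val_four_eq (v : HeightOneSpectrum (𝓞 k)) :
    v.valuation k (4 : k) = exp (-(2 * e2 k v : ℤ)) := by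
  rw [val_four, val_two_eq, ← exp_add]
  congr 1
  ring

/-- weak approximation: an element close to a given local element at `v`, and close to `1` at
finitely many other primes -/
lemma exists_approx_OU (v : HeightOneSpectrum (𝓞 k)) (S : Finset (HeightOneSpectrum (𝓞 k)))
    (y : kˣ) (hy : 0 ≤ o v y) :
    ∃ x : kˣ, x / y ∈ OU v ∧ ∀ v' ∈ S, v' ≠ v → x ∈ OU v' := by
  classical
  have hyval : v.valuation k (y : k) ≤ 1 := (o_nonneg_iff v).mp hy
  obtain ⟨n, hn⟩ : ∃ n : ℕ, (n : ℤ) = 2 * e2 k v + o v y + 1 :=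
    ⟨(2 * e2 k v + o v y + 1).toNat, by rw [Int.toNat_of_nonneg]; omega⟩
  obtain ⟨r, hr⟩ := exists_approx v n hyval
  obtain ⟨x, hx⟩ := IsDedekindDomain.exists_forall_sub_mem_ideal (s := insert v S)
    (fun w : HeightOneSpectrum (𝓞 k) => w.asIdeal)
    (fun w => if w = v then n else 2 * e2 k w + 1) (fun w _ => w.prime)
    (fun w _ w' _ hne h => hne (HeightOneSpectrum.ext h))
    (fun w => if w.1 = v then r else 1)
  have hv : v.valuation k (algebraMap (𝓞 k) k x - y) ≤ exp (-(n : ℤ)) := by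
    have h1 := hx v (Finset.mem_insert_self v S)
    simp only [if_true] at h1
    have h2 : v.valuation k (algebraMap (𝓞 k) k (x - r)) ≤ exp (-(n : ℕ) : ℤ) := by
      rw [HeightOneSpectrum.valuation_of_algebraMap]
      exact (v.intValuation_le_pow_iff_mem _ n).mpr h1
    rw [map_sub] at h2
    have e : algebraMap (𝓞 k) k x - y = (algebraMap (𝓞 k) k x - algebraMap (𝓞 k) k r)
        + (algebraMap (𝓞 k) k r - y) := by ring
    rw [e]
    exact Valuation.map_add_le _ h2 hr
  have hv' : ∀ v' ∈ S, v' ≠ v →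
      v'.valuation k (algebraMap (𝓞 k) k x - 1) < v'.valuation k (4 : k) := by
    intro v' hv'S hne
    have h1 := hx v' (Finset.mem_insert_of_mem hv'S)
    simp only [if_neg hne] at h1
    have h2 : v'.valuation k (algebraMap (𝓞 k) k (x - 1)) ≤
        exp (-((2 * e2 k v' + 1 : ℕ) : ℤ)) := by
      rw [HeightOneSpectrum.valuation_of_algebraMap]
      exact (v'.intValuation_le_pow_iff_mem _ _).mpr h1
    rw [map_sub, map_one] at h2
    refine lt_of_le_of_lt h2 ?_
    rw [val_four_eq, exp_lt_exp]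
    push_cast
    omega
  have hyv : v.valuation k (y : k) = exp (-o v y) := val_eq v y
  have hx0 : algebraMap (𝓞 k) k x ≠ 0 := by
    intro h
    rw [h, zero_sub, Valuation.map_neg, hyv, exp_le_exp] at hv
    omega
  refine ⟨Units.mk0 _ hx0, ?_, fun v' h1 h2 => ?_⟩
  · rw [mem_OU]
    have e : ((Units.mk0 _ hx0 / y : kˣ) : k) - 1 = (algebraMap (𝓞 k) k x - y) * (y : k)⁻¹ := by
      rw [Units.val_div_eq_div_val, sub_mul, mul_inv_cancel₀ y.ne_zero, div_eq_mul_inv,
        Units.val_mk0]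
    rw [e, map_mul, map_inv₀, hyv, val_four_eq]
    calc v.valuation k (algebraMap (𝓞 k) k x - y) * (exp (-o v y))⁻¹
        ≤ exp (-(n : ℤ)) * (exp (-o v y))⁻¹ := by gcongr
      _ = exp (-(n : ℤ) + o v y) := by rw [← exp_neg, neg_neg, ← exp_add]
      _ < _ := by rw [exp_lt_exp]; omega
  · rw [mem_OU, Units.val_mk0]
    exact hv' v' h1 h2

/-- at an odd prime there is a unit which is not a local square -/
lemma exists_unit_not_LSq (v : HeightOneSpectrum (𝓞 k)) (h2 : v.valuation k (2 : k) = 1) :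
    ∃ u : kˣ, o v u = 0 ∧ u ∉ LSq v := by
  classical
  have : v.asIdeal.IsMaximal := v.isMaximal
  letI : Field (𝓞 k ⧸ v.asIdeal) := Ideal.Quotient.field v.asIdeal
  have : Finite (𝓞 k ⧸ v.asIdeal) := by
    have := finite_quot_pow v 1
    rwa [pow_one] at this
  have hchar : ringChar (𝓞 k ⧸ v.asIdeal) ≠ 2 := by
    intro h
    have h3 : (2 : 𝓞 k ⧸ v.asIdeal) = 0 := by
      have := ringChar.Nat.cast_ringChar (R := 𝓞 k ⧸ v.asIdeal)
      rw [h] at this
      exact_mod_cast this
    have h4 : (2 : 𝓞 k) ∈ v.asIdeal := by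
      rw [← Ideal.Quotient.eq_zero_iff_mem]
      rw [map_ofNat]; exact h3
    have h5 : v.valuation k (algebraMap (𝓞 k) k 2) < 1 := by
      rw [HeightOneSpectrum.valuation_lt_one_iff_mem]; exact h4
    rw [map_ofNat, h2] at h5
    exact lt_irrefl _ h5
  obtain ⟨abar, ha⟩ := FiniteField.exists_nonsquare hchar
  obtain ⟨r, rfl⟩ := Ideal.Quotient.mk_surjective abar
  have hr : r ∉ v.asIdeal := by
    intro h
    apply ha
    rw [Ideal.Quotient.eq_zero_iff_mem.mpr h]
    exact IsSquare.zero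
  have hr1 : v.valuation k (algebraMap (𝓞 k) k r) = 1 := by
    rw [HeightOneSpectrum.valuation_of_algebraMap]
    by_contra hne
    have hlt : v.intValuation r < 1 := lt_of_le_of_ne (v.intValuation_le_one r) hne
    exact hr ((v.intValuation_lt_one_iff_mem r).mp hlt)
  have hr0 : algebraMap (𝓞 k) k r ≠ 0 := by
    intro h
    rw [h, map_zero] at hr1
    exact zero_ne_one hr1
  refine ⟨Units.mk0 _ hr0, (o_eq_zero_iff v).mpr hr1, ?_⟩
  intro h
  obtain ⟨y, hy⟩ := (mem_LSq v).mp h
  have h4 : v.valuation k (4 : k) = 1 := by rw [val_four, h2, one_mul]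
  have hoy : o v y = 0 := by
    have h1 := o_of_mem_OU v hy
    rw [o_div, o_pow, (o_eq_zero_iff v).mpr (show v.valuation k ((Units.mk0 _ hr0 : kˣ) : k) = 1
      from hr1)] at h1
    push_cast at h1
    omega
  have hy1 : v.valuation k (y : k) = 1 := (o_eq_zero_iff v).mp hoy
  obtain ⟨s, hs⟩ := exists_approx v 1 hy1.le
  apply ha
  refine ⟨Ideal.Quotient.mk _ s, ?_⟩
  rw [← map_mul, Ideal.Quotient.eq, ← v.intValuation_lt_one_iff_mem]
  suffices h6 : v.valuation k (algebraMap (𝓞 k) k (r - s * s)) < 1 by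
    rwa [HeightOneSpectrum.valuation_of_algebraMap] at h6
  rw [map_sub, map_mul]
  have hs1 : v.valuation k (algebraMap (𝓞 k) k s - y) < 1 := by
    refine lt_of_le_of_lt hs ?_
    rw [← exp_zero, exp_lt_exp]; norm_num
  have hs2 : v.valuation k (algebraMap (𝓞 k) k s) ≤ 1 := v.valuation_le_one s
  have e : algebraMap (𝓞 k) k r - algebraMap (𝓞 k) k s * algebraMap (𝓞 k) k s
      = (algebraMap (𝓞 k) k r / y ^ 2 - 1) * (y : k) ^ 2
        - (algebraMap (𝓞 k) k s - y) * (algebraMap (𝓞 k) k s + y) := by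
    field_simp
    ring
  rw [e]
  refine Valuation.map_sub_lt _ ?_ ?_
  · rw [map_mul, map_pow, hy1, one_pow, mul_one]
    rw [mem_OU, h4] at hy
    simpa using hy
  · rw [map_mul]
    calc v.valuation k (algebraMap (𝓞 k) k s - y) * v.valuation k (algebraMap (𝓞 k) k s + y)
        ≤ v.valuation k (algebraMap (𝓞 k) k s - y) * 1 := by
          gcongr
          exact Valuation.map_add_le _ hs2 hy1.le
      _ < 1 := by rw [mul_one]; exact hs1

lemma LSq_le_NK (v : HeightOneSpectrum (𝓞 k)) (b : kˣ) : LSq v ≤ NK v b := by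
  intro x hx
  have hev := even_of_mem_LSq v hx
  by_cases hb : Even (o v b)
  · rwa [mem_NK_of_even hb]
  · rw [mem_NK_of_not_even hb, tame_apply]
    refine Subgroup.div_mem _ (Subgroup.zpow_mem _ hx _) ?_
    obtain ⟨m, hm⟩ := hev
    have : (-b) ^ (o v x) = ((-b) ^ m) ^ 2 := by
      rw [hm, zpow_add, pow_two]
    rw [this]
    exact sq_mem_LSq v _

/-- the intersection of the local norm groups of `k(√b)` at finitely many primes -/
noncomputable def NI (I : Finset (HeightOneSpectrum (𝓞 k))) (b : kˣ) : Subgroup kˣ :=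
  ⨅ v : I, NK v.1 b

lemma mem_NI {I : Finset (HeightOneSpectrum (𝓞 k))} {b x : kˣ} :
    x ∈ NI I b ↔ ∀ v ∈ I, x ∈ NK v b := by
  rw [NI, Subgroup.mem_iInf]
  exact ⟨fun h v hv => h ⟨v, hv⟩, fun h v => h v.1 v.2⟩

lemma LS_le_NI {S I : Finset (HeightOneSpectrum (𝓞 k))} (h : I ⊆ S) (b : kˣ) :
    LS S ≤ NI I b :=
  fun _ hx => mem_NI.mpr fun v hv => LSq_le_NK v b (mem_LS.mp hx v (h hv))

lemma exists_not_mem_NK (v : HeightOneSpectrum (𝓞 k)) (b : kˣ)
    (h2 : ¬ Even (o v b) → v.valuation k (2 : k) = 1) :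
    ∃ y : kˣ, 0 ≤ o v y ∧ y ∉ NK v b := by
  by_cases hb : Even (o v b)
  · obtain ⟨p, hp⟩ := exists_unif (K := k) v
    refine ⟨p, by rw [hp]; norm_num, ?_⟩
    rw [mem_NK_of_even hb, hp]
    decide
  · obtain ⟨u, hu0, hu⟩ := exists_unit_not_LSq v (h2 hb)
    refine ⟨u, hu0.ge, ?_⟩
    rwa [mem_NK_unit_iff hb hu0]

lemma two_pow_le_NI_index (I : Finset (HeightOneSpectrum (𝓞 k))) (b : kˣ)
    (h2 : ∀ v ∈ I, ¬ Even (o v b) → v.valuation k (2 : k) = 1) :
    2 ^ I.card ≤ (NI I b).index := by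
  classical
  have h0 : (NI I b).index ≠ 0 := by
    have h1 := Subgroup.index_dvd_of_le (LS_le_NI (Finset.Subset.refl I) b)
    intro h
    rw [h, zero_dvd_iff] at h1
    exact (LS_index I).1 h1
  have hex : ∀ v : I, ∃ x : kˣ, x ∉ NK v.1 b ∧ ∀ v' ∈ I, v' ≠ v.1 → x ∈ NK v' b := by
    intro v
    obtain ⟨y, hy0, hy⟩ := exists_not_mem_NK v.1 b (h2 v.1 v.2)
    obtain ⟨x, hx1, hx2⟩ := exists_approx_OU v.1 I y hy0
    refine ⟨x, fun h => hy ?_, fun v' hv' hne => ?_⟩
    · have h3 : x / y ∈ NK v.1 b := LSq_le_NK v.1 b (Subgroup.mem_sup_right hx1)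
      have h4 : y = x / (x / y) := by rw [div_div_cancel]
      rw [h4]
      exact Subgroup.div_mem _ h h3
    · exact LSq_le_NK v' b (Subgroup.mem_sup_right (hx2 v' hv' hne))
  choose x hx1 hx2 using hex
  have key := two_pow_le_relIndex (ι := I) (fun v => NK v.1 b) (NI I b) ⊤
    (fun v y hy => mem_NI.mp hy v.1 v.2)
    (fun v => x v) (fun _ => trivial) (fun v => hx1 v)
    (fun v v' hne => hx2 v v'.1 v'.2 (fun h => hne (Subtype.ext h)))
    (by rwa [Subgroup.relIndex_top_right])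
  rwa [Nat.card_eq_fintype_card, Fintype.card_coe, Subgroup.relIndex_top_right] at key

end

section

variable {k : Type u} [Field k] [NumberField k]
  {M : Type*} [Field M] [NumberField M] [Algebra k M] [Algebra.IsQuadraticExtension k M]

lemma o_nu_eq' {σ : M ≃ₐ[k] M} (hσ : σ ≠ 1) (w : HeightOneSpectrum (𝓞 M)) (hw : ee k w = 1)
    (z : Mˣ) :
    o (und k w) (nu k M z) = o w z + o (sp σ w) z := by
  have h := o_bc w (nu k M z)
  rw [bc_nu σ hσ, o_mul, o_su' σ hσ, hw] at h
  rw [h]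
  norm_num

/-- norms are in the local norm group at every nonsplit prime (odd or unramified) -/
lemma nu_mem_NK' {σ : M ≃ₐ[k] M} (hσ : σ ≠ 1) {b : kˣ} {θ : Mˣ} (hθ : θ ^ 2 = bc k M b)
    (hσθ : σ (θ : M) = -θ) {v : HeightOneSpectrum (𝓞 k)} (hns : NSp M v)
    (h2 : v.valuation k (2 : k) = 1 ∨ ∀ w : HeightOneSpectrum (𝓞 M), und k w = v → ee k w = 1)
    (z : Mˣ) : nu k M z ∈ NK v b := by
  rcases h2 with h2 | h2
  · exact nu_mem_NK σ hσ hθ hσθ hns h2 z
  · obtain ⟨w, rfl⟩ := exists_und_eq M v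
    have hee := h2 w rfl
    have hw : sp σ w = w := (NSp_iff σ hσ).mp hns
    have hb : Even (o (und k w) b) := by
      have h3 := two_mul_o_theta hθ w
      rw [hee] at h3
      exact ⟨o w θ, by push_cast at h3; omega⟩
    rw [mem_NK_of_even hb, o_nu_eq' hσ w hee, hw]
    exact ⟨_, rfl⟩

/-- the exponent of `b` is even at dyadic unramified primes -/
lemma odd_of_not_even {b : kˣ} {θ : Mˣ} (hθ : θ ^ 2 = bc k M b)
    (hdy : ∀ w : HeightOneSpectrum (𝓞 M), (und k w).valuation k (2 : k) ≠ 1 → ee k w = 1)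
    (v : HeightOneSpectrum (𝓞 k)) (hb : ¬ Even (o v b)) : v.valuation k (2 : k) = 1 := by
  by_contra h
  obtain ⟨w, rfl⟩ := exists_und_eq M v
  apply hb
  have h3 := two_mul_o_theta hθ w
  rw [hdy w h] at h3
  exact ⟨o w θ, by push_cast at h3; omega⟩

variable [IsTotallyComplex k]

/-- The norm theorem for `S`-units, tamely ramified case. -/
theorem norm_SU' (S : Finset (HeightOneSpectrum (𝓞 k)))
    (hram : ∀ w : HeightOneSpectrum (𝓞 M), und k w ∉ S → ee k w = 1)
    (hdy : ∀ w : HeightOneSpectrum (𝓞 M), (und k w).valuation k (2 : k) ≠ 1 → ee k w = 1)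
    (hcl : ClTriv (S : Set (HeightOneSpectrum (𝓞 k))) k)
    (hclM : ClTriv {w : HeightOneSpectrum (𝓞 M) | und k w ∈ S} M)
    (h2S : ∀ v, v ∉ S → v.valuation k (2 : k) = 1)
    {b : kˣ} (hb : ¬ IsSquare (b : k)) {θ : Mˣ} (hθ : θ ^ 2 = bc k M b)
    (a : kˣ) (ha : a ∈ SU (S : Set (HeightOneSpectrum (𝓞 k))) k)
    (hpar : ∀ v ∈ S, NSp M v → a ∈ NK v b) : ∃ z : Mˣ, nu k M z = a := by
  classical
  obtain ⟨σ, hσ⟩ := exists_aut k M
  have hσθ := sigma_theta hσ hb hθ
  obtain ⟨T, hT, hTc⟩ := exists_T S hb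
  have hcard := card_T_ge hT hTc
  have hidx := relIndex_norm (k := k) (F := M) S hram hcl
  set N := (SU {w : HeightOneSpectrum (𝓞 M) | und k w ∈ S} M).map (nu k M) with hN
  set U := SU (S : Set (HeightOneSpectrum (𝓞 k))) k with hU
  set I := S.filter (NSp M) with hI
  set U' := SU ((S ∪ T : Finset (HeightOneSpectrum (𝓞 k))) : Set (HeightOneSpectrum (𝓞 k))) k
    with hU'
  have hUU' : U ≤ U' := SU_mono (by
    intro v hv
    rw [Finset.coe_union]
    exact Or.inl hv)
  have hdisj : Disjoint S T := by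
    rw [Finset.disjoint_right]
    exact fun v hv => hT.notS v hv
  have hod : ∀ v : HeightOneSpectrum (𝓞 k), v.valuation k (2 : k) = 1 ∨
      ∀ w : HeightOneSpectrum (𝓞 M), und k w = v → ee k w = 1 := by
    intro v
    by_cases h : v.valuation k (2 : k) = 1
    · exact Or.inl h
    · exact Or.inr fun w hw => hdy w (by rwa [hw])
  -- norms are local norms at nonsplit primes
  have hnuEv : ∀ z : Mˣ, nu k M z ∈ NI I b := by
    intro z
    rw [mem_NI]
    intro v hv
    exact nu_mem_NK' hσ hθ hσθ (Finset.mem_filter.mp hv).2 (hod v) z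
  -- step 1
  have h1 : (LS S).relIndex U' = 2 ^ (Units.rank k + 1 + (S ∪ T).card) := by
    rw [← sqI_SU k (S ∪ T), sqI, ← Subgroup.inf_relIndex_right (LS S) U',
      ← Subgroup.inf_relIndex_right (sqS U') U']
    congr 1
    apply le_antisymm
    · rintro x ⟨hx1, hx2⟩
      refine ⟨?_, hx2⟩
      have hx3 : ∀ v, v ∉ S → v ∉ T → o v x = 0 := by
        intro v hv1 hv2
        exact hx2 v (by
          rw [Finset.mem_coe, Finset.mem_union, not_or]
          exact ⟨hv1, hv2⟩)
      have h := square_of_local hT hcl h2S x hx3 (mem_LS.mp hx1)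
      exact (isSquare_iff_mem _ hx2).mpr h
    · rintro x ⟨hx1, hx2⟩
      refine ⟨?_, hx2⟩
      obtain ⟨y, _, rfl⟩ := mem_sqS.mp hx1
      exact mem_LS.mpr fun v _ => sq_mem_LSq v y
  rw [Finset.card_union_of_disjoint hdisj] at h1
  -- step 2
  have hrk := two_mul_rank_add_one k
  have h2 : (LS S ⊔ U').index ≤ 2 ∧ (LS S ⊔ U').index ≠ 0 := by
    have e1 : (LS S).relIndex (LS S ⊔ U') * (LS S ⊔ U').index = (LS S).index :=
      Subgroup.relIndex_mul_index le_sup_left
    rw [sup_comm, Subgroup.relIndex_sup_right, sup_comm, h1] at e1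
    obtain ⟨e2, e3⟩ := LS_index S
    rw [← e1] at e2 e3
    refine ⟨?_, fun h => e2 (by rw [h, mul_zero])⟩
    have e4 : 2 ^ (2 * S.card + Module.finrank ℚ k) ≤
        2 ^ (Units.rank k + 1 + (S.card + T.card)) * 2 := by
      rw [← pow_succ]
      exact Nat.pow_le_pow_right (by norm_num) (by omega)
    exact Nat.le_of_mul_le_mul_left (e3.trans e4) (by positivity)
  -- step 3
  have h3 : U' ⊔ NI I b = U ⊔ NI I b := by
    apply le_antisymm
    · refine sup_le ?_ le_sup_right
      intro x hx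
      -- norms from split primes
      have hsp : ∀ v ∈ T, ∃ z : Mˣ, o v (nu k M z) = 1 ∧
          ∀ v', v' ∉ S → v' ≠ v → o v' (nu k M z) = 0 := by
        intro v hv
        have hnsp := split_of_mem_LSq σ hσ hθ hσθ (hT.bsq v hv)
        obtain ⟨w, rfl⟩ := exists_und_eq M v
        have hw : sp σ w ≠ w := fun h => hnsp ((NSp_iff σ hσ).mpr h)
        have hvS := hT.notS _ hv
        obtain ⟨z, hz1, hz2⟩ := hclM w hvS
        refine ⟨z, ?_, ?_⟩
        · rw [o_nu_eq' hσ w (hram w hvS), hz1, hz2 (sp σ w) (by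
            change und k (sp σ w) ∉ S
            rw [und_sp]; exact hvS) hw]
          rfl
        · intro v' hv' hne
          obtain ⟨w', rfl⟩ := exists_und_eq M v'
          rw [o_nu_eq' hσ w' (hram w' hv'), hz2 w' hv' (by rintro rfl; exact hne rfl),
            hz2 (sp σ w') (by
              change und k (sp σ w') ∉ S
              rw [und_sp]; exact hv') (by
                intro h
                apply hne
                rw [← h, und_sp])]
          rfl
      choose! z hz1 hz2 using hsp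
      have hx' : x * (∏ v ∈ T, (nu k M (z v)) ^ (o v x))⁻¹ ∈ U := by
        intro v' hv'
        have hv'S : v' ∉ S := by simpa using hv'
        rw [o_mul, o_inv, o_prod]
        by_cases hv'T : v' ∈ T
        · rw [Finset.sum_eq_single_of_mem v' hv'T]
          · rw [o_zpow, hz1 v' hv'T]
            ring
          · intro v hv hne
            rw [o_zpow, hz2 v hv v' hv'S hne.symm, mul_zero]
        · rw [hx v' (by
            rw [Finset.mem_coe, Finset.mem_union, not_or]
            exact ⟨hv'S, hv'T⟩), Finset.sum_eq_zero]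
          · ring
          · intro v hv
            rw [o_zpow, hz2 v hv v' hv'S (by rintro rfl; exact hv'T hv), mul_zero]
      have h5 : x = (x * (∏ v ∈ T, (nu k M (z v)) ^ (o v x))⁻¹) *
          ∏ v ∈ T, (nu k M (z v)) ^ (o v x) := (inv_mul_cancel_right x _).symm
      rw [h5]
      exact Subgroup.mul_mem_sup hx'
        (Subgroup.prod_mem _ fun v _ => Subgroup.zpow_mem _ (hnuEv _) _)
    · exact sup_le (hUU'.trans le_sup_left) le_sup_right
  have h4 : 2 ^ I.card ≤ (NI I b).relIndex U * 2 := by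
    have e1 : (NI I b).relIndex (NI I b ⊔ U') * (NI I b ⊔ U').index = (NI I b).index :=
      Subgroup.relIndex_mul_index le_sup_left
    have e2 : (NI I b).relIndex (NI I b ⊔ U') = (NI I b).relIndex U := by
      rw [sup_comm, h3, Subgroup.relIndex_sup_right]
    have e3 : (NI I b ⊔ U').index ≤ 2 := by
      have e4 : LS S ⊔ U' ≤ NI I b ⊔ U' :=
        sup_le_sup_right (LS_le_NI (Finset.filter_subset _ _) b) _
      exact (Nat.le_of_dvd (Nat.pos_of_ne_zero h2.2) (Subgroup.index_dvd_of_le e4)).trans h2.1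
    calc 2 ^ I.card ≤ (NI I b).index :=
          two_pow_le_NI_index I b fun v _ => odd_of_not_even hθ hdy v
      _ = (NI I b).relIndex U * (NI I b ⊔ U').index := by rw [← e1, e2]
      _ ≤ _ := Nat.mul_le_mul_left _ e3
  -- step 4
  have hNle : N ≤ NI I b ⊓ U := by
    rintro _ ⟨y, hy, rfl⟩
    refine ⟨hnuEv y, ?_⟩
    intro v hv
    obtain ⟨w, rfl⟩ := exists_und_eq M v
    have hv' : und k w ∉ S := by simpa using hv
    rw [o_nu_eq' hσ w (hram w hv'), hy w hv', hy (sp σ w) (by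
      change und k (sp σ w) ∉ S
      rw [und_sp]; exact hv')]
    rfl
  have e5 : N.relIndex (NI I b ⊓ U) * (NI I b ⊓ U).relIndex U = N.relIndex U :=
    Subgroup.relIndex_mul_relIndex _ _ _ hNle inf_le_right
  rw [Subgroup.inf_relIndex_right] at e5
  rw [← e5] at hidx
  have e6 : N.relIndex (NI I b ⊓ U) * ((NI I b).relIndex U * 2) ≤
      1 * ((NI I b).relIndex U * 2) := by
    rw [one_mul, ← mul_assoc, hidx]
    exact h4
  have e7 : 0 < (NI I b).relIndex U * 2 := lt_of_lt_of_le (by positivity) h4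
  have e8 := Nat.le_of_mul_le_mul_right e6 e7
  have e9 : N.relIndex (NI I b ⊓ U) ≠ 0 := by
    intro h
    rw [h, zero_mul, zero_mul] at hidx
    exact absurd hidx.symm (by positivity)
  have e10 : N.relIndex (NI I b ⊓ U) = 1 := by omega
  have e11 := Subgroup.relIndex_eq_one.mp e10
  have haN : a ∈ N := e11 ⟨mem_NI.mpr fun v hv => by
    obtain ⟨hvS, hvn⟩ := Finset.mem_filter.mp hv
    exact hpar v hvS hvn, ha⟩
  obtain ⟨y, _, hy⟩ := haN
  exact ⟨y, hy⟩

/-- **Hasse norm theorem** for a quadratic extension `M = k(√b)` of a totally complex number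
field, unramified at the primes above `2`: an element which is a local norm at all nonsplit
primes is a norm. -/
theorem hasse_norm {b : kˣ} (hb : ¬ IsSquare (b : k)) {θ : Mˣ} (hθ : θ ^ 2 = bc k M b)
    (hdy : ∀ w : HeightOneSpectrum (𝓞 M), (und k w).valuation k (2 : k) ≠ 1 → ee k w = 1)
    (a : kˣ) (hloc : ∀ v : HeightOneSpectrum (𝓞 k), NSp M v → a ∈ NK v b) :
    ∃ z : Mˣ, nu k M z = a := by
  classical
  obtain ⟨σ, hσ⟩ := exists_aut k M
  have hσθ := sigma_theta hσ hb hθ
  obtain ⟨S₁, hS₁⟩ := exists_ClTriv k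
  obtain ⟨S₂, hS₂⟩ := exists_ClTriv M
  set two : kˣ := Units.mk0 (2 : k) two_ne_zero with htwo
  obtain ⟨S, hS⟩ : ∃ S : Finset (HeightOneSpectrum (𝓞 k)), S = S₁ ∪ S₂.image (und k) ∪
      (finite_o_ne (K := k) two).toFinset ∪ (finite_o_ne (K := k) a).toFinset ∪
      (finite_o_ne (K := k) b).toFinset := ⟨_, rfl⟩
  have hmem : ∀ v, v ∉ S → v ∉ S₁ ∧ v ∉ S₂.image (und k) ∧ o v two = 0 ∧ o v a = 0 ∧
      o v b = 0 := by
    intro v hv
    rw [hS] at hv
    simp only [Finset.mem_union, Set.Finite.mem_toFinset, Set.mem_ofPred_eq, not_or,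
      not_not] at hv
    obtain ⟨⟨⟨⟨h1, h2⟩, h3⟩, h4⟩, h5⟩ := hv
    exact ⟨h1, h2, h3, h4, h5⟩
  have h2S : ∀ v, v ∉ S → v.valuation k (2 : k) = 1 := fun v hv =>
    (o_eq_zero_iff v).mp (hmem v hv).2.2.1
  refine norm_SU' (M := M) S ?_ hdy (hS₁.mono ?_) (hS₂.mono ?_) h2S hb hθ a ?_
    (fun v _ => hloc v)
  · intro w hw
    apply ee_eq_one_of_even σ hσ hθ hσθ (h2S _ hw)
    rw [(hmem _ hw).2.2.2.2]
    exact ⟨0, rfl⟩
  · intro v hv
    rw [Finset.mem_coe] at hv ⊢
    by_contra h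
    exact (hmem v h).1 hv
  · intro w hw
    change und k w ∈ S
    by_contra h
    exact (hmem _ h).2.1 (Finset.mem_image_of_mem _ hw)
  · intro v hv
    exact (hmem v (by simpa using hv)).2.2.2.1

end

end Pool.Agent.Lib.QCFT
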